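import Mathlib
import Pool.Agent.Helper256.KM.Mertens

/-!
# Small multiplicative energy, part 1: sums of `z ^ Ω(n)`
-/

namespace Pool.Agent.V11205.ME

open Finset ArithmeticFunction

/-- the weight `z ^ Ω(n)` -/
noncomputable def wt (z : ℝ) (n : ℕ) : ℝ := z ^ (ArithmeticFunction.cardFactors n)

/-- `z ^ Ω(n) / n` as a monoid homomorphism -/
noncomputable def fdiv (z : ℝ) : ℕ →* ℝ where
  toFun n := wt z n / n
  map_one' := by simp [wt]
  map_mul' m n := by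
    rcases eq_or_ne m 0 with rfl | hm
    · simp
    rcases eq_or_ne n 0 with rfl | hn
    · simp
    simp only [wt]
    rw [ArithmeticFunction.cardFactors_mul hm hn, pow_add]
    push_cast
    rw [mul_div_mul_comm]

lemma wt_nonneg {z : ℝ} (hz : 0 ≤ z) (n : ℕ) : 0 ≤ wt z n := pow_nonneg hz _

lemma wt_pos {z : ℝ} (hz : 0 < z) (n : ℕ) : 0 < wt z n := pow_pos hz _

lemma wt_le_one {z : ℝ} (hz : 0 ≤ z) (hz1 : z ≤ 1) (n : ℕ) : wt z n ≤ 1 := pow_le_one₀ hz hz1

lemma wt_mul (z : ℝ) {m n : ℕ} (hm : m ≠ 0) (hn : n ≠ 0) : wt z (m * n) = wt z m * wt z n := by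
  simp only [wt]
  rw [ArithmeticFunction.cardFactors_mul hm hn, pow_add]

lemma fdiv_apply (z : ℝ) (n : ℕ) : fdiv z n = wt z n / n := rfl

lemma fdiv_prime (z : ℝ) {p : ℕ} (hp : p.Prime) : fdiv z p = z / p := by
  rw [fdiv_apply, wt, ArithmeticFunction.cardFactors_apply_prime hp, pow_one]

lemma fdiv_nonneg {z : ℝ} (hz : 0 ≤ z) (n : ℕ) : 0 ≤ fdiv z n :=
  div_nonneg (wt_nonneg hz n) (Nat.cast_nonneg _)

/-- the partial sum of `z ^ Ω(n) / n` is at most the Euler product -/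
lemma sum_fdiv_le_prod {z : ℝ} (hz : 0 ≤ z) (hz1 : z ≤ 1) (x : ℕ) :
    ∑ n ∈ Icc 1 x, wt z n / n ≤ ∏ p ∈ (x + 1).primesBelow, (1 - z / p)⁻¹ := by
  have h : ∀ {p : ℕ}, p.Prime → ‖fdiv z p‖ < 1 := by
    intro p hp
    rw [fdiv_prime z hp, Real.norm_of_nonneg (by positivity)]
    have : (2 : ℝ) ≤ p := by exact_mod_cast hp.two_le
    rw [div_lt_one (by linarith)]
    linarith
  obtain ⟨h1, h2⟩ :=
    EulerProduct.summable_and_hasSum_smoothNumbers_prod_primesBelow_geometric (f := fdiv z) h (x + 1)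
  have h3 : ∏ p ∈ (x + 1).primesBelow, (1 - fdiv z p)⁻¹
      = ∏ p ∈ (x + 1).primesBelow, (1 - z / p)⁻¹ := by
    refine Finset.prod_congr rfl fun p hp => ?_
    rw [fdiv_prime z (Nat.prime_of_mem_primesBelow hp)]
  rw [← h3]
  have hmem : ∀ n ∈ Icc 1 x, n ∈ (x + 1).smoothNumbers := by
    intro n hn
    rw [Finset.mem_Icc] at hn
    rw [Nat.mem_smoothNumbers']
    intro p hp hpn
    exact lt_of_le_of_lt (Nat.le_of_dvd (by omega) hpn) (by omega)
  let g : {n // n ∈ Icc 1 x} → (x + 1).smoothNumbers := fun n => ⟨n.1, hmem n.1 n.2⟩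
  have hg : Function.Injective g := by
    intro a b hab
    simp only [g, Subtype.mk.injEq] at hab
    exact Subtype.ext hab
  have h4 : ∑ n ∈ Icc 1 x, wt z n / n
      = ∑ m ∈ (Icc 1 x).attach.map ⟨g, hg⟩, fdiv z m := by
    rw [Finset.sum_map]
    simp only [Function.Embedding.coeFn_mk, g]
    rw [Finset.sum_attach (Icc 1 x) (fun n => fdiv z n)]
    rfl
  rw [h4]
  exact sum_le_hasSum _ (fun m _ => fdiv_nonneg hz _) h2

/-- Euler product for `1 / n`: lower bound for `∏ (1 - 1/p)⁻¹`. -/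
lemma inv_one_sub_le {t : ℝ} (h0 : 0 ≤ t) (h1 : t ≤ 1 / 2) :
    (1 - t)⁻¹ ≤ Real.exp (t + 2 * t ^ 2) := by
  have h2 : 0 < 1 - t := by linarith
  have h3 : Real.log (1 - t)⁻¹ ≤ (1 - t)⁻¹ - 1 := Real.log_le_sub_one_of_pos (inv_pos.2 h2)
  have h4 : (1 - t)⁻¹ - 1 ≤ t + 2 * t ^ 2 := by
    rw [sub_le_iff_le_add, inv_le_iff_one_le_mul₀ h2]
    nlinarith [mul_nonneg (mul_nonneg h0 h0) (by linarith : (0 : ℝ) ≤ 1 - 2 * t)]
  rw [← Real.log_le_iff_le_exp (inv_pos.2 h2)]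
  linarith

/-- upper bound `∑_{n ≤ x} z^Ω(n)/n ≤ C (log x)^z`. -/
lemma sum_fdiv_le : ∃ C : ℝ, 0 < C ∧ ∀ z : ℝ, 0 ≤ z → z ≤ 1 → ∀ x : ℕ, 3 ≤ x →
    ∑ n ∈ Icc 1 x, wt z n / n ≤ C * Real.log x ^ z := by
  obtain ⟨C₁, hC₁⟩ := Pool.Agent.Helper256.KM.mertens_inv
  have hs : Summable (fun n : ℕ => 1 / (n : ℝ) ^ 2) := Real.summable_one_div_nat_pow.2 (by norm_num)
  set K : ℝ := ∑' n : ℕ, 1 / (n : ℝ) ^ 2 with hK
  have hC₁0 : 0 ≤ C₁ := (abs_nonneg _).trans (hC₁ 3 le_rfl)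
  refine ⟨Real.exp (C₁ + 2 * K), Real.exp_pos _, fun z hz hz1 x hx => ?_⟩
  refine (sum_fdiv_le_prod hz hz1 x).trans ?_
  have hx1 : (1 : ℝ) < Real.log x := by
    have h3 : Real.exp 1 < 3 := by have := Real.exp_one_lt_d9; linarith
    have h4 : (3 : ℝ) ≤ x := by exact_mod_cast hx
    rw [Real.lt_log_iff_exp_lt (by linarith)]
    linarith
  have h1 : ∏ p ∈ (x + 1).primesBelow, (1 - z / p)⁻¹
      ≤ ∏ p ∈ (x + 1).primesBelow, Real.exp (z * (1 / p) + 2 * (1 / (p : ℝ) ^ 2)) := by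
    refine Finset.prod_le_prod (fun p hp => ?_) fun p hp => ?_
    · have hp2 : (2 : ℝ) ≤ p := by exact_mod_cast (Nat.prime_of_mem_primesBelow hp).two_le
      have : z / p ≤ 1 := by rw [div_le_one (by linarith)]; linarith
      exact inv_nonneg.2 (by linarith)
    · have hp2 : (2 : ℝ) ≤ p := by exact_mod_cast (Nat.prime_of_mem_primesBelow hp).two_le
      have hp0 : (0 : ℝ) < p := by linarith
      refine (inv_one_sub_le (t := z / p) (by positivity) ?_).trans ?_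
      · rw [div_le_div_iff₀ hp0 (by norm_num)]; linarith
      · rw [Real.exp_le_exp]
        have : (z / p) ^ 2 ≤ 1 / (p : ℝ) ^ 2 := by
          rw [div_pow]
          refine div_le_div_of_nonneg_right ?_ (by positivity)
          exact pow_le_one₀ hz hz1
        have h2 : z * (1 / p) = z / p := by ring
        linarith
  refine h1.trans ?_
  rw [← Real.exp_sum, Real.rpow_def_of_pos (by linarith), ← Real.exp_add, Real.exp_le_exp,
    Finset.sum_add_distrib, ← Finset.mul_sum, ← Finset.mul_sum]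
  have hset : (x + 1).primesBelow = (Finset.Icc 1 x).filter Nat.Prime := by
    ext p
    simp only [Nat.mem_primesBelow, mem_filter, mem_Icc]
    constructor
    · rintro ⟨h, hp⟩; exact ⟨⟨hp.one_lt.le, by omega⟩, hp⟩
    · rintro ⟨⟨h, h'⟩, hp⟩; exact ⟨by omega, hp⟩
  have h5 : ∑ p ∈ (x + 1).primesBelow, 1 / (p : ℝ) ^ 2 ≤ K :=
    hs.sum_le_tsum _ fun n _ => by positivity
  have h6 : ∑ p ∈ (x + 1).primesBelow, 1 / (p : ℝ) ≤ Real.log (Real.log x) + C₁ := by
    rw [hset]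
    have := (abs_le.1 (hC₁ x hx)).2
    linarith
  have h7 : z * ∑ p ∈ (x + 1).primesBelow, 1 / (p : ℝ) ≤ z * (Real.log (Real.log x) + C₁) :=
    mul_le_mul_of_nonneg_left h6 hz
  have h8 : z * C₁ ≤ C₁ := by nlinarith
  nlinarith

/-- the sum `∑_{n ≤ x} z^Ω(n)` -/
noncomputable def FF (z : ℝ) (x : ℕ) : ℝ := ∑ n ∈ Icc 1 x, wt z n

lemma FF_nonneg {z : ℝ} (hz : 0 ≤ z) (x : ℕ) : 0 ≤ FF z x :=
  Finset.sum_nonneg fun n _ => wt_nonneg hz n

lemma FF_le_self {z : ℝ} (hz : 0 ≤ z) (hz1 : z ≤ 1) (x : ℕ) : FF z x ≤ x := by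
  refine (Finset.sum_le_sum fun n _ => wt_le_one hz hz1 n).trans ?_
  simp

/-- `z ^ Ω` as arithmetic function -/
noncomputable def aw (z : ℝ) : ArithmeticFunction ℝ := ⟨fun n => if n = 0 then 0 else wt z n, by simp⟩

lemma aw_apply (z : ℝ) {n : ℕ} (hn : n ≠ 0) : aw z n = wt z n := by
  simp only [aw, ArithmeticFunction.coe_mk, if_neg hn]

/-- `∑_{n ≤ x} z^Ω(n) log n ≤ C x ∑ z^Ω(m)/m` -/
lemma sum_wt_log_le {z : ℝ} (hz : 0 ≤ z) (hz1 : z ≤ 1) (x : ℕ) :
    ∑ n ∈ Icc 1 x, wt z n * Real.log n ≤ (Real.log 4 + 4) * x * ∑ m ∈ Icc 1 x, wt z m / m := by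
  let g : ArithmeticFunction ℝ := ArithmeticFunction.pmul (aw z) ArithmeticFunction.vonMangoldt
  have hI : Icc 1 x = Ioc 0 x := rfl
  have h1 : ∀ n ∈ Icc 1 x, wt z n * Real.log n = (aw z * g) n := by
    intro n hn
    rw [Finset.mem_Icc] at hn
    rw [ArithmeticFunction.mul_apply, ← ArithmeticFunction.vonMangoldt_sum,
      ← Nat.sum_divisorsAntidiagonal' (fun a b => ArithmeticFunction.vonMangoldt b), Finset.mul_sum]
    refine Finset.sum_congr rfl fun p hp => ?_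
    rw [Nat.mem_divisorsAntidiagonal] at hp
    have hp1 : p.1 ≠ 0 := by rintro h; rw [h] at hp; simp at hp; omega
    have hp2 : p.2 ≠ 0 := by rintro h; rw [h] at hp; simp at hp; omega
    simp only [g, ArithmeticFunction.pmul_apply]
    rw [aw_apply z hp1, aw_apply z hp2, ← hp.1, wt_mul z hp1 hp2]
    ring
  rw [Finset.sum_congr rfl h1, hI, ArithmeticFunction.sum_Ioc_mul_eq_sum_sum, Finset.mul_sum]
  refine Finset.sum_le_sum fun n hn => ?_
  rw [Finset.mem_Ioc] at hn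
  rw [aw_apply z (by omega)]
  have h2 : ∑ m ∈ Ioc 0 (x / n), g m ≤ (Real.log 4 + 4) * (x / n : ℝ) := by
    have h3 : ∑ m ∈ Ioc 0 (x / n), g m ≤ Chebyshev.psi ((x / n : ℕ) : ℝ) := by
      rw [Chebyshev.psi, Nat.floor_natCast]
      refine Finset.sum_le_sum fun m hm => ?_
      rw [Finset.mem_Ioc] at hm
      simp only [g, ArithmeticFunction.pmul_apply]
      rw [aw_apply z (by omega)]
      have := wt_le_one hz hz1 m
      have h4 : 0 ≤ ArithmeticFunction.vonMangoldt m := ArithmeticFunction.vonMangoldt_nonneg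
      nlinarith
    have h5 := Chebyshev.psi_le_const_mul_self (x := ((x / n : ℕ) : ℝ)) (by positivity)
    have h6 : ((x / n : ℕ) : ℝ) ≤ (x / n : ℝ) := Nat.cast_div_le
    have h7 : 0 ≤ Real.log 4 := Real.log_nonneg (by norm_num)
    calc ∑ m ∈ Ioc 0 (x / n), g m ≤ _ := h3
      _ ≤ _ := h5
      _ ≤ _ := by gcongr
  calc wt z n * ∑ m ∈ Ioc 0 (x / n), g m ≤ wt z n * ((Real.log 4 + 4) * (x / n : ℝ)) :=
        mul_le_mul_of_nonneg_left h2 (wt_nonneg hz n)
    _ = (Real.log 4 + 4) * x * (wt z n / n) := by ring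

/-- the bound of Hall and Tenenbaum for `z ^ Ω(n)`: crude form with the sum -/
lemma FF_mul_log_le {z : ℝ} (hz : 0 ≤ z) (hz1 : z ≤ 1) (x : ℕ) :
    FF z x * (1 + Real.log x) ≤ (Real.log 4 + 6) * x * ∑ m ∈ Icc 1 x, wt z m / m := by
  have h1 := sum_wt_log_le hz hz1 x
  have h2 : FF z x ≤ x * ∑ m ∈ Icc 1 x, wt z m / m := by
    rw [FF, Finset.mul_sum]
    refine Finset.sum_le_sum fun n hn => ?_
    rw [Finset.mem_Icc] at hn
    have hn0 : (0 : ℝ) < n := by exact_mod_cast (by omega : 0 < n)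
    have hnx : (n : ℝ) ≤ x := by exact_mod_cast hn.2
    rw [mul_div_assoc', le_div_iff₀ hn0, mul_comm (x : ℝ)]
    exact mul_le_mul_of_nonneg_left hnx (wt_nonneg hz n)
  have h3 : FF z x * Real.log x ≤ ∑ n ∈ Icc 1 x, wt z n * Real.log n
      + x * ∑ m ∈ Icc 1 x, wt z m / m := by
    rw [FF, Finset.sum_mul, Finset.mul_sum, ← Finset.sum_add_distrib]
    refine Finset.sum_le_sum fun n hn => ?_
    rw [Finset.mem_Icc] at hn
    have hn0 : (0 : ℝ) < n := by exact_mod_cast (by omega : 0 < n)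
    have hx0 : (0 : ℝ) < x := by exact_mod_cast (by omega : 0 < x)
    have h4 : Real.log x ≤ Real.log n + x / n := by
      have h5 : Real.log (x / n) ≤ x / n - 1 := Real.log_le_sub_one_of_pos (by positivity)
      rw [Real.log_div hx0.ne' hn0.ne'] at h5
      linarith
    calc wt z n * Real.log x ≤ wt z n * (Real.log n + x / n) :=
          mul_le_mul_of_nonneg_left h4 (wt_nonneg hz n)
      _ = _ := by ring
  nlinarith

/-- **Hall–Tenenbaum**: `∑_{n ≤ x} z^Ω(n) ≤ C x (1 + log x)^(z-1)`. -/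
lemma FF_le : ∃ C : ℝ, 0 < C ∧ ∀ z : ℝ, 0 ≤ z → z ≤ 1 → ∀ x : ℕ,
    FF z x ≤ C * x * (1 + Real.log x) ^ (z - 1) := by
  obtain ⟨C, hC0, hC⟩ := sum_fdiv_le
  have hl4 : 0 ≤ Real.log 4 := Real.log_nonneg (by norm_num)
  refine ⟨(Real.log 4 + 6) * C + 3, by positivity, fun z hz hz1 x => ?_⟩
  rcases Nat.lt_or_ge x 3 with hx | hx
  · -- small x: trivial bound
    rcases Nat.eq_zero_or_pos x with rfl | hx0
    · simp [FF]
    have hl : 0 ≤ Real.log x := Real.log_natCast_nonneg x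
    have h1 := FF_le_self hz hz1 x
    have hlx : 1 + Real.log x ≤ 3 := by
      have h2 : Real.log x ≤ x - 1 := Real.log_le_sub_one_of_pos (by exact_mod_cast hx0)
      have h3 : (x : ℝ) ≤ 2 := by exact_mod_cast (by omega : x ≤ 2)
      linarith
    have h4 : (1 : ℝ) / 3 ≤ (1 + Real.log x) ^ (z - 1) := by
      have h5 : (1 + Real.log x) ^ (z - 1) ≥ (3 : ℝ) ^ (z - 1) :=
        Real.rpow_le_rpow_of_nonpos (by linarith) hlx (by linarith)
      have h6 : (3 : ℝ) ^ (z - 1) ≥ (3 : ℝ) ^ (-1 : ℝ) :=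
        Real.rpow_le_rpow_of_exponent_le (by norm_num) (by linarith)
      have h7 : (1 : ℝ) / 3 = (3 : ℝ) ^ (-1 : ℝ) := by
        rw [Real.rpow_neg_one]; norm_num
      exact h7.le.trans (h6.le.trans h5.le)
    have hx0' : (0 : ℝ) < x := by exact_mod_cast hx0
    calc FF z x ≤ x := h1
      _ = 3 * x * (1 / 3) := by ring
      _ ≤ ((Real.log 4 + 6) * C + 3) * x * (1 + Real.log x) ^ (z - 1) := by
        gcongr
        nlinarith
  · have h1 := FF_mul_log_le hz hz1 x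
    have h2 := hC z hz hz1 x hx
    have hlx : 0 < Real.log x := Real.log_pos (by exact_mod_cast (by omega : 1 < x))
    have hL : 0 < 1 + Real.log x := by linarith
    have h3 : Real.log x ^ z ≤ (1 + Real.log x) ^ z := Real.rpow_le_rpow hlx.le (by linarith) hz
    have hx0 : (0 : ℝ) < x := by exact_mod_cast (by omega : 0 < x)
    have h4 : FF z x * (1 + Real.log x) ≤ (Real.log 4 + 6) * x * (C * (1 + Real.log x) ^ z) := by
      refine h1.trans ?_
      refine mul_le_mul_of_nonneg_left (h2.trans ?_) (by positivity)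
      exact mul_le_mul_of_nonneg_left h3 hC0.le
    rw [Real.rpow_sub_one hL.ne', mul_div_assoc', le_div_iff₀ hL]
    refine h4.trans ?_
    have h5 : 0 ≤ (1 + Real.log x) ^ z := by positivity
    have h6 : 0 ≤ 3 * (x : ℝ) * (1 + Real.log x) ^ z := by positivity
    nlinarith

end Pool.Agent.V11205.ME
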