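import Mathlib
import Pool.Agent.V11205.ME1

/-!
# Small multiplicative energy, part 2: the weighted energy
-/

namespace Pool.Agent.V11205.ME

open Finset

/-- The quadruples `((a, b), (c, d))` with `a, c ∈ B`, `1 ≤ b, d ≤ N` and `a b = c d`. -/
def quads (B : Finset ℕ) (N : ℕ) : Finset ((ℕ × ℕ) × (ℕ × ℕ)) :=
  ((B ×ˢ Icc 1 N) ×ˢ (B ×ˢ Icc 1 N)).filter (fun q => q.1.1 * q.1.2 = q.2.1 * q.2.2)

/-- parametrisation of the quadruples -/
def par (q : (ℕ × ℕ) × (ℕ × ℕ)) : Σ _ : ℕ × ℕ, ℕ × ℕ :=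
  ⟨(q.1.1 / Nat.gcd q.1.1 q.2.1, q.2.1 / Nat.gcd q.1.1 q.2.1),
    (Nat.gcd q.1.1 q.2.1, q.1.2 / (q.2.1 / Nat.gcd q.1.1 q.2.1))⟩

lemma par_spec {a b c d : ℕ} (ha : 1 ≤ a) (hb : 1 ≤ b) (hc : 1 ≤ c)
    (h : a * b = c * d) : ∃ g k a' c' : ℕ, 1 ≤ g ∧ 1 ≤ k ∧ 1 ≤ a' ∧ 1 ≤ c' ∧ a = g * a' ∧ c = g * c' ∧
      b = c' * k ∧ d = a' * k ∧ Nat.gcd a c = g ∧ a / g = a' ∧ c / g = c' ∧ b / c' = k := by
  obtain ⟨a', c', hcop, ha', hc'⟩ := Nat.exists_coprime a c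
  have hg : 0 < Nat.gcd a c := Nat.gcd_pos_of_pos_left _ ha
  set g := Nat.gcd a c with hgdef
  have ha1 : 1 ≤ a' := by
    rcases Nat.eq_zero_or_pos a' with h0 | h0
    · rw [h0] at ha'; omega
    · exact h0
  have hc1 : 1 ≤ c' := by
    rcases Nat.eq_zero_or_pos c' with h0 | h0
    · rw [h0] at hc'; omega
    · exact h0
  have h2 : a' * b = c' * d := by
    have h3 : g * (a' * b) = g * (c' * d) := by
      calc g * (a' * b) = (a' * g) * b := by ring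
        _ = a * b := by rw [← ha']
        _ = c * d := h
        _ = (c' * g) * d := by rw [← hc']
        _ = g * (c' * d) := by ring
    exact Nat.eq_of_mul_eq_mul_left hg h3
  have h4 : c' ∣ b := by
    have : c' ∣ a' * b := ⟨d, h2⟩
    exact hcop.symm.dvd_of_dvd_mul_left this
  obtain ⟨k, hk⟩ := h4
  have hd : d = a' * k := by
    rw [hk] at h2
    have : c' * d = c' * (a' * k) := by rw [← h2]; ring
    exact Nat.eq_of_mul_eq_mul_left hc1 this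
  have hk1 : 1 ≤ k := by
    rcases Nat.eq_zero_or_pos k with h0 | h0
    · rw [h0] at hk; omega
    · exact h0
  refine ⟨g, k, a', c', hg, hk1, ha1, hc1, by rw [mul_comm]; exact ha', by rw [mul_comm]; exact hc',
    hk, hd, rfl, ?_, ?_, ?_⟩
  · rw [ha']; exact Nat.mul_div_cancel _ hg
  · rw [hc']; exact Nat.mul_div_cancel _ hg
  · rw [hk]; exact Nat.mul_div_cancel_left _ hc1

/-- The weighted energy is bounded by a sum over the coprime parts. -/
lemma energy_le_sum {z : ℝ} (hz : 0 ≤ z) (N : ℕ) :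
    ∑ q ∈ quads (Icc 1 N) N, wt z q.1.1 * wt z q.2.1 ≤
      ∑ p ∈ Icc 1 N ×ˢ Icc 1 N, wt z p.1 * wt z p.2 *
        ((N / max p.1 p.2 : ℕ) * FF (z ^ 2) (N / max p.1 p.2)) := by
  classical
  set S : Finset (Σ _ : ℕ × ℕ, ℕ × ℕ) := (Icc 1 N ×ˢ Icc 1 N).sigma
    (fun p => Icc 1 (N / max p.1 p.2) ×ˢ Icc 1 (N / max p.1 p.2)) with hS
  set w : (Σ _ : ℕ × ℕ, ℕ × ℕ) → ℝ := fun s => wt z s.1.1 * wt z s.1.2 * wt (z ^ 2) s.2.1 with hw
  have hmem : ∀ q ∈ quads (Icc 1 N) N, ∃ g k a' c' : ℕ, 1 ≤ g ∧ 1 ≤ k ∧ 1 ≤ a' ∧ 1 ≤ c' ∧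
      q = ((g * a', c' * k), (g * c', a' * k)) ∧ par q = ⟨(a', c'), (g, k)⟩ ∧
      g * a' ≤ N ∧ g * c' ≤ N ∧ c' * k ≤ N ∧ a' * k ≤ N := by
    rintro ⟨⟨a, b⟩, ⟨c, d⟩⟩ hq
    simp only [quads, mem_filter, mem_product, mem_Icc] at hq
    obtain ⟨⟨⟨⟨ha1, ha2⟩, hb1, hb2⟩, ⟨hc1, hc2⟩, hd1, hd2⟩, h⟩ := hq
    obtain ⟨g, k, a', c', hg, hk, ha', hc', e1, e2, e3, e4, e5, e6, e7, e8⟩ := par_spec ha1 hb1 hc1 h
    refine ⟨g, k, a', c', hg, hk, ha', hc', ?_, ?_, ?_, ?_, ?_, ?_⟩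
    · rw [e1, e2, e3, e4]
    · simp only [par]
      rw [e5, e6, e7, e8]
    · rw [← e1]; exact ha2
    · rw [← e2]; exact hc2
    · rw [← e3]; exact hb2
    · rw [← e4]; exact hd2
  have hinj : Set.InjOn par (quads (Icc 1 N) N : Set ((ℕ × ℕ) × (ℕ × ℕ))) := by
    intro q hq q' hq' hqq
    obtain ⟨g, k, a', c', _, _, _, _, e1, e2, _⟩ := hmem q hq
    obtain ⟨g1, k1, a1, c1, _, _, _, _, e3, e4, _⟩ := hmem q' hq'
    rw [e2, e4] at hqq
    simp only [Sigma.mk.injEq, Prod.mk.injEq, heq_eq_eq] at hqq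
    obtain ⟨⟨h1, h2⟩, h3, h4⟩ := hqq
    rw [e1, e3, h1, h2, h3, h4]
  have himg : (quads (Icc 1 N) N).image par ⊆ S := by
    intro s hs
    rw [mem_image] at hs
    obtain ⟨q, hq, rfl⟩ := hs
    obtain ⟨g, k, a', c', hg, hk, ha, hc, e1, e2, b1, b2, b3, b4⟩ := hmem q hq
    rw [e2, hS, mem_sigma]
    simp only [mem_product, mem_Icc]
    have hmax : 0 < max a' c' := lt_of_lt_of_le ha (le_max_left _ _)
    refine ⟨⟨⟨ha, ?_⟩, hc, ?_⟩, ⟨hg, ?_⟩, hk, ?_⟩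
    · exact (Nat.le_mul_of_pos_left a' hg).trans b1
    · exact (Nat.le_mul_of_pos_left c' hg).trans b2
    · rw [Nat.le_div_iff_mul_le hmax]
      rcases max_choice a' c' with h | h <;> rw [h] <;> assumption
    · rw [Nat.le_div_iff_mul_le hmax]
      rcases max_choice a' c' with h | h <;> rw [h, mul_comm] <;> assumption
  have h1 : ∑ q ∈ quads (Icc 1 N) N, wt z q.1.1 * wt z q.2.1 = ∑ s ∈ (quads (Icc 1 N) N).image par, w s := by
    rw [Finset.sum_image hinj]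
    refine Finset.sum_congr rfl fun q hq => ?_
    obtain ⟨g, k, a', c', hg, hk, ha, hc, e1, e2, _⟩ := hmem q hq
    rw [e2, e1]
    simp only [hw]
    rw [wt_mul z (by omega) (by omega), wt_mul z (by omega) (by omega)]
    have : wt (z ^ 2) g = wt z g * wt z g := by
      simp only [wt]; rw [← pow_mul, ← pow_add]; congr 1; ring
    rw [this]; ring
  have hz2 : 0 ≤ z ^ 2 := by positivity
  rw [h1]
  refine (Finset.sum_le_sum_of_subset_of_nonneg himg fun s _ _ => ?_).trans ?_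
  · simp only [hw]
    exact mul_nonneg (mul_nonneg (wt_nonneg hz _) (wt_nonneg hz _)) (wt_nonneg hz2 _)
  · rw [hS, Finset.sum_sigma]
    refine le_of_eq (Finset.sum_congr rfl fun p hp => ?_)
    simp only [hw]
    rw [Finset.sum_product]
    simp only [Finset.sum_const, Nat.card_Icc, Nat.add_sub_cancel, nsmul_eq_mul]
    rw [← Finset.mul_sum, ← Finset.mul_sum, FF]
    ring

/-- Splitting according to which of the two coprime parts is larger. -/
lemma energy_le_sum' {z : ℝ} (hz : 0 ≤ z) (N : ℕ) :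
    ∑ q ∈ quads (Icc 1 N) N, wt z q.1.1 * wt z q.2.1 ≤
      2 * ∑ m ∈ Icc 1 N, wt z m * FF z m * ((N / m : ℕ) * FF (z ^ 2) (N / m)) := by
  refine (energy_le_sum hz N).trans ?_
  set H : ℕ → ℝ := fun m => ((N / m : ℕ) * FF (z ^ 2) (N / m)) with hH
  have hH0 : ∀ m, 0 ≤ H m := fun m => mul_nonneg (Nat.cast_nonneg _) (FF_nonneg (by positivity) _)
  have h1 : ∀ p ∈ Icc 1 N ×ˢ Icc 1 N, wt z p.1 * wt z p.2 * H (max p.1 p.2) ≤
      (if p.2 ≤ p.1 then wt z p.1 * wt z p.2 * H p.1 else 0) +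
      (if p.1 ≤ p.2 then wt z p.2 * wt z p.1 * H p.2 else 0) := by
    intro p _
    have h2 : 0 ≤ wt z p.1 * wt z p.2 := mul_nonneg (wt_nonneg hz _) (wt_nonneg hz _)
    rcases le_total p.1 p.2 with h | h
    · rw [max_eq_right h, if_pos h]
      have : 0 ≤ (if p.2 ≤ p.1 then wt z p.1 * wt z p.2 * H p.1 else 0) := by
        split_ifs
        · exact mul_nonneg h2 (hH0 _)
        · exact le_rfl
      rw [mul_comm (wt z p.2)]
      linarith
    · rw [max_eq_left h, if_pos h]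
      have : 0 ≤ (if p.1 ≤ p.2 then wt z p.2 * wt z p.1 * H p.2 else 0) := by
        split_ifs
        · exact mul_nonneg (by rw [mul_comm]; exact h2) (hH0 _)
        · exact le_rfl
      linarith
  refine (Finset.sum_le_sum h1).trans ?_
  have key : ∀ m ∈ Icc 1 N, ∑ l ∈ Icc 1 N, (if l ≤ m then wt z m * wt z l * H m else 0)
      = wt z m * FF z m * H m := by
    intro m hm
    rw [mem_Icc] at hm
    rw [← Finset.sum_filter]
    have : (Icc 1 N).filter (fun l => l ≤ m) = Icc 1 m := by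
      ext l; simp only [mem_filter, mem_Icc]; constructor
      · rintro ⟨⟨h, _⟩, h'⟩; exact ⟨h, h'⟩
      · rintro ⟨h, h'⟩; exact ⟨⟨h, by omega⟩, h'⟩
    rw [this, FF, Finset.mul_sum, Finset.sum_mul]
  rw [Finset.sum_add_distrib, Finset.sum_product, Finset.sum_product_right, two_mul]
  refine add_le_add (le_of_eq (Finset.sum_congr rfl key)) (le_of_eq (Finset.sum_congr rfl key))

end Pool.Agent.V11205.ME
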