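import Mathlib
import Pool.Agent.V11205.ME2

/-!
# Small multiplicative energy, part 3: the dyadic sum
-/

namespace Pool.Agent.V11205.ME

open Finset

/-- the elementary inequality behind the dyadic sum -/
lemma conv_ineq {a b : ℝ} (ha : 1 ≤ a) (hb : 1 ≤ b) :
    a ^ (-1 : ℝ) * b ^ (-(3 / 4) : ℝ) ≤ ((a + b) / 2) ^ (-(3 / 4) : ℝ) * (a⁻¹ + b⁻¹) := by
  have ha0 : 0 < a := by linarith
  have hb0 : 0 < b := by linarith
  have hai : 0 < a⁻¹ := inv_pos.2 ha0
  have hbi : 0 < b⁻¹ := inv_pos.2 hb0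
  rcases le_total a b with h | h
  · have h1 : b ^ (-(3 / 4) : ℝ) ≤ ((a + b) / 2) ^ (-(3 / 4) : ℝ) :=
      Real.rpow_le_rpow_of_nonpos (by linarith) (by linarith) (by norm_num)
    have h2 : 0 ≤ ((a + b) / 2) ^ (-(3 / 4) : ℝ) := by positivity
    rw [Real.rpow_neg_one]
    calc a⁻¹ * b ^ (-(3 / 4) : ℝ) ≤ a⁻¹ * ((a + b) / 2) ^ (-(3 / 4) : ℝ) :=
          mul_le_mul_of_nonneg_left h1 hai.le
      _ ≤ _ := by nlinarith
  · have h1 : a ^ (-(3 / 4) : ℝ) ≤ ((a + b) / 2) ^ (-(3 / 4) : ℝ) :=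
      Real.rpow_le_rpow_of_nonpos (by linarith) (by linarith) (by norm_num)
    have h2 : 0 ≤ ((a + b) / 2) ^ (-(3 / 4) : ℝ) := by positivity
    have h3 : a ^ (-(1 / 4) : ℝ) ≤ b ^ (-(1 / 4) : ℝ) :=
      Real.rpow_le_rpow_of_nonpos hb0 h (by norm_num)
    have h4 : a ^ (-1 : ℝ) = a ^ (-(3 / 4) : ℝ) * a ^ (-(1 / 4) : ℝ) := by
      rw [← Real.rpow_add ha0]; norm_num
    have h5 : b⁻¹ = b ^ (-(1 / 4) : ℝ) * b ^ (-(3 / 4) : ℝ) := by
      rw [← Real.rpow_add hb0, ← Real.rpow_neg_one]; norm_num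
    have h6 : 0 ≤ b ^ (-(3 / 4) : ℝ) := by positivity
    have h7 : 0 ≤ a ^ (-(3 / 4) : ℝ) := by positivity
    have h8 : 0 ≤ a ^ (-(1 / 4) : ℝ) := by positivity
    have h9 : 0 ≤ b ^ (-(1 / 4) : ℝ) := by positivity
    calc a ^ (-1 : ℝ) * b ^ (-(3 / 4) : ℝ)
        = a ^ (-(3 / 4) : ℝ) * (a ^ (-(1 / 4) : ℝ) * b ^ (-(3 / 4) : ℝ)) := by rw [h4]; ring
      _ ≤ ((a + b) / 2) ^ (-(3 / 4) : ℝ) * (b ^ (-(1 / 4) : ℝ) * b ^ (-(3 / 4) : ℝ)) := by
          gcongr
      _ = ((a + b) / 2) ^ (-(3 / 4) : ℝ) * b⁻¹ := by rw [← h5]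
      _ ≤ _ := by nlinarith

lemma sum_inv_range (n : ℕ) : ∑ j ∈ range (n + 1), ((1 : ℝ) + j)⁻¹ ≤ 1 + Real.log (n + 1) := by
  have h := harmonic_le_one_add_log (n + 1)
  have h2 : ((harmonic (n + 1) : ℚ) : ℝ) = ∑ j ∈ range (n + 1), ((1 : ℝ) + j)⁻¹ := by
    simp only [harmonic]
    push_cast
    refine Finset.sum_congr rfl fun i _ => ?_
    rw [add_comm]
  rw [← h2]
  push_cast at h
  exact h

/-- the dyadic convolution sum -/
lemma sum_conv (J : ℕ) : ∑ j ∈ range (J + 1), ((1 : ℝ) + j) ^ (-1 : ℝ) * ((1 : ℝ) + (J - j : ℕ)) ^ (-(3 / 4) : ℝ)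
    ≤ 2 * (((J : ℝ) + 2) / 2) ^ (-(3 / 4) : ℝ) * (1 + Real.log (J + 1)) := by
  have h1 : ∀ j ∈ range (J + 1), ((1 : ℝ) + j) ^ (-1 : ℝ) * ((1 : ℝ) + (J - j : ℕ)) ^ (-(3 / 4) : ℝ) ≤
      (((J : ℝ) + 2) / 2) ^ (-(3 / 4) : ℝ) * (((1 : ℝ) + j)⁻¹ + ((1 : ℝ) + (J - j : ℕ))⁻¹) := by
    intro j hj
    rw [mem_range] at hj
    have h2 := conv_ineq (a := (1 : ℝ) + j) (b := (1 : ℝ) + (J - j : ℕ)) (by simp) (by simp)
    have h3 : ((1 : ℝ) + j) + ((1 : ℝ) + (J - j : ℕ)) = J + 2 := by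
      have : ((j : ℝ)) + ((J - j : ℕ) : ℝ) = J := by exact_mod_cast (by omega : j + (J - j) = J)
      linarith
    rw [h3] at h2
    exact h2
  refine (Finset.sum_le_sum h1).trans ?_
  rw [← Finset.mul_sum, Finset.sum_add_distrib]
  have h4 : ∑ j ∈ range (J + 1), ((1 : ℝ) + (J - j : ℕ))⁻¹ = ∑ j ∈ range (J + 1), ((1 : ℝ) + j)⁻¹ := by
    have := Finset.sum_range_reflect (fun j : ℕ => ((1 : ℝ) + j)⁻¹) (J + 1)
    rw [← this]
    refine Finset.sum_congr rfl fun j hj => ?_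
    simp
  rw [h4]
  have h5 := sum_inv_range J
  have h6 : 0 ≤ (((J : ℝ) + 2) / 2) ^ (-(3 / 4) : ℝ) := by positivity
  nlinarith

lemma one_add_log_ge_of_log2 {m : ℕ} (hm : 1 ≤ m) : ((1 : ℝ) + Nat.log 2 m) / 2 ≤ 1 + Real.log m := by
  have h1 : 2 ^ Nat.log 2 m ≤ m := Nat.pow_log_le_self 2 (by omega)
  have h2 : (Nat.log 2 m : ℝ) * Real.log 2 ≤ Real.log m := by
    rw [← Real.log_pow]
    exact Real.log_le_log (by positivity) (by exact_mod_cast h1)
  have h3 := Real.log_two_gt_d9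
  have h4 : (0 : ℝ) ≤ Nat.log 2 m := Nat.cast_nonneg _
  nlinarith

/-- The weighted energy is `≪ N² (log N)^(-3/4) log log N`. -/
lemma weighted_energy : ∃ C : ℝ, 0 < C ∧ ∀ N : ℕ, 3 ≤ N →
    ∑ q ∈ quads (Icc 1 N) N, wt (1 / 2) q.1.1 * wt (1 / 2) q.2.1 ≤
      C * N ^ 2 * Real.log N ^ (-(3 / 4) : ℝ) * (3 + Real.log (Real.log N)) := by
  obtain ⟨C, hC0, hC⟩ := FF_le
  refine ⟨96 * C ^ 3, by positivity, fun N hN => ?_⟩
  refine (energy_le_sum' (by norm_num) N).trans ?_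
  set J := Nat.log 2 N with hJ
  have hmaps : ∀ m ∈ Icc 1 N, Nat.log 2 m ∈ range (J + 1) := by
    intro m hm
    rw [mem_Icc] at hm
    rw [mem_range, Nat.lt_succ_iff]
    exact Nat.log_mono_right hm.2
  rw [← Finset.sum_fiberwise_of_maps_to hmaps]
  have hN0 : (0 : ℝ) < N := by exact_mod_cast (by omega : 0 < N)
  have hfib : ∀ j ∈ range (J + 1), ∑ m ∈ (Icc 1 N).filter (fun m => Nat.log 2 m = j),
      wt (1 / 2) m * FF (1 / 2) m * ((N / m : ℕ) * FF ((1 / 2) ^ 2) (N / m)) ≤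
      12 * C ^ 3 * N ^ 2 * (((1 : ℝ) + j) ^ (-1 : ℝ) * ((1 : ℝ) + (J - j : ℕ)) ^ (-(3 / 4) : ℝ)) := by
    intro j hj
    rw [mem_range] at hj
    set A : ℝ := (((1 : ℝ) + j) / 2) ^ (-(1 / 2) : ℝ) with hA
    set Bb : ℝ := (((1 : ℝ) + (J - j : ℕ)) / 3) ^ (-(3 / 4) : ℝ) with hBb
    have hA0 : 0 ≤ A := by positivity
    have hB0 : 0 ≤ Bb := by positivity
    have hterm : ∀ m ∈ (Icc 1 N).filter (fun m => Nat.log 2 m = j),
        wt (1 / 2) m * FF (1 / 2) m * ((N / m : ℕ) * FF ((1 / 2) ^ 2) (N / m)) ≤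
        wt (1 / 2) m * (C ^ 2 * N ^ 2 / 2 ^ j * A * Bb) := by
      intro m hm
      rw [mem_filter, mem_Icc] at hm
      obtain ⟨⟨hm1, hm2⟩, hmj⟩ := hm
      have hm0 : (0 : ℝ) < m := by exact_mod_cast hm1
      have hF : FF (1 / 2) m ≤ C * m * A := by
        refine (hC (1 / 2) (by norm_num) (by norm_num) m).trans ?_
        refine mul_le_mul_of_nonneg_left ?_ (by positivity)
        rw [hA, ← hmj]
        have h1 := one_add_log_ge_of_log2 hm1
        have : ((1 : ℝ) / 2 - 1) = -(1 / 2) := by norm_num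
        rw [this]
        exact Real.rpow_le_rpow_of_nonpos (by positivity) h1 (by norm_num)
      have hNm : 1 ≤ N / m := Nat.div_pos hm2 (by omega)
      have hG : FF ((1 / 2) ^ 2) (N / m) ≤ C * (N / m : ℕ) * Bb := by
        refine (hC ((1 / 2) ^ 2) (by norm_num) (by norm_num) (N / m)).trans ?_
        refine mul_le_mul_of_nonneg_left ?_ (by positivity)
        have : (((1 : ℝ) / 2) ^ 2 - 1) = -(3 / 4) := by norm_num
        rw [this, hBb]
        refine Real.rpow_le_rpow_of_nonpos (by positivity) ?_ (by norm_num)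
        -- 1 + log (N/m) ≥ (1 + (J - j)) / 3
        rcases Nat.lt_or_ge j J with hjJ | hjJ
        · have h2 : 2 ^ (J - j - 1) ≤ N / m := by
            rw [Nat.le_div_iff_mul_le (by omega)]
            have h3 : m < 2 ^ (j + 1) := by rw [← hmj]; exact Nat.lt_pow_succ_log_self (by norm_num) m
            have h4 : 2 ^ J ≤ N := Nat.pow_log_le_self 2 (by omega)
            calc 2 ^ (J - j - 1) * m ≤ 2 ^ (J - j - 1) * 2 ^ (j + 1) := Nat.mul_le_mul_left _ h3.le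
              _ = 2 ^ J := by rw [← pow_add]; congr 1; omega
              _ ≤ N := h4
          have h5 : ((J - j - 1 : ℕ) : ℝ) * Real.log 2 ≤ Real.log (N / m : ℕ) := by
            rw [← Real.log_pow]
            exact Real.log_le_log (by positivity) (by exact_mod_cast h2)
          have h6 : ((J - j : ℕ) : ℝ) = (J - j - 1 : ℕ) + 1 := by
            exact_mod_cast (by omega : J - j = (J - j - 1) + 1)
          rw [h6]
          have h7 := Real.log_two_gt_d9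
          have h8 : (0 : ℝ) ≤ (J - j - 1 : ℕ) := Nat.cast_nonneg _
          nlinarith
        · have h2 : J - j = 0 := by omega
          rw [h2]
          have h3 : 0 ≤ Real.log (N / m : ℕ) := Real.log_natCast_nonneg _
          norm_num
          linarith
      have hNm' : ((N / m : ℕ) : ℝ) ≤ N / m := Nat.cast_div_le
      have h2j : (2 : ℝ) ^ j ≤ m := by
        rw [← hmj]; exact_mod_cast Nat.pow_log_le_self 2 (by omega)
      rw [mul_assoc]
      refine mul_le_mul_of_nonneg_left ?_ (wt_nonneg (by norm_num) _)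
      calc FF (1 / 2) m * ((N / m : ℕ) * FF ((1 / 2) ^ 2) (N / m))
          ≤ (C * m * A) * ((N / m : ℝ) * (C * (N / m : ℝ) * Bb)) := by
            have hh : FF ((1 / 2) ^ 2) (N / m) ≤ C * (N / m : ℝ) * Bb := hG.trans (by gcongr)
            have h0 : 0 ≤ FF ((1 / 2) ^ 2) (N / m) := FF_nonneg (by norm_num) _
            gcongr
        _ = C ^ 2 * N ^ 2 / m * A * Bb := by field_simp
        _ ≤ C ^ 2 * N ^ 2 / 2 ^ j * A * Bb := by gcongr
    refine (Finset.sum_le_sum hterm).trans ?_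
    rw [← Finset.sum_mul]
    have hsum : ∑ m ∈ (Icc 1 N).filter (fun m => Nat.log 2 m = j), wt (1 / 2) m
        ≤ C * 2 ^ (j + 1) * A := by
      have h1 : (Icc 1 N).filter (fun m => Nat.log 2 m = j) ⊆ Icc 1 (2 ^ (j + 1)) := by
        intro m hm
        rw [mem_filter, mem_Icc] at hm
        rw [mem_Icc]
        refine ⟨hm.1.1, ?_⟩
        rw [← hm.2]
        exact (Nat.lt_pow_succ_log_self (by norm_num) m).le
      refine (Finset.sum_le_sum_of_subset_of_nonneg h1 fun m _ _ => wt_nonneg (by norm_num) m).trans ?_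
      refine (hC (1 / 2) (by norm_num) (by norm_num) (2 ^ (j + 1))).trans ?_
      push_cast
      refine mul_le_mul_of_nonneg_left ?_ (by positivity)
      have : ((1 : ℝ) / 2 - 1) = -(1 / 2) := by norm_num
      rw [this, hA]
      refine Real.rpow_le_rpow_of_nonpos (by positivity) ?_ (by norm_num)
      rw [Real.log_pow]
      push_cast
      have h7 := Real.log_two_gt_d9
      have h8 : (0 : ℝ) ≤ j := Nat.cast_nonneg _
      nlinarith
    have h0 : 0 ≤ C ^ 2 * (N : ℝ) ^ 2 / 2 ^ j * A * Bb := by positivity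
    refine (mul_le_mul_of_nonneg_right hsum h0).trans ?_
    have hAA : A * A = 2 * ((1 : ℝ) + j) ^ (-1 : ℝ) := by
      rw [hA, ← Real.rpow_add (by positivity)]
      norm_num
      rw [Real.rpow_neg_one, Real.rpow_neg_one, inv_div]
      ring
    have hBB : Bb ≤ 3 * ((1 : ℝ) + (J - j : ℕ)) ^ (-(3 / 4) : ℝ) := by
      rw [hBb, Real.div_rpow (by positivity) (by norm_num)]
      rw [div_eq_mul_inv, mul_comm]
      refine mul_le_mul_of_nonneg_right ?_ (by positivity)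
      rw [← Real.rpow_neg (by norm_num), neg_neg]
      calc (3 : ℝ) ^ (3 / 4 : ℝ) ≤ (3 : ℝ) ^ (1 : ℝ) :=
            Real.rpow_le_rpow_of_exponent_le (by norm_num) (by norm_num)
        _ = 3 := Real.rpow_one 3
    calc C * 2 ^ (j + 1) * A * (C ^ 2 * (N : ℝ) ^ 2 / 2 ^ j * A * Bb)
        = 2 * C ^ 3 * N ^ 2 * (A * A) * Bb := by
          rw [pow_succ]; field_simp
      _ = 4 * C ^ 3 * N ^ 2 * ((1 : ℝ) + j) ^ (-1 : ℝ) * Bb := by rw [hAA]; ring
      _ ≤ 4 * C ^ 3 * N ^ 2 * ((1 : ℝ) + j) ^ (-1 : ℝ) *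
          (3 * ((1 : ℝ) + (J - j : ℕ)) ^ (-(3 / 4) : ℝ)) := by gcongr
      _ = _ := by ring
  have h1 := Finset.sum_le_sum hfib
  rw [← Finset.mul_sum] at h1
  have h2 := sum_conv J
  have hJ1 : Real.log N ≤ J + 1 := by
    have h3 : N < 2 ^ (J + 1) := Nat.lt_pow_succ_log_self (by norm_num) N
    have h4 : Real.log N ≤ ((J + 1 : ℕ) : ℝ) * Real.log 2 := by
      rw [← Real.log_pow]
      exact Real.log_le_log hN0 (by exact_mod_cast h3.le)
    have h5 := Real.log_two_lt_d9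
    push_cast at h4
    have h6 : (0 : ℝ) ≤ J + 1 := by positivity
    nlinarith
  have hlogN : 1 < Real.log N := by
    have h3 : Real.exp 1 < 3 := by have := Real.exp_one_lt_d9; linarith
    have h4 : (3 : ℝ) ≤ N := by exact_mod_cast hN
    rw [Real.lt_log_iff_exp_lt (by linarith)]
    linarith
  have hJ2 : (J : ℝ) + 1 ≤ 3 * Real.log N := by
    have h3 : 2 ^ J ≤ N := Nat.pow_log_le_self 2 (by omega)
    have h4 : (J : ℝ) * Real.log 2 ≤ Real.log N := by
      rw [← Real.log_pow]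
      exact Real.log_le_log (by positivity) (by exact_mod_cast h3)
    have h5 := Real.log_two_gt_d9
    have h6 : (0 : ℝ) ≤ J := by positivity
    nlinarith
  have hlog : 1 + Real.log ((J : ℝ) + 1) ≤ 3 + Real.log (Real.log N) := by
    have h3 : Real.log ((J : ℝ) + 1) ≤ Real.log (3 * Real.log N) :=
      Real.log_le_log (by positivity) hJ2
    rw [Real.log_mul (by norm_num) (by linarith)] at h3
    have h4 : Real.log 3 < 2 := by
      rw [Real.log_lt_iff_lt_exp (by norm_num)]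
      have := Real.add_one_lt_exp (x := (2 : ℝ)) (by norm_num)
      linarith
    linarith
  have hpow : (((J : ℝ) + 2) / 2) ^ (-(3 / 4) : ℝ) ≤ 2 * Real.log N ^ (-(3 / 4) : ℝ) := by
    have h3 : (((J : ℝ) + 2) / 2) ^ (-(3 / 4) : ℝ) ≤ (Real.log N / 2) ^ (-(3 / 4) : ℝ) :=
      Real.rpow_le_rpow_of_nonpos (by linarith) (by linarith) (by norm_num)
    refine h3.trans ?_
    rw [Real.div_rpow (by linarith) (by norm_num), div_eq_mul_inv, mul_comm]
    refine mul_le_mul_of_nonneg_right ?_ (by positivity)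
    rw [← Real.rpow_neg (by norm_num), neg_neg]
    calc (2 : ℝ) ^ (3 / 4 : ℝ) ≤ (2 : ℝ) ^ (1 : ℝ) :=
          Real.rpow_le_rpow_of_exponent_le (by norm_num) (by norm_num)
      _ = 2 := Real.rpow_one 2
  have hll : 0 < Real.log (Real.log N) := Real.log_pos hlogN
  have hlJ : 0 ≤ Real.log ((J : ℝ) + 1) := Real.log_nonneg (by linarith)
  have h0 : 0 ≤ (((J : ℝ) + 2) / 2) ^ (-(3 / 4) : ℝ) := by positivity
  have h00 : 0 ≤ Real.log N ^ (-(3 / 4) : ℝ) := by positivity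
  calc _ ≤ 2 * (12 * C ^ 3 * N ^ 2 * (2 * (((J : ℝ) + 2) / 2) ^ (-(3 / 4) : ℝ) * (1 + Real.log (J + 1)))) := by
        refine mul_le_mul_of_nonneg_left (h1.trans ?_) (by norm_num)
        exact mul_le_mul_of_nonneg_left h2 (by positivity)
    _ ≤ 2 * (12 * C ^ 3 * N ^ 2 * (2 * (Real.log N ^ (-(3 / 4) : ℝ)) * (3 + Real.log (Real.log N)))) * 2 := by
        have h3 : 2 * (((J : ℝ) + 2) / 2) ^ (-(3 / 4) : ℝ) * (1 + Real.log (J + 1)) ≤
          2 * (2 * Real.log N ^ (-(3 / 4) : ℝ)) * (3 + Real.log (Real.log N)) := by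
          gcongr
        have h4 : 0 ≤ 12 * C ^ 3 * (N : ℝ) ^ 2 := by positivity
        have h5 := mul_le_mul_of_nonneg_left h3 h4
        linarith
    _ ≤ _ := by
        have : 0 ≤ C ^ 3 * (N : ℝ) ^ 2 * Real.log N ^ (-(3 / 4) : ℝ) * (3 + Real.log (Real.log N)) := by
          positivity
        nlinarith

end Pool.Agent.V11205.ME
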