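import Mathlib
import Pool.Agent.V11205.ME3

/-!
# Small multiplicative energy, part 4: integers with few prime factors
-/

namespace Pool.Agent.V11205.ME

open Finset

/-- Counting over products `n = p m` by the prime factor `p` of `n`. -/
lemma pairs_le (Q : Finset (ℕ × ℕ)) (T : Finset ℕ)
    (hQ : ∀ q ∈ Q, q.1.Prime ∧ 1 ≤ q.2 ∧ q.1 * q.2 ∈ T) (f : ℕ → ℕ → ℝ) (hf : ∀ p n, 0 ≤ f p n) :
    ∑ q ∈ Q, f q.1 (q.1 * q.2) ≤ ∑ n ∈ T, ∑ p ∈ n.primeFactors, f p n := by
  classical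
  set e : ℕ × ℕ → Σ _ : ℕ, ℕ := fun q => ⟨q.1 * q.2, q.1⟩ with he
  have hinj : Set.InjOn e (Q : Set (ℕ × ℕ)) := by
    rintro ⟨p, m⟩ hq ⟨p', m'⟩ hq' h
    simp only [he, Sigma.mk.injEq, heq_eq_eq] at h
    obtain ⟨h1, h2⟩ := h
    subst h2
    have hp := (hQ _ hq).1.pos
    rw [Nat.eq_of_mul_eq_mul_left hp h1]
  have h1 : ∑ q ∈ Q, f q.1 (q.1 * q.2) = ∑ s ∈ Q.image e, f s.2 s.1 := by
    rw [Finset.sum_image hinj]
  rw [h1, ← Finset.sum_sigma T (fun n => n.primeFactors) (fun s => f s.2 s.1)]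
  refine Finset.sum_le_sum_of_subset_of_nonneg ?_ fun s _ _ => hf _ _
  intro s hs
  rw [mem_image] at hs
  obtain ⟨q, hq, rfl⟩ := hs
  obtain ⟨hp, hm, hT⟩ := hQ q hq
  rw [mem_sigma]
  refine ⟨hT, ?_⟩
  simp only [he]
  rw [Nat.mem_primeFactors]
  exact ⟨hp, Dvd.intro _ rfl, Nat.mul_ne_zero hp.ne_zero (by omega)⟩

/-- integers up to `y ^ j` with exactly `j` prime factors -/
def MM (y j : ℕ) : Finset ℕ := (Icc 1 (y ^ j)).filter (fun m => ArithmeticFunction.cardFactors m = j)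

/-- sum of the reciprocals -/
noncomputable def RR (y j : ℕ) : ℝ := ∑ m ∈ MM y j, (1 : ℝ) / m

/-- sum of the reciprocals of the primes up to `y` -/
noncomputable def SS (y : ℕ) : ℝ := ∑ p ∈ (Icc 1 y).filter Nat.Prime, (1 : ℝ) / p

lemma card_primeFactors_le (n : ℕ) : n.primeFactors.card ≤ ArithmeticFunction.cardFactors n := by
  rw [ArithmeticFunction.cardFactors_apply, ← Nat.toFinset_factors]
  exact List.toFinset_card_le _

lemma SS_mul_RR_le (y j : ℕ) : SS y * RR y j ≤ (j + 1) * RR y (j + 1) := by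
  have h := pairs_le (((Icc 1 y).filter Nat.Prime) ×ˢ MM y j) (MM y (j + 1)) (by
    intro q hq
    rw [mem_product, mem_filter, mem_Icc, MM, mem_filter, mem_Icc] at hq
    obtain ⟨⟨⟨h1, h2⟩, h3⟩, ⟨h4, h5⟩, h6⟩ := hq
    refine ⟨h3, h4, ?_⟩
    rw [MM, mem_filter, mem_Icc]
    refine ⟨⟨Nat.mul_pos h3.pos h4, ?_⟩, ?_⟩
    · rw [pow_succ, mul_comm (y ^ j)]
      exact Nat.mul_le_mul h2 h5
    · rw [ArithmeticFunction.cardFactors_mul h3.ne_zero (by omega), h6,
        ArithmeticFunction.cardFactors_apply_prime h3, add_comm])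
    (fun _ n => 1 / (n : ℝ)) (fun _ n => by positivity)
  have h1 : ∑ q ∈ ((Icc 1 y).filter Nat.Prime) ×ˢ MM y j, (1 : ℝ) / ((q.1 * q.2 : ℕ) : ℝ) = SS y * RR y j := by
    rw [SS, RR, Finset.sum_mul_sum, ← Finset.sum_product']
    refine Finset.sum_congr rfl fun q _ => ?_
    push_cast
    rw [one_div_mul_one_div]
  rw [h1] at h
  refine h.trans ?_
  rw [RR, Finset.mul_sum]
  refine Finset.sum_le_sum fun n hn => ?_
  rw [MM, mem_filter] at hn
  rw [Finset.sum_const, nsmul_eq_mul]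
  refine mul_le_mul_of_nonneg_right ?_ (by positivity)
  have := card_primeFactors_le n
  rw [hn.2] at this
  exact_mod_cast this

lemma RR_ge (y j : ℕ) : SS y ^ j / j.factorial ≤ RR y j := by
  have hS : 0 ≤ SS y := Finset.sum_nonneg fun p _ => by positivity
  induction j with
  | zero =>
    simp only [pow_zero, Nat.factorial_zero, Nat.cast_one, div_one]
    rw [RR, MM]
    have : (Icc 1 (y ^ 0)).filter (fun m => ArithmeticFunction.cardFactors m = 0) = {1} := by
      ext m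
      simp only [pow_zero, Icc_self, mem_filter, mem_singleton]
      constructor
      · rintro ⟨h, _⟩; exact h
      · rintro rfl; exact ⟨rfl, by simp⟩
    rw [this]; simp
  | succ j ih =>
    have h := SS_mul_RR_le y j
    have h1 : SS y * (SS y ^ j / j.factorial) ≤ (j + 1) * RR y (j + 1) :=
      (mul_le_mul_of_nonneg_left ih hS).trans h
    rw [Nat.factorial_succ]
    push_cast
    have h2 : (0 : ℝ) < j + 1 := by positivity
    rw [div_le_iff₀ (by positivity)]
    have h3 : (0 : ℝ) < j.factorial := by positivity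
    rw [mul_div_assoc', div_le_iff₀ h3] at h1
    calc SS y ^ (j + 1) = SS y * SS y ^ j := by ring
      _ ≤ _ := h1
      _ = _ := by ring

/-- Chebyshev: `θ(n) ≥ n / 4` for large `n` -/
lemma theta_lower : ∃ n0 : ℕ, ∀ n : ℕ, n0 ≤ n → (n : ℝ) / 4 ≤ Chebyshev.theta n := by
  have h1 : ∀ᶠ x : ℝ in Filter.atTop, |Real.log x| ≤ (1 / 10) * |x ^ (1 / 2 : ℝ)| := by
    have := (isLittleO_log_rpow_atTop (r := 1 / 2) (by norm_num)).def (c := 1 / 10) (by norm_num)
    simpa [Real.norm_eq_abs] using this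
  obtain ⟨X, hX⟩ := Filter.eventually_atTop.1 h1
  refine ⟨⌈max X 100⌉₊, fun n hn => ?_⟩
  have hn1 : max X 100 ≤ n := (Nat.le_ceil _).trans (by exact_mod_cast hn)
  have hnX : X ≤ n := (le_max_left _ _).trans hn1
  have hn100 : (100 : ℝ) ≤ n := (le_max_right _ _).trans hn1
  have h2 := hX n hnX
  have h3 := hX (n + 1) (by linarith)
  rw [← Real.sqrt_eq_rpow, abs_of_nonneg (Real.sqrt_nonneg _)] at h2 h3
  have h4 := Chebyshev.theta_ge n
  have h5 : Real.log n ≤ 1 / 10 * √n := (le_abs_self _).trans h2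
  have h6 : Real.log ((n : ℝ) + 1) ≤ 1 / 10 * √((n : ℝ) + 1) := (le_abs_self _).trans h3
  have h7 : √(n : ℝ) * √n = n := Real.mul_self_sqrt (by linarith)
  have h8 : √((n : ℝ) + 1) ≤ n := by
    rw [Real.sqrt_le_left (by linarith)]
    nlinarith
  have h9 : 2 * √(n : ℝ) * Real.log n ≤ 1 / 5 * n := by
    have : √(n : ℝ) * Real.log n ≤ √n * (1 / 10 * √n) :=
      mul_le_mul_of_nonneg_left h5 (Real.sqrt_nonneg _)
    nlinarith
  have h10 := Real.log_two_gt_d9
  nlinarith

/-- the set of integers with at most `K` prime factors -/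
def few (N K : ℕ) : Finset ℕ := (Icc 1 N).filter (fun n => ArithmeticFunction.cardFactors n ≤ K)

lemma sum_log_primeFactors_le {n : ℕ} (hn : 1 ≤ n) : ∑ p ∈ n.primeFactors, Real.log p ≤ Real.log n := by
  rw [← Real.log_prod (fun p hp => by
    have := (Nat.prime_of_mem_primeFactors hp).pos
    positivity)]
  have h := Nat.le_of_dvd (by omega) (Nat.prod_primeFactors_dvd n)
  have h' : ∏ p ∈ n.primeFactors, (p : ℝ) ≤ n := by
    rw [← Nat.cast_prod]; exact_mod_cast h
  refine Real.log_le_log ?_ h'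
  exact Finset.prod_pos fun p hp => by
    have := (Nat.prime_of_mem_primeFactors hp).pos
    positivity

/-- Lower bound for the number of integers with few prime factors. -/
lemma few_card_ge : ∃ n0 : ℕ, ∀ N y j : ℕ, 1 ≤ N → n0 * y ^ j ≤ N →
    (N : ℝ) / 8 * RR y j ≤ (few N (j + 1)).card * Real.log N := by
  obtain ⟨n0, hn0⟩ := theta_lower
  refine ⟨max n0 1, fun N y j hN hy => ?_⟩
  have h1 : ∑ m ∈ MM y j, Chebyshev.theta ((N / m : ℕ) : ℝ) ≤ (few N (j + 1)).card * Real.log N := by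
    set Q : Finset (ℕ × ℕ) := ((Icc 1 N ×ˢ MM y j)).filter (fun q => q.1.Prime ∧ q.1 ≤ N / q.2) with hQdef
    have h := pairs_le Q (few N (j + 1)) (by
      intro q hq
      rw [hQdef, mem_filter, mem_product, MM, mem_filter, mem_Icc, mem_Icc] at hq
      obtain ⟨⟨⟨h1, h2⟩, ⟨h3, h4⟩, h5⟩, h6, h7⟩ := hq
      refine ⟨h6, h3, ?_⟩
      rw [few, mem_filter, mem_Icc]
      refine ⟨⟨Nat.mul_pos h6.pos h3, ?_⟩, ?_⟩
      · rwa [Nat.le_div_iff_mul_le (by omega)] at h7
      · rw [ArithmeticFunction.cardFactors_mul h6.ne_zero (by omega), h5,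
          ArithmeticFunction.cardFactors_apply_prime h6, add_comm])
      (fun p _ => Real.log p) (fun p _ => Real.log_natCast_nonneg p)
    have h2 : ∑ q ∈ Q, Real.log q.1 = ∑ m ∈ MM y j, Chebyshev.theta ((N / m : ℕ) : ℝ) := by
      rw [hQdef, Finset.sum_filter, Finset.sum_product_right]
      refine Finset.sum_congr rfl fun m hm => ?_
      rw [← Finset.sum_filter, Chebyshev.theta_eq_sum_Icc, Nat.floor_natCast]
      refine Finset.sum_congr ?_ fun _ _ => rfl
      ext p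
      simp only [mem_filter, mem_Icc]
      constructor
      · rintro ⟨⟨h3, h4⟩, h5, h6⟩; exact ⟨⟨by omega, h6⟩, h5⟩
      · rintro ⟨⟨h3, h4⟩, h5⟩; exact ⟨⟨h5.pos, h4.trans (Nat.div_le_self _ _)⟩, h5, h4⟩
    rw [h2] at h
    refine h.trans ?_
    have h3 : ∀ n ∈ few N (j + 1), ∑ p ∈ n.primeFactors, Real.log p ≤ Real.log N := by
      intro n hn
      rw [few, mem_filter, mem_Icc] at hn
      refine (sum_log_primeFactors_le hn.1.1).trans ?_
      exact Real.log_le_log (by exact_mod_cast hn.1.1) (by exact_mod_cast hn.1.2)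
    refine (Finset.sum_le_sum h3).trans ?_
    rw [Finset.sum_const, nsmul_eq_mul]
  refine le_trans ?_ h1
  rw [RR, Finset.mul_sum]
  refine Finset.sum_le_sum fun m hm => ?_
  rw [MM, mem_filter, mem_Icc] at hm
  obtain ⟨⟨hm1, hm2⟩, _⟩ := hm
  have hm0 : (0 : ℝ) < m := by exact_mod_cast hm1
  have h2 : max n0 1 ≤ N / m := by
    rw [Nat.le_div_iff_mul_le hm1]
    exact (Nat.mul_le_mul_left _ hm2).trans hy
  have h3 := hn0 (N / m) ((le_max_left _ _).trans h2)
  have h4 : (N : ℝ) / m / 2 ≤ ((N / m : ℕ) : ℝ) := by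
    have h5 : (N : ℝ) / m < (N / m : ℕ) + 1 := by
      rw [div_lt_iff₀ hm0]
      exact_mod_cast Nat.lt_mul_of_div_lt (Nat.lt_succ_self _) hm1
    have h6 : (1 : ℝ) ≤ (N / m : ℕ) := by exact_mod_cast (le_max_right _ _).trans h2
    linarith
  calc (N : ℝ) / 8 * (1 / m) = ((N : ℝ) / m / 2) / 4 := by ring
    _ ≤ ((N / m : ℕ) : ℝ) / 4 := by linarith
    _ ≤ _ := h3

/-- Stirling type upper bound: `log j! ≤ 1 + log j + j log j - j`. -/
lemma log_factorial_le {j : ℕ} (hj : 1 ≤ j) :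
    Real.log (j.factorial : ℝ) ≤ 1 + Real.log j + j * Real.log j - j := by
  induction j, hj using Nat.le_induction with
  | base => simp
  | succ j hj ih =>
    have hj0 : (0 : ℝ) < j := by exact_mod_cast hj
    rw [Nat.factorial_succ]
    push_cast
    rw [Real.log_mul (by positivity) (by positivity)]
    have h1 : 1 / ((j : ℝ) + 1) ≤ Real.log ((j : ℝ) + 1) - Real.log j := by
      have h2 : Real.log ((j : ℝ) / (j + 1)) ≤ j / (j + 1) - 1 :=
        Real.log_le_sub_one_of_pos (by positivity)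
      rw [Real.log_div hj0.ne' (by positivity)] at h2
      have h3 : (j : ℝ) / (j + 1) - 1 = - (1 / (j + 1)) := by field_simp; ring
      linarith
    have h4 : 1 ≤ ((j : ℝ) + 1) * (Real.log ((j : ℝ) + 1) - Real.log j) := by
      have := mul_le_mul_of_nonneg_left h1 (by positivity : (0 : ℝ) ≤ (j : ℝ) + 1)
      rwa [mul_one_div_cancel (by positivity)] at this
    nlinarith

end Pool.Agent.V11205.ME
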