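import Mathlib
import Pool.Agent.V11205.ME4

/-!
# Small multiplicative energy, part 5: the family
-/

namespace Pool.Agent.V11205.ME

open Finset Filter

lemma tendsto_loglog : Tendsto (fun N : ℕ => Real.log (Real.log N)) atTop atTop :=
  Real.tendsto_log_atTop.comp (Real.tendsto_log_atTop.comp tendsto_natCast_atTop_atTop)

/-- lower bound for the number of `n ≤ N` with at most `(1/2) log log N` prime factors -/
lemma few_lower (ε : ℝ) (hε : 0 < ε) (hε1 : ε ≤ 1) : ∃ N0 : ℕ, ∀ N : ℕ, N0 ≤ N →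
    (N : ℝ) * Real.log N ^ (-((1 - Real.log 2) / 2 + ε)) ≤
      (few N ⌊Real.log (Real.log N) / 2⌋₊).card := by
  obtain ⟨C, hC⟩ := Pool.Agent.Helper256.KM.mertens_inv
  obtain ⟨n0, hn0⟩ := few_card_ge
  have hC0 : 0 ≤ C := (abs_nonneg _).trans (hC 3 le_rfl)
  set δ : ℝ := 1 - Real.exp (-ε) with hδ
  have hδ0 : 0 < δ := by
    have : Real.exp (-ε) < Real.exp 0 := Real.exp_lt_exp.2 (by linarith)
    rw [Real.exp_zero] at this
    linarith
  -- conditions on L
  have hA : ∀ᶠ L : ℝ in atTop, Real.log L ≤ (min (δ / 2) (ε / 4)) * L := by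
    have := (Real.isLittleO_log_id_atTop).def (c := min (δ / 2) (ε / 4)) (by positivity)
    filter_upwards [this, eventually_ge_atTop 1] with L hL hL1
    simp only [Real.norm_eq_abs, id] at hL
    rw [abs_of_nonneg (by linarith : (0 : ℝ) ≤ L)] at hL
    exact (le_abs_self _).trans hL
  have hB : ∀ᶠ L : ℝ in atTop, max (max 10 (32 / ε)) (max (2 * (1 + C) / δ) (2 * (n0 + 1))) ≤ L :=
    eventually_ge_atTop _
  obtain ⟨N0, hN0⟩ := eventually_atTop.1 (tendsto_loglog.eventually (hA.and hB))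
  refine ⟨max N0 3, fun N hN => ?_⟩
  obtain ⟨h1, h2⟩ := hN0 N ((le_max_left _ _).trans hN)
  have hN3 : 3 ≤ N := (le_max_right _ _).trans hN
  set L := Real.log (Real.log N) with hL
  have hL10 : 10 ≤ L := ((le_max_left _ _).trans (le_max_left _ _)).trans h2
  have hLε : 32 / ε ≤ L := ((le_max_right _ _).trans (le_max_left _ _)).trans h2
  have hLδ : 2 * (1 + C) / δ ≤ L := ((le_max_left _ _).trans (le_max_right _ _)).trans h2
  have hLn : 2 * ((n0 : ℝ) + 1) ≤ L := ((le_max_right _ _).trans (le_max_right _ _)).trans h2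
  have hlogL1 : Real.log L ≤ δ / 2 * L := h1.trans (by gcongr; exact min_le_left _ _)
  have hlogL2 : Real.log L ≤ ε / 4 * L := h1.trans (by gcongr; exact min_le_right _ _)
  have hL0 : 0 < L := by linarith
  have hN0' : (0 : ℝ) < N := by exact_mod_cast (by omega : 0 < N)
  set lN := Real.log N with hlN
  have hlNpos : 0 < lN := Real.log_pos (by exact_mod_cast (by omega : 1 < N))
  have hexpL : Real.exp L = lN := Real.exp_log hlNpos
  have hexpN : Real.exp lN = N := Real.exp_log hN0'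
  have hlNL : L ^ 2 / 2 ≤ lN := by
    rw [← hexpL]
    have := Real.quadratic_le_exp_of_nonneg hL0.le
    linarith
  set x : ℝ := Real.exp (lN / L) with hx
  have hxpos : 0 < x := Real.exp_pos _
  have hx1 : 1 ≤ x := Real.one_le_exp (by positivity)
  set y : ℕ := ⌊x⌋₊ with hy
  have hyx : (y : ℝ) ≤ x := Nat.floor_le hxpos.le
  have hyx2 : x / 2 ≤ y := by
    have h3 : x < y + 1 := Nat.lt_floor_add_one x
    have h4 : (1 : ℝ) ≤ y := by exact_mod_cast Nat.le_floor (by exact_mod_cast hx1)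
    linarith
  have hy0 : (0 : ℝ) < y := by linarith
  have hl2 := Real.log_two_lt_d9
  have hl2' := Real.log_two_gt_d9
  have hlogy : lN / (2 * L) ≤ Real.log y := by
    have h3 : Real.log (x / 2) ≤ Real.log y := Real.log_le_log (by positivity) hyx2
    rw [Real.log_div hxpos.ne' (by norm_num), hx, Real.log_exp] at h3
    have h4 : 1 ≤ lN / (2 * L) := by
      rw [le_div_iff₀ (by positivity)]
      nlinarith
    have h5 : lN / L = 2 * (lN / (2 * L)) := by field_simp
    linarith
  have hlogy2 : L / 4 ≤ Real.log y := by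
    refine le_trans ?_ hlogy
    rw [le_div_iff₀ (by positivity)]
    nlinarith
  have hy3 : 3 ≤ y := by
    have h3 : Real.exp 2 ≤ y := by
      rw [← Real.le_log_iff_exp_le hy0]; linarith
    have h4 : (2 : ℝ) + 1 < Real.exp 2 := Real.add_one_lt_exp (by norm_num)
    have h5 : (3 : ℝ) < y := by linarith
    exact_mod_cast h5.le
  have hSS : L - Real.log (2 * L) - C ≤ SS y := by
    have h3 := (abs_le.1 (hC y hy3)).1
    have h4 : L - Real.log (2 * L) ≤ Real.log (Real.log y) := by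
      have h5 : Real.log (lN / (2 * L)) ≤ Real.log (Real.log y) :=
        Real.log_le_log (by positivity) hlogy
      rw [Real.log_div hlNpos.ne' (by positivity)] at h5
      exact h5
    rw [SS]
    linarith
  have hSS2 : (1 - δ) * L ≤ SS y := by
    have h3 : Real.log (2 * L) = Real.log 2 + Real.log L := Real.log_mul (by norm_num) hL0.ne'
    have h4 : 1 + C ≤ δ / 2 * L := by
      rw [div_le_iff₀ hδ0] at hLδ
      linarith
    rw [h3] at hSS
    nlinarith
  have h1δ : 1 - δ = Real.exp (-ε) := by rw [hδ]; ring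
  have h1δ0 : 0 < 1 - δ := by rw [h1δ]; exact Real.exp_pos _
  have hlog1δ : Real.log (1 - δ) = -ε := by rw [h1δ, Real.log_exp]
  set k : ℕ := ⌊L / 2⌋₊ with hk
  have hk1 : (k : ℝ) ≤ L / 2 := Nat.floor_le (by positivity)
  have hk2 : L / 2 < k + 1 := Nat.lt_floor_add_one _
  have hk5 : 2 ≤ k := Nat.le_floor (by push_cast; linarith)
  set j : ℕ := k - 1 with hj
  have hkj : k = j + 1 := by omega
  have hj1 : 1 ≤ j := by omega
  have hj1' : (1 : ℝ) ≤ j := by exact_mod_cast hj1
  have hkjR : (k : ℝ) = j + 1 := by exact_mod_cast hkj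
  have hjle : (j : ℝ) ≤ L / 2 := by linarith
  have hjge : L / 2 - 2 ≤ j := by linarith
  -- y ^ j ≤ √N
  have hyj : ((y : ℝ)) ^ j ≤ Real.exp (lN / 2) := by
    calc (y : ℝ) ^ j ≤ x ^ j := by gcongr
      _ = Real.exp (j * (lN / L)) := by rw [hx, ← Real.exp_nat_mul]
      _ ≤ Real.exp (lN / 2) := by
        rw [Real.exp_le_exp]
        calc (j : ℝ) * (lN / L) ≤ (L / 2) * (lN / L) := by gcongr
          _ = lN / 2 := by field_simp
  have hn0le : (n0 : ℝ) ≤ Real.exp (lN / 2) := by
    have h3 : lN / 2 + 1 ≤ Real.exp (lN / 2) := Real.add_one_le_exp _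
    nlinarith
  have hcond : n0 * y ^ j ≤ N := by
    have : ((n0 * y ^ j : ℕ) : ℝ) ≤ N := by
      push_cast
      calc (n0 : ℝ) * (y : ℝ) ^ j ≤ Real.exp (lN / 2) * Real.exp (lN / 2) := by gcongr
        _ = N := by rw [← Real.exp_add, add_halves, hexpN]
    exact_mod_cast this
  have h3 := hn0 N y j (by omega) hcond
  rw [← hkj] at h3
  have hSpos : 0 < SS y := lt_of_lt_of_le (by positivity) hSS2
  -- lower bound for RR
  have hRR : Real.exp ((L / 2 - 2) * (1 + Real.log 2 - ε) - 1 - Real.log L) ≤ RR y j := by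
    refine le_trans ?_ (RR_ge y j)
    rw [← Real.le_log_iff_exp_le (by positivity), Real.log_div (by positivity) (by positivity),
      Real.log_pow]
    have h4 := log_factorial_le hj1
    have h5 : Real.log 2 - ε + Real.log j ≤ Real.log (SS y) := by
      have h6 : 2 * (1 - δ) * j ≤ SS y := by
        refine le_trans ?_ hSS2
        nlinarith
      have h7 : Real.log (2 * (1 - δ) * j) ≤ Real.log (SS y) := Real.log_le_log (by positivity) h6
      rw [Real.log_mul (by positivity) (by positivity), Real.log_mul (by norm_num) h1δ0.ne',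
        hlog1δ] at h7
      linarith
    have h6 : (j : ℝ) * (Real.log 2 - ε + Real.log j) ≤ j * Real.log (SS y) :=
      mul_le_mul_of_nonneg_left h5 (by linarith)
    have h7 : Real.log j ≤ Real.log L := Real.log_le_log (by linarith) (by linarith)
    have h8 : (L / 2 - 2) * (1 + Real.log 2 - ε) ≤ j * (1 + Real.log 2 - ε) :=
      mul_le_mul_of_nonneg_right hjge (by linarith)
    have h9 : (j : ℝ) * (Real.log 2 - ε + Real.log j) =
        j * (1 + Real.log 2 - ε) - j + j * Real.log j := by ring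
    linarith
  have hfin : (N : ℝ) / 8 * Real.exp ((L / 2 - 2) * (1 + Real.log 2 - ε) - 1 - Real.log L) ≤
      (few N k).card * lN :=
    (mul_le_mul_of_nonneg_left hRR (by positivity)).trans h3
  -- conclude
  have hε32 : 32 ≤ ε * L := by
    rw [div_le_iff₀ hε] at hLε; linarith
  have hpow : lN ^ (-((1 - Real.log 2) / 2 + ε)) = Real.exp (-((1 - Real.log 2) / 2 + ε) * L) := by
    rw [Real.rpow_def_of_pos hlNpos, mul_comm]
  have h8 : Real.log 8 ≤ 3 := by
    have : Real.log 8 = 3 * Real.log 2 := by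
      rw [show (8 : ℝ) = 2 ^ 3 by norm_num, Real.log_pow]; norm_num
    linarith
  have h9 : lN * Real.exp (-((1 - Real.log 2) / 2 + ε) * L) ≤
      1 / 8 * Real.exp ((L / 2 - 2) * (1 + Real.log 2 - ε) - 1 - Real.log L) := by
    have h10 : (1 : ℝ) / 8 = Real.exp (- Real.log 8) := by
      rw [Real.exp_neg, Real.exp_log (by norm_num)]; norm_num
    rw [h10, ← hexpL, ← Real.exp_add, ← Real.exp_add, Real.exp_le_exp]
    have h12 : L + -((1 - Real.log 2) / 2 + ε) * L = L / 2 + L / 2 * Real.log 2 - ε * L := by ring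
    have h13 : (L / 2 - 2) * (1 + Real.log 2 - ε) =
      L / 2 + L / 2 * Real.log 2 - ε * L / 2 - 2 - 2 * Real.log 2 + 2 * ε := by ring
    rw [h12, h13]
    linarith
  rw [hpow]
  have h10 : (N : ℝ) * (lN * Real.exp (-((1 - Real.log 2) / 2 + ε) * L)) ≤ (few N k).card * lN := by
    refine (mul_le_mul_of_nonneg_left h9 hN0'.le).trans ?_
    calc (N : ℝ) * (1 / 8 * Real.exp ((L / 2 - 2) * (1 + Real.log 2 - ε) - 1 - Real.log L))
        = (N : ℝ) / 8 * Real.exp ((L / 2 - 2) * (1 + Real.log 2 - ε) - 1 - Real.log L) := by ring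
      _ ≤ _ := hfin
  have h11 : (N : ℝ) * Real.exp (-((1 - Real.log 2) / 2 + ε) * L) * lN ≤ (few N k).card * lN := by
    linarith
  exact le_of_mul_le_mul_right h11 hlNpos

/-- upper bound for the energy of any set of integers with few prime factors -/
lemma energy_upper : ∃ C : ℝ, 0 < C ∧ ∀ N : ℕ, 3 ≤ N → ∀ B ⊆ few N ⌊Real.log (Real.log N) / 2⌋₊,
    ((quads B N).card : ℝ) ≤
      C * N ^ 2 * Real.log N ^ (Real.log 2 - 3 / 4) * (3 + Real.log (Real.log N)) := by
  obtain ⟨C, hC0, hC⟩ := weighted_energy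
  refine ⟨C, hC0, fun N hN B hB => ?_⟩
  have h1 := hC N hN
  have hlogN : 1 < Real.log N := by
    have h3 : Real.exp 1 < 3 := by have := Real.exp_one_lt_d9; linarith
    have h4 : (3 : ℝ) ≤ N := by exact_mod_cast hN
    rw [Real.lt_log_iff_exp_lt (by linarith)]
    linarith
  have hlN0 : 0 < Real.log N := by linarith
  set L := Real.log (Real.log N) with hL
  have hL0 : 0 < L := Real.log_pos hlogN
  have hwt : ∀ n ∈ B, Real.exp (-(Real.log 2 * (L / 2))) ≤ wt (1 / 2) n := by
    intro n hn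
    have h2 := hB hn
    rw [few, mem_filter] at h2
    have h3 : ((ArithmeticFunction.cardFactors n : ℕ) : ℝ) ≤ L / 2 :=
      (Nat.le_floor_iff (by positivity)).1 h2.2
    have h4 : wt (1 / 2) n = Real.exp (-(Real.log 2 * (ArithmeticFunction.cardFactors n : ℕ))) := by
      rw [wt, one_div, inv_pow, Real.exp_neg, mul_comm, Real.exp_nat_mul, Real.exp_log (by norm_num)]
    rw [h4, Real.exp_le_exp]
    have h5 : 0 < Real.log 2 := Real.log_pos (by norm_num)
    nlinarith
  have hsub : quads B N ⊆ quads (Icc 1 N) N := by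
    intro q hq
    simp only [quads, mem_filter, mem_product] at hq ⊢
    have hBI : ∀ n ∈ B, n ∈ Icc 1 N := fun n hn => (mem_filter.1 (hB hn)).1
    exact ⟨⟨⟨hBI _ hq.1.1.1, hq.1.1.2⟩, hBI _ hq.1.2.1, hq.1.2.2⟩, hq.2⟩
  have h2 : ((quads B N).card : ℝ) ≤ Real.log N ^ (Real.log 2) *
      ∑ q ∈ quads (Icc 1 N) N, wt (1 / 2) q.1.1 * wt (1 / 2) q.2.1 := by
    have h3 : ((quads B N).card : ℝ) = ∑ q ∈ quads B N, (1 : ℝ) := by simp
    rw [h3, Finset.mul_sum]
    refine le_trans (Finset.sum_le_sum (g := fun q => Real.log N ^ (Real.log 2) *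
      (wt (1 / 2) q.1.1 * wt (1 / 2) q.2.1)) fun q hq => ?_) ?_
    · simp only [quads, mem_filter, mem_product] at hq
      have h4 := hwt _ hq.1.1.1
      have h5 := hwt _ hq.1.2.1
      have h6 : Real.log N ^ (Real.log 2) = Real.exp (Real.log 2 * L) := by
        rw [Real.rpow_def_of_pos hlN0, mul_comm]
      rw [h6]
      have h7 : (1 : ℝ) = Real.exp (Real.log 2 * L) * (Real.exp (-(Real.log 2 * (L / 2))) *
          Real.exp (-(Real.log 2 * (L / 2)))) := by
        rw [← Real.exp_add, ← Real.exp_add, ← Real.exp_zero]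
        congr 1; ring
      have h8 := wt_nonneg (z := 1 / 2) (by norm_num) q.1.1
      calc (1 : ℝ) = _ := h7
        _ ≤ _ := by
          refine mul_le_mul_of_nonneg_left ?_ (Real.exp_pos _).le
          exact mul_le_mul h4 h5 (Real.exp_pos _).le h8
    · refine Finset.sum_le_sum_of_subset_of_nonneg hsub fun q _ _ => ?_
      have h4 := wt_nonneg (z := 1 / 2) (by norm_num) q.1.1
      have h5 := wt_nonneg (z := 1 / 2) (by norm_num) q.2.1
      positivity
  refine h2.trans ((mul_le_mul_of_nonneg_left h1 (by positivity)).trans (le_of_eq ?_))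
  have h3 : Real.log N ^ (Real.log 2 - 3 / 4) = Real.log N ^ (Real.log 2) * Real.log N ^ (-(3 / 4) : ℝ) := by
    rw [← Real.rpow_add hlN0]; congr 1
  rw [h3]
  ring

/-- **Main theorem.** -/
theorem main (ε : ℝ) (hε : 0 < ε) : ∃ α β : ℝ, 0 ≤ α ∧ 0 ≤ β ∧ α + β < 1 / 4 + ε ∧
    ∃ B : ℕ → Finset ℕ, (∀ N, B N ⊆ Icc 1 N) ∧
      (∃ c C : ℝ, 0 < c ∧ ∃ N0 : ℕ, ∀ N : ℕ, N0 ≤ N →
        c * (N * Real.log N ^ (-α)) ≤ (B N).card ∧ ((B N).card : ℝ) ≤ C * (N * Real.log N ^ (-α))) ∧
      ∃ K : ℝ, ∃ N0 : ℕ, ∀ N : ℕ, N0 ≤ N →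
        ((quads (B N) N).card : ℝ) ≤ K * (N * (B N).card * Real.log N ^ β) := by
  set ε1 : ℝ := min (ε / 4) 1 with hε1
  have hε1pos : 0 < ε1 := by positivity
  have hε1le : ε1 ≤ 1 := min_le_right _ _
  have hε1le' : ε1 ≤ ε / 4 := min_le_left _ _
  have hl2 := Real.log_two_lt_d9
  have hl2' := Real.log_two_gt_d9
  set α : ℝ := (1 - Real.log 2) / 2 + ε1 with hα
  set β : ℝ := Real.log 2 / 2 - 1 / 4 + 2 * ε1 with hβ
  have hα0 : 0 < α := by rw [hα]; linarith
  obtain ⟨N1, hN1⟩ := few_lower ε1 hε1pos hε1le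
  obtain ⟨C, hC0, hC⟩ := energy_upper
  set N0 : ℕ := max N1 3 with hN0
  have hex : ∀ N : ℕ, ∃ B : Finset ℕ, B ⊆ Icc 1 N ∧ (N0 ≤ N →
      B ⊆ few N ⌊Real.log (Real.log N) / 2⌋₊ ∧ B.card = ⌈(N : ℝ) * Real.log N ^ (-α)⌉₊) := by
    intro N
    rcases Nat.lt_or_ge N N0 with h | h
    · exact ⟨∅, by simp, fun h' => absurd h' (by omega)⟩
    · have h1 := hN1 N ((le_max_left _ _).trans h)
      have h2 : ⌈(N : ℝ) * Real.log N ^ (-α)⌉₊ ≤ (few N ⌊Real.log (Real.log N) / 2⌋₊).card :=
        Nat.ceil_le.2 h1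
      obtain ⟨B, hB, hcard⟩ := Finset.exists_subset_card_eq h2
      exact ⟨B, hB.trans (filter_subset _ _), fun _ => ⟨hB, hcard⟩⟩
  choose B hB hB' using hex
  refine ⟨α, β, hα0.le, by rw [hβ]; linarith, by rw [hα, hβ]; linarith, B, hB, ?_, ?_⟩
  · -- density
    -- eventually N (log N)^(-α) ≥ 1
    have hlarge : ∀ᶠ N : ℕ in atTop, (1 : ℝ) ≤ N * Real.log N ^ (-α) := by
      have h1 : ∀ᶠ x : ℝ in atTop, |Real.log x| ≤ 1 * |x ^ (1 / (α + 1) : ℝ)| := by
        have := (isLittleO_log_rpow_atTop (r := 1 / (α + 1)) (by positivity)).def (c := 1) (by norm_num)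
        simpa [Real.norm_eq_abs] using this
      filter_upwards [tendsto_natCast_atTop_atTop.eventually h1, eventually_ge_atTop 3] with N h2 h3
      have hN0' : (0 : ℝ) < N := by exact_mod_cast (by omega : 0 < N)
      have hN1' : (1 : ℝ) ≤ N := by exact_mod_cast (by omega : 1 ≤ N)
      have hlN : 0 < Real.log N := Real.log_pos (by exact_mod_cast (by omega : 1 < N))
      rw [one_mul, abs_of_nonneg hlN.le, abs_of_nonneg (by positivity)] at h2
      have h4 : Real.log N ^ α ≤ N := by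
        calc Real.log N ^ α ≤ ((N : ℝ) ^ (1 / (α + 1) : ℝ)) ^ α :=
              Real.rpow_le_rpow hlN.le h2 hα0.le
          _ = (N : ℝ) ^ (1 / (α + 1) * α : ℝ) := by rw [← Real.rpow_mul hN0'.le]
          _ ≤ (N : ℝ) ^ (1 : ℝ) := by
              refine Real.rpow_le_rpow_of_exponent_le hN1' ?_
              rw [div_mul_eq_mul_div, one_mul, div_le_one (by positivity)]
              linarith
          _ = N := Real.rpow_one _
      rw [Real.rpow_neg hlN.le, ← div_eq_mul_inv, le_div_iff₀ (by positivity)]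
      linarith
    obtain ⟨N2, hN2⟩ := eventually_atTop.1 hlarge
    refine ⟨1, 2, one_pos, max N0 N2, fun N hN => ?_⟩
    obtain ⟨_, hcard⟩ := hB' N ((le_max_left _ _).trans hN)
    have h1 := hN2 N ((le_max_right _ _).trans hN)
    rw [hcard]
    constructor
    · rw [one_mul]; exact Nat.le_ceil _
    · have h2 := Nat.ceil_lt_add_one (a := (N : ℝ) * Real.log N ^ (-α)) (by linarith)
      linarith
  · refine ⟨C * (3 + 1 / ε1), N0, fun N hN => ?_⟩
    have hN3 : 3 ≤ N := (le_max_right _ _).trans hN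
    obtain ⟨hsub, hcard⟩ := hB' N hN
    have h1 := hC N hN3 (B N) hsub
    have hlogN : 1 < Real.log N := by
      have h3 : Real.exp 1 < 3 := by have := Real.exp_one_lt_d9; linarith
      have h4 : (3 : ℝ) ≤ N := by exact_mod_cast hN3
      rw [Real.lt_log_iff_exp_lt (by linarith)]
      linarith
    have hlN0 : 0 < Real.log N := by linarith
    have hL0 : 0 < Real.log (Real.log N) := Real.log_pos hlogN
    have hN0' : (0 : ℝ) < N := by exact_mod_cast (by omega : 0 < N)
    have h2 : (3 + Real.log (Real.log N)) ≤ (3 + 1 / ε1) * Real.log N ^ ε1 := by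
      have h3 : Real.log N ^ ε1 = Real.exp (ε1 * Real.log (Real.log N)) := by
        rw [Real.rpow_def_of_pos hlN0, mul_comm]
      rw [h3]
      have h4 : ε1 * Real.log (Real.log N) + 1 ≤ Real.exp (ε1 * Real.log (Real.log N)) :=
        Real.add_one_le_exp _
      have h5 : (3 + 1 / ε1) * (ε1 * Real.log (Real.log N) + 1) ≤
          (3 + 1 / ε1) * Real.exp (ε1 * Real.log (Real.log N)) :=
        mul_le_mul_of_nonneg_left h4 (by positivity)
      have h6 : (3 + 1 / ε1) * (ε1 * Real.log (Real.log N) + 1) =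
          3 * ε1 * Real.log (Real.log N) + Real.log (Real.log N) + 3 + 1 / ε1 := by
        field_simp; ring
      have h7 : 0 < 1 / ε1 := by positivity
      have h8 : 0 < 3 * ε1 * Real.log (Real.log N) := by positivity
      linarith
    have h3 : (N : ℝ) * Real.log N ^ (-α) ≤ (B N).card := by
      rw [hcard]; exact Nat.le_ceil _
    have h4 : Real.log N ^ (Real.log 2 - 3 / 4) * Real.log N ^ ε1 = Real.log N ^ (-α) * Real.log N ^ β := by
      rw [← Real.rpow_add hlN0, ← Real.rpow_add hlN0]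
      congr 1
      rw [hα, hβ]; ring
    calc ((quads (B N) N).card : ℝ)
        ≤ C * N ^ 2 * Real.log N ^ (Real.log 2 - 3 / 4) * (3 + Real.log (Real.log N)) := h1
      _ ≤ C * N ^ 2 * Real.log N ^ (Real.log 2 - 3 / 4) * ((3 + 1 / ε1) * Real.log N ^ ε1) := by
          gcongr
      _ = C * (3 + 1 / ε1) * N ^ 2 * (Real.log N ^ (Real.log 2 - 3 / 4) * Real.log N ^ ε1) := by ring
      _ = C * (3 + 1 / ε1) * (N * (N * Real.log N ^ (-α)) * Real.log N ^ β) := by rw [h4]; ring
      _ ≤ C * (3 + 1 / ε1) * (N * (B N).card * Real.log N ^ β) := by gcongr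

end Pool.Agent.V11205.ME
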