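import Mathlib

/-! # Total positivity for continuants in the Fibonacci basis

`Inv m a o` collects the inequalities between the difference sequences `a` (stage `m`) and `o`
(stage `m - 1`) of the coefficient sequences of continuants which are preserved by the recursion
`a' i = k * (a i + a (i - 1)) - s * o (i - 1)`, `k ≥ 1`, `s = ± 1`. -/

set_option autoImplicit false

namespace Pool.Agent.V11205.TP

/-- transitivity through the middle values `y`, `Y` -/
theorem trans_aux {x X y Y z Z : ℤ} (hx : 0 ≤ x) (hy : 0 ≤ y) (hY : 0 ≤ Y) (hz : 0 ≤ z)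
    (hZ : 0 ≤ Z) (h1 : X * y ≤ x * Y) (h2 : Y * z ≤ y * Z) (h0 : y * Y = 0 → X * z ≤ 0) :
    X * z ≤ x * Z := by
  rcases le_or_gt X 0 with hX | hX
  · nlinarith [mul_nonneg hx hZ, mul_nonneg (neg_nonneg.2 hX) hz]
  · by_cases hyY : y * Y = 0
    · nlinarith [h0 hyY, mul_nonneg hx hZ]
    · have hpos : 0 < y * Y := lt_of_le_of_ne (mul_nonneg hy hY) (Ne.symm hyY)
      have h3 : (X * y) * (Y * z) ≤ (x * Y) * (y * Z) :=
        mul_le_mul h1 h2 (mul_nonneg hY hz) (mul_nonneg hx hY)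
      have h4 : (X * z) * (y * Y) ≤ (x * Z) * (y * Y) := by
        calc (X * z) * (y * Y) = (X * y) * (Y * z) := by ring
          _ ≤ (x * Y) * (y * Z) := h3
          _ = (x * Z) * (y * Y) := by ring
      exact le_of_mul_le_mul_right h4 hpos

section Algebra

variable {a0 a1 a2 A0 A1 A2 o1 o2 O1 O2 k : ℤ}

theorem alg1 (s : ℤ) (hs : s = 1 ∨ s = -1) (hk : 1 ≤ k)
    (B1 : A0 * a1 ≤ a0 * A1) (B3 : A0 * o1 ≤ a0 * O1)
    (B4 : A0 * (a1 - o1) ≤ a0 * (A1 - O1)) :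
    A0 * (k * (a0 + a1) - s * o1) ≤ a0 * (k * (A0 + A1) - s * O1) := by
  have hk' : 0 ≤ k - 1 := by linarith
  rcases hs with rfl | rfl
  · linarith [mul_nonneg hk' (sub_nonneg.2 B1)]
  · linarith [mul_nonneg hk' (sub_nonneg.2 B1)]

theorem alg1' (s : ℤ) (hs : s = 1 ∨ s = -1) (hk : 1 ≤ k)
    (B1 : A0 * a1 ≤ a0 * A1) (B6s : a1 * O1 ≤ o1 * A1)
    (B8 : (A0 - O1) * a1 ≤ (a0 - o1) * A1) :
    (k * (A0 + A1) - s * O1) * a1 ≤ (k * (a0 + a1) - s * o1) * A1 := by
  have hk' : 0 ≤ k - 1 := by linarith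
  rcases hs with rfl | rfl
  · linarith [mul_nonneg hk' (sub_nonneg.2 B1)]
  · linarith [mul_nonneg hk' (sub_nonneg.2 B1)]

theorem alg3 (s : ℤ) (hs : s = 1 ∨ s = -1) (hk : 1 ≤ k)
    (B1 : A0 * a1 ≤ a0 * A1) (B1s : A1 * a2 ≤ a1 * A2) (B2 : A0 * a2 ≤ a0 * A2)
    (B3s : A1 * o2 ≤ a1 * O2) (B5' : A0 * o2 ≤ a0 * O2)
    (B4s : A1 * (a2 - o2) ≤ a1 * (A2 - O2)) (B5 : A0 * (a2 - o2) ≤ a0 * (A2 - O2))
    (B6s : a1 * O1 ≤ o1 * A1) (B6t : O1 * a2 ≤ o1 * A2) (B7s : O1 * o2 ≤ o1 * O2)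
    (B8 : (A0 - O1) * a1 ≤ (a0 - o1) * A1)
    (BN2 : (A0 + A1 - O1) * a2 ≤ (a0 + a1 - o1) * A2)
    (BN3 : (A0 + A1 - O1) * (a2 - o2) ≤ (a0 + a1 - o1) * (A2 - O2)) :
    (k * (A0 + A1) - s * O1) * (k * (a1 + a2) - s * o2) ≤
      (k * (a0 + a1) - s * o1) * (k * (A1 + A2) - s * O2) := by
  obtain ⟨t, rfl⟩ : ∃ t, k = t + 1 := ⟨k - 1, by ring⟩
  have ht : 0 ≤ t := by linarith
  have htt : 0 ≤ t * t := mul_nonneg ht ht
  rcases hs with rfl | rfl
  · linarith [mul_nonneg ht (sub_nonneg.2 B1), mul_nonneg ht (sub_nonneg.2 B8),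
      mul_nonneg ht (sub_nonneg.2 BN2), mul_nonneg ht (sub_nonneg.2 B5),
      mul_nonneg htt (sub_nonneg.2 B1), mul_nonneg htt (sub_nonneg.2 B2),
      mul_nonneg ht (sub_nonneg.2 B4s), mul_nonneg htt (sub_nonneg.2 B1s)]
  · linarith [mul_nonneg ht (sub_nonneg.2 B1), mul_nonneg htt (sub_nonneg.2 B1),
      mul_nonneg ht (sub_nonneg.2 B2), mul_nonneg htt (sub_nonneg.2 B2),
      mul_nonneg ht (sub_nonneg.2 B1s), mul_nonneg htt (sub_nonneg.2 B1s),
      mul_nonneg ht (sub_nonneg.2 B5'), mul_nonneg ht (sub_nonneg.2 B3s),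
      mul_nonneg ht (sub_nonneg.2 B6s), mul_nonneg ht (sub_nonneg.2 B6t)]

/-- `e' = a' - o'` is log-concave after a kick -/
theorem alg4 (s : ℤ) (hs : (s = 1 ∧ 2 ≤ k) ∨ (s = -1 ∧ 1 ≤ k))
    (B1 : A0 * a1 ≤ a0 * A1) (B1s : A1 * a2 ≤ a1 * A2) (B2 : A0 * a2 ≤ a0 * A2)
    (B3s : A1 * o2 ≤ a1 * O2) (B5' : A0 * o2 ≤ a0 * O2)
    (B4s : A1 * (a2 - o2) ≤ a1 * (A2 - O2)) (B5 : A0 * (a2 - o2) ≤ a0 * (A2 - O2))
    (B6s : a1 * O1 ≤ o1 * A1) (B6t : O1 * a2 ≤ o1 * A2) (B7s : O1 * o2 ≤ o1 * O2)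
    (B8 : (A0 - O1) * a1 ≤ (a0 - o1) * A1)
    (BN2 : (A0 + A1 - O1) * a2 ≤ (a0 + a1 - o1) * A2)
    (B10s : (A1 - O1) * (a2 - o2) ≤ (a1 - o1) * (A2 - O2)) :
    ((k * (A0 + A1) - s * O1) - A0) * ((k * (a1 + a2) - s * o2) - a1) ≤
      ((k * (a0 + a1) - s * o1) - a0) * ((k * (A1 + A2) - s * O2) - A1) := by
  obtain ⟨t, rfl⟩ : ∃ t, k = t + 1 := ⟨k - 1, by ring⟩
  rcases hs with ⟨rfl, hk⟩ | ⟨rfl, hk⟩
  · have ht : 0 ≤ t := by linarith
    have htt : 0 ≤ t * t := mul_nonneg ht ht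
    have ht1 : 0 ≤ t * (t - 1) := mul_nonneg ht (by linarith)
    linarith [mul_nonneg ht1 (sub_nonneg.2 B1), mul_nonneg ht (sub_nonneg.2 B8),
      mul_nonneg ht1 (sub_nonneg.2 B2), mul_nonneg ht (sub_nonneg.2 BN2),
      mul_nonneg htt (sub_nonneg.2 B1s),
      mul_nonneg ht (sub_nonneg.2 B5), mul_nonneg ht (sub_nonneg.2 B4s)]
  · have ht : 0 ≤ t := by linarith
    have htt : 0 ≤ t * t := mul_nonneg ht ht
    linarith [mul_nonneg ht (sub_nonneg.2 B6s), mul_nonneg ht (sub_nonneg.2 B1s),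
      mul_nonneg ht (sub_nonneg.2 B6t), mul_nonneg ht (sub_nonneg.2 B2),
      mul_nonneg ht (sub_nonneg.2 B5'), mul_nonneg htt (sub_nonneg.2 B1),
      mul_nonneg htt (sub_nonneg.2 B2), mul_nonneg htt (sub_nonneg.2 B1s),
      mul_nonneg ht (sub_nonneg.2 B3s)]

/-- `g' = a' - y o'` and `y a'` after a kick -/
theorem alg5 (s : ℤ) (hs : (s = 1 ∧ 2 ≤ k) ∨ (s = -1 ∧ 1 ≤ k))
    (B1 : A0 * a1 ≤ a0 * A1) (B1s : A1 * a2 ≤ a1 * A2) (B2 : A0 * a2 ≤ a0 * A2)
    (B3s : A1 * o2 ≤ a1 * O2) (B5' : A0 * o2 ≤ a0 * O2)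
    (B4s : A1 * (a2 - o2) ≤ a1 * (A2 - O2)) (B5 : A0 * (a2 - o2) ≤ a0 * (A2 - O2))
    (B6s : a1 * O1 ≤ o1 * A1) (B6t : O1 * a2 ≤ o1 * A2) (B7s : O1 * o2 ≤ o1 * O2)
    (B8 : (A0 - O1) * a1 ≤ (a0 - o1) * A1)
    (BN2 : (A0 + A1 - O1) * a2 ≤ (a0 + a1 - o1) * A2)
    (BN3 : (A0 + A1 - O1) * (a2 - o2) ≤ (a0 + a1 - o1) * (A2 - O2)) :
    ((k * (A0 + A1) - s * O1) - A1) * (k * (a1 + a2) - s * o2) ≤
      ((k * (a0 + a1) - s * o1) - a1) * (k * (A1 + A2) - s * O2) := by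
  obtain ⟨t, rfl⟩ : ∃ t, k = t + 1 := ⟨k - 1, by ring⟩
  rcases hs with ⟨rfl, hk⟩ | ⟨rfl, hk⟩
  · have ht : 0 ≤ t := by linarith
    have ht' : 0 ≤ t - 1 := by linarith
    have htt : 0 ≤ t * t := mul_nonneg ht ht
    have ht1 : 0 ≤ t * (t - 1) := mul_nonneg ht ht'
    linarith [mul_nonneg ht (sub_nonneg.2 B8), mul_nonneg ht (sub_nonneg.2 BN2),
      mul_nonneg ht (sub_nonneg.2 B1), mul_nonneg ht (sub_nonneg.2 B5),
      mul_nonneg ht' (sub_nonneg.2 B4s), mul_nonneg htt (sub_nonneg.2 B1),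
      mul_nonneg htt (sub_nonneg.2 B2), mul_nonneg ht1 (sub_nonneg.2 B1s)]
  · have ht : 0 ≤ t := by linarith
    have htt : 0 ≤ t * t := mul_nonneg ht ht
    linarith [mul_nonneg ht (sub_nonneg.2 B1), mul_nonneg htt (sub_nonneg.2 B1),
      mul_nonneg ht (sub_nonneg.2 B2), mul_nonneg htt (sub_nonneg.2 B2),
      mul_nonneg ht (sub_nonneg.2 B1s), mul_nonneg htt (sub_nonneg.2 B1s),
      mul_nonneg ht (sub_nonneg.2 B5'), mul_nonneg ht (sub_nonneg.2 B3s),
      mul_nonneg ht (sub_nonneg.2 B6s), mul_nonneg ht (sub_nonneg.2 B6t)]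

theorem alg6 (s : ℤ) (hs : s = 1 ∨ s = -1) (hk : 1 ≤ k)
    (B1 : A0 * a1 ≤ a0 * A1) (B1s : A1 * a2 ≤ a1 * A2) (B2 : A0 * a2 ≤ a0 * A2)
    (B3s : A1 * o2 ≤ a1 * O2) (B5' : A0 * o2 ≤ a0 * O2)
    (B4s : A1 * (a2 - o2) ≤ a1 * (A2 - O2)) (B5 : A0 * (a2 - o2) ≤ a0 * (A2 - O2))
    (B6s : a1 * O1 ≤ o1 * A1) (B6t : O1 * a2 ≤ o1 * A2) (B7s : O1 * o2 ≤ o1 * O2)
    (B8 : (A0 - O1) * a1 ≤ (a0 - o1) * A1)
    (BN2 : (A0 + A1 - O1) * a2 ≤ (a0 + a1 - o1) * A2)
    (BN3 : (A0 + A1 - O1) * (a2 - o2) ≤ (a0 + a1 - o1) * (A2 - O2)) :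
    (k * (A0 + A1) - s * O1) * ((k * (a1 + a2) - s * o2) - a1) ≤
      (k * (a0 + a1) - s * o1) * ((k * (A1 + A2) - s * O2) - A1) := by
  obtain ⟨t, rfl⟩ : ∃ t, k = t + 1 := ⟨k - 1, by ring⟩
  have ht : 0 ≤ t := by linarith
  have htt : 0 ≤ t * t := mul_nonneg ht ht
  rcases hs with rfl | rfl
  · linarith [mul_nonneg ht (sub_nonneg.2 B8), mul_nonneg ht (sub_nonneg.2 BN2),
      mul_nonneg ht (sub_nonneg.2 B5), mul_nonneg ht (sub_nonneg.2 B1),
      mul_nonneg htt (sub_nonneg.2 B1), mul_nonneg htt (sub_nonneg.2 B2),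
      mul_nonneg ht (sub_nonneg.2 B4s), mul_nonneg htt (sub_nonneg.2 B1s)]
  · linarith [mul_nonneg ht (sub_nonneg.2 B1), mul_nonneg htt (sub_nonneg.2 B1),
      mul_nonneg ht (sub_nonneg.2 B2), mul_nonneg htt (sub_nonneg.2 B2),
      mul_nonneg ht (sub_nonneg.2 B1s), mul_nonneg htt (sub_nonneg.2 B1s),
      mul_nonneg ht (sub_nonneg.2 B5'), mul_nonneg ht (sub_nonneg.2 B3s),
      mul_nonneg ht (sub_nonneg.2 B6s), mul_nonneg ht (sub_nonneg.2 B6t)]

end Algebra


/-- the facts about the entries at two places `i < j` used in one step -/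
structure Facts (a0 a1 a2 A0 A1 A2 o1 o2 O1 O2 : ℤ) : Prop where
  B1 : A0 * a1 ≤ a0 * A1
  B1s : A1 * a2 ≤ a1 * A2
  B2 : A0 * a2 ≤ a0 * A2
  B3s : A1 * o2 ≤ a1 * O2
  B5' : A0 * o2 ≤ a0 * O2
  B4s : A1 * (a2 - o2) ≤ a1 * (A2 - O2)
  B5 : A0 * (a2 - o2) ≤ a0 * (A2 - O2)
  B6s : a1 * O1 ≤ o1 * A1
  B6t : O1 * a2 ≤ o1 * A2
  B7s : O1 * o2 ≤ o1 * O2
  B8 : (A0 - O1) * a1 ≤ (a0 - o1) * A1
  BN2 : (A0 + A1 - O1) * a2 ≤ (a0 + a1 - o1) * A2
  BN3 : (A0 + A1 - O1) * (a2 - o2) ≤ (a0 + a1 - o1) * (A2 - O2)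
  B10s : (A1 - O1) * (a2 - o2) ≤ (a1 - o1) * (A2 - O2)

structure Inv (m : ℤ) (a o : ℤ → ℤ) : Prop where
  hm : 0 ≤ m
  za : ∀ i, i < 0 → a i = 0
  zo : ∀ i, i < 0 → o i = 0
  anta : ∀ i, a (m + 1 - i) = - a i
  anto : ∀ i, o (m - i) = - o i
  na : ∀ i, 2 * i ≤ m + 1 → 0 ≤ a i
  no : ∀ i, 2 * i ≤ m → 0 ≤ o i
  ne : ∀ i, 2 * i ≤ m → o i ≤ a i
  r1 : ∀ i j, i < j → 2 * j ≤ m → a i * o j ≤ o i * a j
  r2 : ∀ i j, i < j → 2 * j ≤ m → o j * o (i - 1) ≤ o i * o (j - 1)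
  r4 : ∀ i j, i < j → 2 * j ≤ m + 1 →
    (a j - o j) * (a (i - 1) - o (i - 1)) ≤ (a i - o i) * (a (j - 1) - o (j - 1))
  r1' : ∀ i j, i < j → 2 * j ≤ m + 1 → a j * o (i - 1) ≤ a i * o (j - 1)
  r3 : ∀ i j, i < j → 2 * j ≤ m + 1 → a j * a (i - 1) ≤ a i * a (j - 1)
  r5 : ∀ i j, i < j → 2 * j ≤ m + 1 →
    (a j - o (j - 1)) * a (i - 1) ≤ (a i - o (i - 1)) * a (j - 1)
  r6 : ∀ i j, i < j → 2 * j ≤ m + 1 →
    a j * (a (i - 1) - o (i - 1)) ≤ a i * (a (j - 1) - o (j - 1))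
  gn : ∃ p : ℤ, (∀ x, x ≤ p → 0 ≤ a x - o (x - 1)) ∧ (∀ x, p < x → a x - o (x - 1) ≤ 0) ∧
    ∀ i j s, p < i → i ≤ j → 0 ≤ s →
      (a i - o (i - 1)) * (a (j + s) - o (j + s - 1)) ≤
        (a j - o (j - 1)) * (a (i + s) - o (i + s - 1))

namespace Inv

variable {m : ℤ} {a o : ℤ → ℤ}

theorem facts (h : Inv m a o) {i j : ℤ} (hij : i < j) (hj : 2 * j ≤ m + 1) :
    Facts (a i) (a (i - 1)) (a (i - 2)) (a j) (a (j - 1)) (a (j - 2))
      (o (i - 1)) (o (i - 2)) (o (j - 1)) (o (j - 2)) := by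
  have ei : i - 1 - 1 = i - 2 := by ring
  have ej : j - 1 - 1 = j - 2 := by ring
  have hij1 : i - 1 < j - 1 := by omega
  have hj1 : 2 * (j - 1) ≤ m + 1 := by omega
  have hj1' : 2 * (j - 1) ≤ m := by omega
  have a0 : 0 ≤ a i := h.na i (by omega)
  have a1 : 0 ≤ a (i - 1) := h.na _ (by omega)
  have a2 : 0 ≤ a (i - 2) := h.na _ (by omega)
  have A0 : 0 ≤ a j := h.na j (by omega)
  have A1 : 0 ≤ a (j - 1) := h.na _ (by omega)
  have A2 : 0 ≤ a (j - 2) := h.na _ (by omega)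
  have o1 : 0 ≤ o (i - 1) := h.no _ (by omega)
  have o2 : 0 ≤ o (i - 2) := h.no _ (by omega)
  have O1 : 0 ≤ o (j - 1) := h.no _ (by omega)
  have O2 : 0 ≤ o (j - 2) := h.no _ (by omega)
  have e1 : o (i - 1) ≤ a (i - 1) := h.ne _ (by omega)
  have e2 : o (i - 2) ≤ a (i - 2) := h.ne _ (by omega)
  have E1 : o (j - 1) ≤ a (j - 1) := h.ne _ (by omega)
  have E2 : o (j - 2) ≤ a (j - 2) := h.ne _ (by omega)
  have B1 := h.r3 i j hij hj
  have B1s := h.r3 (i - 1) (j - 1) hij1 hj1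
  have B3s := h.r1' (i - 1) (j - 1) hij1 hj1
  have B4s := h.r6 (i - 1) (j - 1) hij1 hj1
  have B6s := h.r1 (i - 1) (j - 1) hij1 hj1'
  have B7s := h.r2 (i - 1) (j - 1) hij1 hj1'
  have B8 := h.r5 i j hij hj
  have B10s := h.r4 (i - 1) (j - 1) hij1 hj1
  have B11 := h.r3 (i - 1) j (by omega) hj
  rw [ei, ej] at B1s B3s B4s B7s B10s
  rw [ei] at B11
  have B2 : a j * a (i - 2) ≤ a i * a (j - 2) := by
    refine le_trans B11 ?_
    rcases eq_or_lt_of_le (show i ≤ j - 1 by omega) with hh | hh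
    · have : j - 2 = i - 1 := by omega
      rw [this, hh.symm, mul_comm]
    · have := h.r3 i (j - 1) hh hj1
      rw [ej] at this
      rw [mul_comm]
      exact this
  have hz : a (i - 1) * a (j - 1) = 0 → a j * a (i - 2) ≤ 0 := fun hz => by rw [hz] at B11; exact B11
  have hz' : a (i - 1) * a (j - 1) = 0 → a (j - 1) * a (i - 2) ≤ 0 := fun hz => by
    rcases mul_eq_zero.1 hz with h1 | h1
    · rw [h1, zero_mul] at B1s; exact B1s
    · rw [h1, zero_mul]
  have N0 : 0 ≤ a i + a (i - 1) - o (i - 1) := by linarith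
  have NJ0 : 0 ≤ a j + a (j - 1) - o (j - 1) := by linarith
  have BN1 : (a j + a (j - 1) - o (j - 1)) * a (i - 1) ≤ (a i + a (i - 1) - o (i - 1)) * a (j - 1) := by
    linarith
  have hzN : a (i - 1) * a (j - 1) = 0 → (a j + a (j - 1) - o (j - 1)) * a (i - 2) ≤ 0 := fun hh => by
    have h1 := hz hh
    have h2 := hz' hh
    nlinarith [mul_nonneg O1 a2]
  refine ⟨B1, B1s, B2, B3s, ?_, B4s, ?_, B6s, ?_, B7s, B8, ?_, ?_, B10s⟩
  · exact trans_aux a0 a1 A1 o2 O2 B1 B3s fun hh =>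
      le_trans (mul_le_mul_of_nonneg_left e2 A0) (hz hh)
  · exact trans_aux a0 a1 A1 (by linarith) (by linarith) B1 B4s fun hh =>
      le_trans (mul_le_mul_of_nonneg_left (by linarith) A0) (hz hh)
  · refine trans_aux o1 a1 A1 a2 A2 (by rw [mul_comm]; exact B6s) B1s fun hh => ?_
    exact le_trans (mul_le_mul_of_nonneg_right E1 a2) (hz' hh)
  · exact trans_aux N0 a1 A1 a2 A2 BN1 B1s hzN
  · exact trans_aux N0 a1 A1 (by linarith) (by linarith) BN1 B4s fun hh =>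
      le_trans (mul_le_mul_of_nonneg_left (by linarith) NJ0) (hzN hh)

/-- the same facts one place further, where `a j = - a (j - 1)` and `o (j - 1) = 0` -/
theorem facts_top (h : Inv m a o) {i j : ℤ} (hij : i < j) (hj : 2 * j = m + 2) :
    Facts (a i) (a (i - 1)) (a (i - 2)) (a j) (a (j - 1)) (a (j - 2))
      (o (i - 1)) (o (i - 2)) (o (j - 1)) (o (j - 2)) := by
  have ei : i - 1 - 1 = i - 2 := by ring
  have ej : j - 1 - 1 = j - 2 := by ring
  have hij1 : i - 1 < j - 1 := by omega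
  have hj1 : 2 * (j - 1) ≤ m + 1 := by omega
  have hj1' : 2 * (j - 1) ≤ m := by omega
  have a0 : 0 ≤ a i := h.na i (by omega)
  have a1 : 0 ≤ a (i - 1) := h.na _ (by omega)
  have a2 : 0 ≤ a (i - 2) := h.na _ (by omega)
  have A1 : 0 ≤ a (j - 1) := h.na _ (by omega)
  have A2 : 0 ≤ a (j - 2) := h.na _ (by omega)
  have o1 : 0 ≤ o (i - 1) := h.no _ (by omega)
  have o2 : 0 ≤ o (i - 2) := h.no _ (by omega)
  have O2 : 0 ≤ o (j - 2) := h.no _ (by omega)
  have e1 : o (i - 1) ≤ a (i - 1) := h.ne _ (by omega)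
  have e2 : o (i - 2) ≤ a (i - 2) := h.ne _ (by omega)
  have E2 : o (j - 2) ≤ a (j - 2) := h.ne _ (by omega)
  have hAj : a j = - a (j - 1) := by
    have := h.anta (j - 1)
    rw [← this]; congr 1; omega
  have hOj : o (j - 1) = 0 := by
    have := h.anto (j - 1)
    have h2 : m - (j - 1) = j - 1 := by omega
    rw [h2] at this
    omega
  have B1s := h.r3 (i - 1) (j - 1) hij1 hj1
  have B3s := h.r1' (i - 1) (j - 1) hij1 hj1
  have B4s := h.r6 (i - 1) (j - 1) hij1 hj1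
  have B6s := h.r1 (i - 1) (j - 1) hij1 hj1'
  have B7s := h.r2 (i - 1) (j - 1) hij1 hj1'
  have B10s := h.r4 (i - 1) (j - 1) hij1 hj1
  rw [ei, ej] at B1s B3s B4s B7s B10s
  rw [hAj]
  refine ⟨?_, B1s, ?_, B3s, ?_, B4s, ?_, B6s, ?_, B7s, ?_, ?_, ?_, B10s⟩
  · nlinarith [mul_nonneg a0 A1, mul_nonneg A1 a1]
  · nlinarith [mul_nonneg a0 A2, mul_nonneg A1 a2]
  · nlinarith [mul_nonneg a0 O2, mul_nonneg A1 o2]
  · nlinarith [mul_nonneg a0 (sub_nonneg.2 E2), mul_nonneg A1 (sub_nonneg.2 e2)]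
  · rw [hOj, zero_mul]; exact mul_nonneg o1 A2
  · rw [hOj]; nlinarith [mul_nonneg a0 A1, mul_nonneg (sub_nonneg.2 e1) A1]
  · rw [hOj]; nlinarith [mul_nonneg a0 A2, mul_nonneg (sub_nonneg.2 e1) A2]
  · rw [hOj]; nlinarith [mul_nonneg a0 (sub_nonneg.2 E2), mul_nonneg (sub_nonneg.2 e1) (sub_nonneg.2 E2)]


/-- general shifts from shift one -/
theorem lc_shift {e : ℤ → ℤ} {M : ℤ}
    (he : ∀ i j, i < j → 2 * j ≤ M → e j * e (i - 1) ≤ e i * e (j - 1)) (n : ℕ) :
    ∀ x w : ℤ, 2 * w ≤ M → 2 * (n : ℤ) ≤ w - x → e x * e w ≤ e (x + n) * e (w - n) := by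
  induction n with
  | zero => intro x w _ _; simp
  | succ n ih =>
    intro x w hw hn
    push_cast at hn
    refine le_trans (ih x w hw (by linarith)) ?_
    have h1 := he (x + n + 1) (w - n) (by omega) (by omega)
    have e1 : x + (n : ℤ) + 1 - 1 = x + n := by ring
    rw [e1] at h1
    have e2 : x + ((n + 1 : ℕ) : ℤ) = x + n + 1 := by push_cast; ring
    have e3 : w - ((n + 1 : ℕ) : ℤ) = w - n - 1 := by push_cast; ring
    rw [e2, e3, mul_comm]
    exact h1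

theorem lc_shift' {e : ℤ → ℤ} {M : ℤ}
    (he : ∀ i j, i < j → 2 * j ≤ M → e j * e (i - 1) ≤ e i * e (j - 1)) (s x w : ℤ)
    (hs : 0 ≤ s) (hsw : s ≤ w - x) (hw : 2 * w ≤ M) : e x * e w ≤ e (x + s) * e (w - s) := by
  rcases le_or_gt (2 * s) (w - x) with h | h
  · obtain ⟨n, rfl⟩ := Int.eq_ofNat_of_zero_le hs
    exact lc_shift he n x w hw h
  · obtain ⟨n, hn⟩ := Int.eq_ofNat_of_zero_le (show 0 ≤ w - x - s by linarith)
    have h1 := lc_shift he n x w hw (by omega)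
    have e1 : x + (n : ℤ) = w - s := by omega
    have e2 : w - (n : ℤ) = x + s := by omega
    rw [e1, e2, mul_comm (e (w - s))] at h1
    exact h1

/-- the recursion -/
def nxt (k s : ℤ) (a o : ℤ → ℤ) (i : ℤ) : ℤ := k * (a i + a (i - 1)) - s * o (i - 1)

variable {k s : ℤ}

theorem nxt_anta (h : Inv m a o) (i : ℤ) : nxt k s a o (m + 1 + 1 - i) = - nxt k s a o i := by
  unfold nxt
  have h1 := h.anta (i - 1)
  have h2 := h.anta i
  have h3 := h.anto (i - 1)
  have e1 : m + 1 + 1 - i = m + 1 - (i - 1) := by ring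
  have e2 : m + 1 - (i - 1) - 1 = m + 1 - i := by ring
  have e3 : m + 1 - i = m - (i - 1) := by ring
  rw [e1, e2, h1, h2]
  nth_rewrite 1 [e3]
  rw [h3]
  ring

theorem nxt_ge (h : Inv m a o) (hs : s = 1 ∨ s = -1) (hk : 1 ≤ k) {i : ℤ} (hi : 2 * i ≤ m + 1) :
    a i ≤ nxt k s a o i := by
  unfold nxt
  have h1 := h.na i hi
  have h2 := h.na (i - 1) (by omega)
  have h3 := h.ne (i - 1) (by omega)
  have h4 := h.no (i - 1) (by omega)
  have h5 : (0:ℤ) ≤ (k - 1) * (a i + a (i - 1)) := mul_nonneg (by linarith) (by linarith)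
  rcases hs with rfl | rfl <;> nlinarith

theorem nxt_top (h : Inv m a o) {i : ℤ} (hi : 2 * i = m + 2) : nxt k s a o i = 0 := by
  have := nxt_anta (k := k) (s := s) h i
  have h2 : m + 1 + 1 - i = i := by omega
  rw [h2] at this
  omega

theorem nxt_nonneg (h : Inv m a o) (hs : s = 1 ∨ s = -1) (hk : 1 ≤ k) {i : ℤ}
    (hi : 2 * i ≤ m + 2) : 0 ≤ nxt k s a o i := by
  rcases eq_or_lt_of_le hi with h1 | h1
  · rw [nxt_top h h1]
  · exact le_trans (h.na i (by omega)) (nxt_ge h hs hk (by omega))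

theorem kick_g (h : Inv m a o) (hs : (s = 1 ∧ 2 ≤ k) ∨ (s = -1 ∧ 1 ≤ k)) {i : ℤ}
    (hi : 2 * i ≤ m + 1) : a (i - 1) ≤ nxt k s a o i := by
  unfold nxt
  have h1 := h.na i hi
  have h2 := h.na (i - 1) (by omega)
  have h3 := h.ne (i - 1) (by omega)
  have h4 := h.no (i - 1) (by omega)
  rcases hs with ⟨rfl, hk⟩ | ⟨rfl, hk⟩
  · have h5 : (0:ℤ) ≤ (k - 2) * (a i + a (i - 1)) := mul_nonneg (by linarith) (by linarith)
    nlinarith
  · have h5 : (0:ℤ) ≤ (k - 1) * (a i + a (i - 1)) := mul_nonneg (by linarith) (by linarith)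
    nlinarith

theorem sub_one_one (i : ℤ) : i - 1 - 1 = i - 2 := by ring

/-- the part of the step common to all `k`, `s` -/
theorem step_r1 (h : Inv m a o) (hs : s = 1 ∨ s = -1) (hk : 1 ≤ k) (i j : ℤ) (hij : i < j)
    (hj : 2 * j ≤ m + 1) : nxt k s a o i * a j ≤ a i * nxt k s a o j := by
  rw [mul_comm]
  exact alg1 s hs hk (h.r3 i j hij hj) (h.r1' i j hij hj) (h.r6 i j hij hj)

theorem step_r1' (h : Inv m a o) (hs : s = 1 ∨ s = -1) (hk : 1 ≤ k) (i j : ℤ) (hij : i < j)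
    (hj : 2 * j ≤ m + 2) : nxt k s a o j * a (i - 1) ≤ nxt k s a o i * a (j - 1) := by
  rcases eq_or_lt_of_le hj with h1 | h1
  · rw [nxt_top h h1, zero_mul]
    exact mul_nonneg (nxt_nonneg h hs hk (by omega)) (h.na _ (by omega))
  · have F := h.facts hij (by omega)
    exact alg1' s hs hk F.B1 F.B6s F.B8

theorem step_r3 (h : Inv m a o) (hs : s = 1 ∨ s = -1) (hk : 1 ≤ k) (i j : ℤ) (hij : i < j)
    (hj : 2 * j ≤ m + 2) :
    nxt k s a o j * nxt k s a o (i - 1) ≤ nxt k s a o i * nxt k s a o (j - 1) := by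
  rcases eq_or_lt_of_le hj with h1 | h1
  · rw [nxt_top h h1, zero_mul]
    exact mul_nonneg (nxt_nonneg h hs hk (by omega)) (nxt_nonneg h hs hk (by omega))
  · have F := h.facts hij (by omega)
    have := alg3 s hs hk F.B1 F.B1s F.B2 F.B3s F.B5' F.B4s F.B5 F.B6s F.B6t F.B7s F.B8 F.BN2 F.BN3
    unfold nxt
    rw [sub_one_one, sub_one_one]
    exact this

theorem step_r6 (h : Inv m a o) (hs : s = 1 ∨ s = -1) (hk : 1 ≤ k) (i j : ℤ) (hij : i < j)
    (hj : 2 * j ≤ m + 2) :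
    nxt k s a o j * (nxt k s a o (i - 1) - a (i - 1)) ≤
      nxt k s a o i * (nxt k s a o (j - 1) - a (j - 1)) := by
  rcases eq_or_lt_of_le hj with h1 | h1
  · rw [nxt_top h h1, zero_mul]
    exact mul_nonneg (nxt_nonneg h hs hk (by omega))
      (sub_nonneg.2 (nxt_ge h hs hk (by omega)))
  · have F := h.facts hij (by omega)
    have := alg6 s hs hk F.B1 F.B1s F.B2 F.B3s F.B5' F.B4s F.B5 F.B6s F.B6t F.B7s F.B8 F.BN2 F.BN3
    unfold nxt
    rw [sub_one_one, sub_one_one]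
    exact this

theorem kick_r4 (h : Inv m a o) (hs : (s = 1 ∧ 2 ≤ k) ∨ (s = -1 ∧ 1 ≤ k)) (i j : ℤ) (hij : i < j)
    (hj : 2 * j ≤ m + 2) :
    (nxt k s a o j - a j) * (nxt k s a o (i - 1) - a (i - 1)) ≤
      (nxt k s a o i - a i) * (nxt k s a o (j - 1) - a (j - 1)) := by
  have F : Facts (a i) (a (i - 1)) (a (i - 2)) (a j) (a (j - 1)) (a (j - 2))
      (o (i - 1)) (o (i - 2)) (o (j - 1)) (o (j - 2)) := by
    rcases eq_or_lt_of_le hj with h1 | h1
    · exact h.facts_top hij h1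
    · exact h.facts hij (by omega)
  have := alg4 s hs F.B1 F.B1s F.B2 F.B3s F.B5' F.B4s F.B5 F.B6s F.B6t F.B7s F.B8 F.BN2 F.B10s
  unfold nxt
  rw [sub_one_one, sub_one_one]
  exact this

theorem kick_r5 (h : Inv m a o) (hs : (s = 1 ∧ 2 ≤ k) ∨ (s = -1 ∧ 1 ≤ k)) (i j : ℤ) (hij : i < j)
    (hj : 2 * j ≤ m + 2) :
    (nxt k s a o j - a (j - 1)) * nxt k s a o (i - 1) ≤
      (nxt k s a o i - a (i - 1)) * nxt k s a o (j - 1) := by
  have hs' : s = 1 ∨ s = -1 := by rcases hs with h | h; exacts [Or.inl h.1, Or.inr h.1]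
  have hk' : 1 ≤ k := by rcases hs with h | h <;> omega
  rcases eq_or_lt_of_le hj with h1 | h1
  · rw [nxt_top h h1]
    have h2 := h.na (j - 1) (by omega)
    have h3 : 0 ≤ nxt k s a o (i - 1) := nxt_nonneg h hs' hk' (by omega)
    have h4 := kick_g h hs (i := i) (by omega)
    have h5 : 0 ≤ nxt k s a o (j - 1) := nxt_nonneg h hs' hk' (by omega)
    nlinarith [mul_nonneg h2 h3, mul_nonneg (sub_nonneg.2 h4) h5]
  · have F := h.facts hij (by omega)
    have := alg5 s hs F.B1 F.B1s F.B2 F.B3s F.B5' F.B4s F.B5 F.B6s F.B6t F.B7s F.B8 F.BN2 F.BN3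
    unfold nxt
    rw [sub_one_one, sub_one_one]
    exact this

theorem kick_gn (h : Inv m a o) (hs : (s = 1 ∧ 2 ≤ k) ∨ (s = -1 ∧ 1 ≤ k)) :
    ∃ p : ℤ, (∀ x, x ≤ p → 0 ≤ nxt k s a o x - a (x - 1)) ∧
      (∀ x, p < x → nxt k s a o x - a (x - 1) ≤ 0) ∧
      ∀ i j t, p < i → i ≤ j → 0 ≤ t →
        (nxt k s a o i - a (i - 1)) * (nxt k s a o (j + t) - a (j + t - 1)) ≤
          (nxt k s a o j - a (j - 1)) * (nxt k s a o (i + t) - a (i + t - 1)) := by
  have hs' : s = 1 ∨ s = -1 := by rcases hs with h | h; exacts [Or.inl h.1, Or.inr h.1]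
  have hk' : 1 ≤ k := by rcases hs with h | h <;> omega
  have refl1 : ∀ x, nxt k s a o x - a (x - 1) = - (nxt k s a o (m + 2 - x) - a (m + 2 - x)) := by
    intro x
    have h1 := nxt_anta (k := k) (s := s) h x
    have h2 := h.anta (x - 1)
    have e1 : m + 1 + 1 - x = m + 2 - x := by ring
    have e2 : m + 1 - (x - 1) = m + 2 - x := by ring
    rw [e1] at h1
    rw [e2] at h2
    rw [h1, h2]
    ring
  refine ⟨(m + 1) / 2, fun x hx => ?_, fun x hx => ?_, fun i j t hi hij ht => ?_⟩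
  · have := kick_g h hs (i := x) (by omega)
    linarith
  · rw [refl1]
    rcases eq_or_lt_of_le (show m + 2 ≤ 2 * x by omega) with h1 | h1
    · have h3 : m + 2 - x = x := by omega
      rw [h3, nxt_top h h1.symm]
      have h4 := h.anta (x - 1)
      have h5 : m + 1 - (x - 1) = x := by omega
      rw [h5] at h4
      have h6 := h.na (x - 1) (by omega)
      omega
    · have := nxt_ge (k := k) (s := s) h hs' hk' (i := m + 2 - x) (by omega)
      linarith
  · rw [refl1 i, refl1 j, refl1 (i + t), refl1 (j + t)]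
    have key := lc_shift' (e := fun x => nxt k s a o x - a x) (M := m + 2)
      (fun i j hij hj => kick_r4 h hs i j hij hj) t (m + 2 - (j + t)) (m + 2 - i) ht
      (by omega) (by omega)
    have e1 : m + 2 - (j + t) + t = m + 2 - j := by ring
    have e2 : m + 2 - i - t = m + 2 - (i + t) := by ring
    simp only [e1, e2] at key
    linarith


/-- the sum formula for a freely propagating stage -/
theorem free_sum (h : Inv m a o) (n : ℕ) : ∀ x : ℤ, m + 2 - 2 * x = n →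
    nxt 1 1 a o x = ∑ t ∈ Finset.Icc (x + 1) (m + 2 - x), -(a t - o (t - 1)) := by
  induction n using Nat.twoStepInduction with
  | zero =>
    intro x hx
    have h1 : 2 * x = m + 2 := by push_cast at hx; linarith
    rw [nxt_top h h1, Finset.Icc_eq_empty (by omega), Finset.sum_empty]
  | one =>
    intro x hx
    have h1 : 2 * x = m + 1 := by push_cast at hx; linarith
    have h2 : m + 2 - x = x + 1 := by omega
    rw [h2, Finset.Icc_self, Finset.sum_singleton]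
    have h3 := h.anta (x - 1)
    have h4 := h.anto (x - 1)
    have h5 := h.anta x
    have e1 : m + 1 - (x - 1) = x + 1 := by omega
    have e2 : m - (x - 1) = x := by omega
    have e3 : m + 1 - x = x := by omega
    rw [e1] at h3
    rw [e2] at h4
    rw [e3] at h5
    have e4 : x + 1 - 1 = x := by ring
    unfold nxt
    rw [e4, h3, h4]
    linarith
  | more n ih _ =>
    intro x hx
    have hx' : m + 2 - 2 * (x + 1) = n := by push_cast at hx; linarith
    have h1 := ih (x + 1) hx'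
    have h2 : Finset.Icc (x + 1) (m + 2 - x) =
        insert (x + 1) (insert (m + 2 - x) (Finset.Icc (x + 1 + 1) (m + 2 - (x + 1)))) := by
      ext t
      simp only [Finset.mem_insert, Finset.mem_Icc]
      omega
    rw [h2, Finset.sum_insert, Finset.sum_insert, ← h1]
    · have h3 := h.anta (x - 1)
      have h4 := h.anto (x - 1)
      have e1 : m + 1 - (x - 1) = m + 2 - x := by ring
      have e2 : m - (x - 1) = m + 1 - x := by ring
      rw [e1] at h3
      rw [e2] at h4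
      have e3 : m + 2 - x - 1 = m + 1 - x := by ring
      have e4 : x + 1 - 1 = x := by ring
      unfold nxt
      rw [e3, e4, h3, h4]
      ring
    · simp only [Finset.mem_Icc]; omega
    · simp only [Finset.mem_insert, Finset.mem_Icc]; omega

theorem free_r5 (h : Inv m a o) (i j : ℤ) (hij : i < j) (hj : 2 * j ≤ m + 2) :
    (nxt 1 1 a o j - a (j - 1)) * nxt 1 1 a o (i - 1) ≤
      (nxt 1 1 a o i - a (i - 1)) * nxt 1 1 a o (j - 1) := by
  have g1 : ∀ x, nxt 1 1 a o x - a (x - 1) = a x - o (x - 1) := by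
    intro x; unfold nxt; ring
  rw [g1, g1]
  have hs : (1 : ℤ) = 1 ∨ (1 : ℤ) = -1 := Or.inl rfl
  have N1 : 0 ≤ nxt 1 1 a o (i - 1) := nxt_nonneg h hs le_rfl (by omega)
  have N2 : 0 ≤ nxt 1 1 a o (j - 1) := nxt_nonneg h hs le_rfl (by omega)
  obtain ⟨p, hp1, hp2, hp3⟩ := h.gn
  rcases le_or_gt j p with hjp | hjp
  · -- both nonnegative
    have gi := hp1 i (by omega)
    have gj := hp1 j hjp
    rcases eq_or_lt_of_le hj with h1 | h1
    · have hAj : a j = - a (j - 1) := by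
        have := h.anta (j - 1)
        rw [← this]; congr 1; omega
      have h2 := h.na (j - 1) (by omega)
      have h3 := h.no (j - 1) (by omega)
      have h4 : a j - o (j - 1) = 0 := by omega
      rw [h4, zero_mul]
      exact mul_nonneg gi N2
    · have a0 : 0 ≤ a i := h.na i (by omega)
      have a1 : 0 ≤ a (i - 1) := h.na _ (by omega)
      have a2 : 0 ≤ a (i - 2) := h.na _ (by omega)
      have A0 : 0 ≤ a j := h.na j (by omega)
      have A1 : 0 ≤ a (j - 1) := h.na _ (by omega)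
      have O1 : 0 ≤ o (j - 1) := h.no _ (by omega)
      have o2 : 0 ≤ o (i - 2) := h.no _ (by omega)
      refine trans_aux gi a1 A1 N1 N2 (h.r5 i j hij (by omega)) ?_ ?_
      · have := step_r1 (k := 1) (s := 1) h hs le_rfl (i - 1) (j - 1) (by omega) (by omega)
        rw [mul_comm] at this
        exact this
      · intro hz
        have B1 := h.r3 i j hij (by omega)
        have B11 := h.r3 (i - 1) j (by omega) (by omega)
        rw [sub_one_one, hz] at B11
        have e1 : a j * a (i - 1) ≤ 0 := by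
          rcases mul_eq_zero.1 hz with h5 | h5
          · rw [h5, mul_zero]
          · rw [h5, mul_zero] at B1; exact B1
        have e2 : nxt 1 1 a o (i - 1) ≤ a (i - 1) + a (i - 2) := by
          unfold nxt
          rw [sub_one_one]
          linarith
        calc (a j - o (j - 1)) * nxt 1 1 a o (i - 1) ≤ a j * nxt 1 1 a o (i - 1) :=
              mul_le_mul_of_nonneg_right (by linarith) N1
          _ ≤ a j * (a (i - 1) + a (i - 2)) := mul_le_mul_of_nonneg_left e2 A0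
          _ ≤ 0 := by rw [mul_add]; linarith
  · have gj := hp2 j hjp
    rcases le_or_gt i p with hip | hip
    · have gi := hp1 i hip
      nlinarith [mul_nonneg (neg_nonneg.2 gj) N1, mul_nonneg gi N2]
    · -- both negative
      have s1 := free_sum h (m + 2 - 2 * (j - 1)).toNat (j - 1) (by omega)
      have s2 := free_sum h (m + 2 - 2 * (i - 1)).toNat (i - 1) (by omega)
      have e1 : j - 1 + 1 = j := by ring
      have e2 : i - 1 + 1 = i := by ring
      have e3 : m + 2 - (j - 1) = m + 3 - j := by ring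
      have e4 : m + 2 - (i - 1) = m + 3 - i := by ring
      rw [e1, e3] at s1
      rw [e2, e4] at s2
      have key : -(a i - o (i - 1)) * nxt 1 1 a o (j - 1) ≤
          -(a j - o (j - 1)) * nxt 1 1 a o (i - 1) := by
        rw [s1, s2, Finset.mul_sum]
        have step1 : ∑ t ∈ Finset.Icc j (m + 3 - j), -(a i - o (i - 1)) * -(a t - o (t - 1)) ≤
            ∑ t ∈ Finset.Icc j (m + 3 - j),
              -(a j - o (j - 1)) * -(a (t - (j - i)) - o (t - (j - i) - 1)) := by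
          refine Finset.sum_le_sum fun t ht => ?_
          rw [Finset.mem_Icc] at ht
          have := hp3 i j (t - j) hip hij.le (by omega)
          have e5 : j + (t - j) = t := by ring
          have e6 : i + (t - j) = t - (j - i) := by ring
          rw [e5, e6] at this
          linarith
        refine le_trans step1 ?_
        rw [← Finset.mul_sum]
        refine mul_le_mul_of_nonneg_left ?_ (by linarith)
        have step2 : ∑ t ∈ Finset.Icc j (m + 3 - j), -(a (t - (j - i)) - o (t - (j - i) - 1)) =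
            ∑ t ∈ (Finset.Icc j (m + 3 - j)).image (fun t => t - (j - i)),
              -(a t - o (t - 1)) := by
          rw [Finset.sum_image]
          intro x _ y _ hxy
          simp only at hxy
          omega
        rw [step2]
        refine Finset.sum_le_sum_of_subset_of_nonneg ?_ ?_
        · intro t ht
          rw [Finset.mem_image] at ht
          obtain ⟨u, hu, rfl⟩ := ht
          rw [Finset.mem_Icc] at hu ⊢
          omega
        · intro t ht _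
          rw [Finset.mem_Icc] at ht
          have := hp2 t (by omega)
          linarith
      linarith

theorem inv_step (h : Inv m a o) (hs : s = 1 ∨ s = -1) (hk : 1 ≤ k) :
    Inv (m + 1) (nxt k s a o) a where
  hm := by have := h.hm; linarith
  za i hi := by
    unfold nxt
    rw [h.za i hi, h.za (i - 1) (by omega), h.zo (i - 1) (by omega)]
    ring
  zo := h.za
  anta := nxt_anta h
  anto := h.anta
  na i hi := nxt_nonneg h hs hk (by omega)
  no i hi := h.na i hi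
  ne i hi := nxt_ge h hs hk hi
  r1 := step_r1 h hs hk
  r2 := h.r3
  r4 i j hij hj := by
    by_cases hkick : (s = 1 ∧ 2 ≤ k) ∨ (s = -1 ∧ 1 ≤ k)
    · exact kick_r4 h hkick i j hij (by omega)
    · have h1 : s = 1 := by
        rcases hs with h1 | h1
        · exact h1
        · exact absurd (Or.inr ⟨h1, hk⟩) hkick
      have h2 : k = 1 := by
        by_contra h3
        exact hkick (Or.inl ⟨h1, by omega⟩)
      subst h1 h2
      have := h.r4 (i - 1) (j - 1) (by omega) (by omega)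
      have g1 : ∀ x, nxt 1 1 a o x - a x = a (x - 1) - o (x - 1) := by
        intro x; unfold nxt; ring
      rw [g1, g1, g1, g1]
      exact this
  r1' i j hij hj := step_r1' h hs hk i j hij (by omega)
  r3 i j hij hj := step_r3 h hs hk i j hij (by omega)
  r5 i j hij hj := by
    by_cases hkick : (s = 1 ∧ 2 ≤ k) ∨ (s = -1 ∧ 1 ≤ k)
    · exact kick_r5 h hkick i j hij (by omega)
    · have h1 : s = 1 := by
        rcases hs with h1 | h1
        · exact h1
        · exact absurd (Or.inr ⟨h1, hk⟩) hkick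
      have h2 : k = 1 := by
        by_contra h3
        exact hkick (Or.inl ⟨h1, by omega⟩)
      subst h1 h2
      exact free_r5 h i j hij (by omega)
  r6 i j hij hj := step_r6 h hs hk i j hij (by omega)
  gn := by
    by_cases hkick : (s = 1 ∧ 2 ≤ k) ∨ (s = -1 ∧ 1 ≤ k)
    · exact kick_gn h hkick
    · have h1 : s = 1 := by
        rcases hs with h1 | h1
        · exact h1
        · exact absurd (Or.inr ⟨h1, hk⟩) hkick
      have h2 : k = 1 := by
        by_contra h3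
        exact hkick (Or.inl ⟨h1, by omega⟩)
      subst h1 h2
      have g1 : ∀ x, nxt 1 1 a o x - a (x - 1) = a x - o (x - 1) := by
        intro x; unfold nxt; ring
      simp only [g1]
      exact h.gn

end Inv

/-- the start -/
theorem inv_zero : Inv 0 (fun i => if i = 0 then 1 else if i = 1 then -1 else 0) (fun _ => 0) := by
  have z : ∀ i : ℤ, i < 0 → (if i = 0 then (1:ℤ) else if i = 1 then -1 else 0) = 0 := by
    intro i hi
    rw [if_neg (by omega), if_neg (by omega)]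
  refine
  { hm := le_refl _
    za := z
    zo := fun i hi => rfl
    anta := ?_
    anto := ?_
    na := ?_
    no := fun i hi => le_refl _
    ne := ?_
    r1 := ?_
    r2 := ?_
    r4 := ?_
    r1' := ?_
    r3 := ?_
    r5 := ?_
    r6 := ?_
    gn := ?_ }
  · intro i
    show (if (0:ℤ) + 1 - i = 0 then (1:ℤ) else if (0:ℤ) + 1 - i = 1 then -1 else 0) =
      - (if i = 0 then (1:ℤ) else if i = 1 then -1 else 0)
    split_ifs <;> omega
  · intro i; simp
  · intro i hi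
    show 0 ≤ (if i = 0 then (1:ℤ) else if i = 1 then -1 else 0)
    split_ifs <;> omega
  · intro i hi
    show 0 ≤ (if i = 0 then (1:ℤ) else if i = 1 then -1 else 0)
    split_ifs <;> omega
  · intro i j hij hj; simp
  · intro i j hij hj; simp
  · intro i j hij hj
    rw [z i (by omega), z (i - 1) (by omega)]
    simp
  · intro i j hij hj; simp
  · intro i j hij hj
    rw [z i (by omega), z (i - 1) (by omega)]
    simp
  · intro i j hij hj
    rw [z i (by omega), z (i - 1) (by omega)]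
    simp
  · intro i j hij hj
    rw [z i (by omega), z (i - 1) (by omega)]
    simp
  · refine ⟨0, fun x hx => ?_, fun x hx => ?_, fun i j s hi hij hs => ?_⟩
    · show 0 ≤ (if x = 0 then (1:ℤ) else if x = 1 then -1 else 0) - 0
      split_ifs <;> omega
    · show (if x = 0 then (1:ℤ) else if x = 1 then -1 else 0) - 0 ≤ 0
      split_ifs <;> omega
    · simp only [sub_zero]
      rcases eq_or_lt_of_le hs with h1 | h1
      · rw [← h1, add_zero, add_zero, mul_comm]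
      · have e1 : (if j + s = 0 then (1:ℤ) else if j + s = 1 then -1 else 0) = 0 := by
          rw [if_neg (by omega), if_neg (by omega)]
        have e2 : (if i + s = 0 then (1:ℤ) else if i + s = 1 then -1 else 0) = 0 := by
          rw [if_neg (by omega), if_neg (by omega)]
        rw [e1, e2, mul_zero, mul_zero]

end Pool.Agent.V11205.TP
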