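import Mathlib

/-! # Seifert matrices of linear plumbings and their polynomials -/

set_option autoImplicit false

namespace Pool.Agent.V11205.TwoBridge

open Polynomial

/-- The Seifert matrix of the linear plumbing of `m` annuli with `b 0, …, b (m-1)` full twists:
`b i` on the diagonal, `1` just above the diagonal, `0` elsewhere. The boundary of this plumbing
is the two-bridge link with even continued fraction `2 b₀, …, 2 b_{m-1}` (up to signs); all
two-bridge links, and for even `m` all two-bridge knots, arise with nonzero `b i`. -/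
def seifertMatrix {m : ℕ} (b : Fin m → ℤ) : Matrix (Fin m) (Fin m) ℤ :=
  Matrix.of fun i j => if i = j then b i else if (i : ℕ) + 1 = (j : ℕ) then 1 else 0

/-- The Alexander polynomial `det (V - t Vᵀ)` of a Seifert matrix `V`. -/
noncomputable def alexander {m : ℕ} (V : Matrix (Fin m) (Fin m) ℤ) : ℤ[X] :=
  (V.map (C : ℤ → ℤ[X]) - (X : ℤ[X]) • (V.transpose).map (C : ℤ → ℤ[X])).det

/-- The Fibonacci polynomials `f₀ = 0`, `f₁ = 1`, `f_{j+2} = z f_{j+1} + f_j`. -/
noncomputable def fibPoly : ℕ → ℚ[X]
  | 0 => 0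
  | 1 => 1
  | (j + 2) => X * fibPoly (j + 1) + fibPoly j

/-- `P` is the Conway polynomial of the Seifert matrix `V`: after the substitution
`z = x - x⁻¹` it is `det (x V - x⁻¹ Vᵀ)`. (It is unique, as `x - x⁻¹` takes infinitely many
values.) -/
def IsConway {m : ℕ} (V : Matrix (Fin m) (Fin m) ℤ) (P : ℚ[X]) : Prop :=
  ∀ x : ℚ, x ≠ 0 → P.eval (x - x⁻¹) =
    (x • V.map (Int.cast : ℤ → ℚ) - x⁻¹ • V.transpose.map (Int.cast : ℤ → ℚ)).det

end Pool.Agent.V11205.TwoBridge
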