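import Mathlib
import Pool.Agent.V11205.ContinuantTP
import Pool.Agent.V11205.SeifertDefs

/-! # The Alexander polynomials of linear plumbings of annuli -/

set_option autoImplicit false

namespace Pool.Agent.V11205.TwoBridge

open Polynomial Pool.Agent.V11205.TP

/-- the matrix `V - t Vᵀ` -/
noncomputable def mat {m : ℕ} (b : Fin m → ℤ) : Matrix (Fin m) (Fin m) ℤ[X] :=
  Matrix.of fun i j => if i = j then C (b i) * (1 - X) else
    if (i : ℕ) + 1 = (j : ℕ) then 1 else if (j : ℕ) + 1 = (i : ℕ) then -X else 0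

theorem alexander_eq {m : ℕ} (b : Fin m → ℤ) : alexander (seifertMatrix b) = (mat b).det := by
  unfold alexander
  congr 1
  ext1 i j
  simp only [Matrix.sub_apply, Matrix.map_apply, Matrix.smul_apply, Matrix.transpose_apply,
    seifertMatrix, Matrix.of_apply, mat, smul_eq_mul]
  by_cases hij : i = j
  · subst hij
    simp
    ring
  · have hji : ¬ j = i := fun h => hij h.symm
    rw [if_neg hij, if_neg hji, if_neg hij]
    by_cases h1 : (i : ℕ) + 1 = j
    · have h2 : ¬ ((j : ℕ) + 1 = i) := by omega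
      rw [if_pos h1, if_neg h2, if_pos h1]
      simp
    · rw [if_neg h1, if_neg h1]
      by_cases h2 : (j : ℕ) + 1 = i
      · rw [if_pos h2, if_pos h2]; simp
      · rw [if_neg h2, if_neg h2]; simp

theorem mat_succ_succ {m : ℕ} (b : Fin (m + 1) → ℤ) :
    (mat b).submatrix Fin.succ Fin.succ = mat (fun i => b i.succ) := by
  ext1 i j
  simp only [Matrix.submatrix_apply, mat, Matrix.of_apply, Fin.succ_inj, Fin.val_succ,
    Nat.add_right_cancel_iff]

theorem det_mat_zero (b : Fin 0 → ℤ) : (mat b).det = 1 := Matrix.det_fin_zero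

theorem det_mat_one (b : Fin 1 → ℤ) : (mat b).det = C (b 0) * (1 - X) := by
  rw [Matrix.det_fin_one]
  simp [mat]

theorem det_mat_succ {m : ℕ} (b : Fin (m + 2) → ℤ) :
    (mat b).det = C (b 0) * (1 - X) * (mat (fun i : Fin (m + 1) => b i.succ)).det +
      X * (mat (fun i : Fin m => b i.succ.succ)).det := by
  rw [Matrix.det_succ_row_zero, Fin.sum_univ_succ, Fin.sum_univ_succ]
  have h0 : (mat b) 0 0 = C (b 0) * (1 - X) := by simp [mat]
  have h1 : (mat b) 0 (Fin.succ 0) = 1 := by simp [mat, Matrix.of_apply]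
  have hrest : ∑ i : Fin m, (-1 : ℤ[X]) ^ ((Fin.succ (Fin.succ i) : Fin (m + 2)) : ℕ) *
      mat b 0 (Fin.succ (Fin.succ i)) *
      ((mat b).submatrix Fin.succ ((Fin.succ (Fin.succ i)).succAbove)).det = 0 := by
    refine Finset.sum_eq_zero fun i _ => ?_
    have : mat b 0 (Fin.succ (Fin.succ i)) = 0 := by
      simp [mat, Matrix.of_apply, Fin.ext_iff]
    rw [this]; ring
  rw [hrest, h0, h1]
  have hA : ((mat b).submatrix Fin.succ (Fin.succAbove 0)) = mat (fun i => b i.succ) := by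
    rw [Fin.succAbove_zero]
    exact mat_succ_succ b
  rw [hA]
  have hB : ((mat b).submatrix Fin.succ ((Fin.succ 0 : Fin (m + 2)).succAbove)).det =
      - X * (mat (fun i : Fin m => b i.succ.succ)).det := by
    rw [Matrix.det_succ_column_zero, Fin.sum_univ_succ]
    have hr : ∑ i : Fin m, (-1 : ℤ[X]) ^ ((Fin.succ i : Fin (m + 1)) : ℕ) *
        ((mat b).submatrix Fin.succ ((Fin.succ 0 : Fin (m + 2)).succAbove)) (Fin.succ i) 0 *
        (((mat b).submatrix Fin.succ ((Fin.succ 0 : Fin (m + 2)).succAbove)).submatrix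
          ((Fin.succ i).succAbove) Fin.succ).det = 0 := by
      refine Finset.sum_eq_zero fun i _ => ?_
      have : ((mat b).submatrix Fin.succ ((Fin.succ 0 : Fin (m + 2)).succAbove)) (Fin.succ i) 0
          = 0 := by
        simp [mat, Matrix.of_apply, Fin.ext_iff]
      rw [this]; ring
    rw [hr]
    have h2 : ((mat b).submatrix Fin.succ ((Fin.succ 0 : Fin (m + 2)).succAbove)) 0 0 = - X := by
      simp [mat, Matrix.of_apply, Fin.ext_iff]
    have h3 : (((mat b).submatrix Fin.succ ((Fin.succ 0 : Fin (m + 2)).succAbove)).submatrix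
          (Fin.succAbove 0) Fin.succ) = mat (fun i : Fin m => b i.succ.succ) := by
      rw [Matrix.submatrix_submatrix, Fin.succAbove_zero]
      have : ((Fin.succ 0 : Fin (m + 2)).succAbove ∘ Fin.succ) =
          (Fin.succ ∘ Fin.succ : Fin m → Fin (m + 2)) := by
        funext i
        simp [Fin.succAbove, Fin.lt_def]
      rw [this]
      ext1 i j
      simp only [Matrix.submatrix_apply, mat, Matrix.of_apply, Fin.succ_inj, Fin.val_succ,
        Nat.add_right_cancel_iff, Function.comp_apply]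
    rw [h2, h3]
    simp
  rw [hB]
  simp


/-- coefficients of `p (- X)` indexed by the integers -/
noncomputable def cf (p : ℤ[X]) (i : ℤ) : ℤ :=
  if 0 ≤ i then (-1) ^ i.toNat * p.coeff i.toNat else 0

theorem cf_add (p q : ℤ[X]) (i : ℤ) : cf (p + q) i = cf p i + cf q i := by
  unfold cf
  split_ifs
  · rw [coeff_add]; ring
  · simp

theorem cf_C_mul (c : ℤ) (p : ℤ[X]) (i : ℤ) : cf (C c * p) i = c * cf p i := by
  unfold cf
  split_ifs
  · rw [coeff_C_mul]; ring
  · simp

theorem cf_X_mul (p : ℤ[X]) (i : ℤ) : cf (X * p) i = - cf p (i - 1) := by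
  unfold cf
  by_cases h : 0 ≤ i
  · obtain ⟨n, rfl⟩ := Int.eq_ofNat_of_zero_le h
    cases n with
    | zero => simp
    | succ n =>
      have h1 : (0:ℤ) ≤ ((n + 1 : ℕ) : ℤ) - 1 := by push_cast; omega
      have h2 : (((n + 1 : ℕ) : ℤ) - 1).toNat = n := by push_cast; omega
      have h3 : (((n + 1 : ℕ) : ℤ)).toNat = n + 1 := by omega
      rw [if_pos h, if_pos h1, h2, h3, coeff_X_mul, pow_succ]
      ring
  · rw [if_neg h, if_neg (by omega)]; simp

theorem cf_one (i : ℤ) : cf 1 i = if i = 0 then 1 else 0 := by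
  unfold cf
  by_cases h : 0 ≤ i
  · obtain ⟨n, rfl⟩ := Int.eq_ofNat_of_zero_le h
    rw [if_pos h]
    cases n with
    | zero => simp
    | succ n =>
      have h3 : (((n + 1 : ℕ) : ℤ)).toNat = n + 1 := by omega
      have h4 : ¬ (((n + 1 : ℕ) : ℤ) = 0) := by push_cast; omega
      rw [h3, if_neg h4, coeff_one, if_neg (by omega), mul_zero]
  · rw [if_neg h, if_neg (by omega)]

/-- normalised difference sequence -/
noncomputable def F {m : ℕ} (b : Fin m → ℤ) (i : ℤ) : ℤ :=
  Int.sign (∏ j, b j) * (cf (mat b).det i - cf (mat b).det (i - 1))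

theorem sign_mul_self' {x : ℤ} (hx : x ≠ 0) : Int.sign x * Int.sign x = 1 := by
  rcases lt_or_gt_of_ne hx with h | h
  · rw [Int.sign_eq_neg_one_of_neg h]; norm_num
  · rw [Int.sign_eq_one_of_pos h]; norm_num

theorem F_zero (b : Fin 0 → ℤ) :
    F b = fun i => if i = 0 then 1 else if i = 1 then -1 else 0 := by
  funext i
  unfold F
  rw [det_mat_zero, cf_one, cf_one]
  simp only [Finset.univ_eq_empty, Finset.prod_empty, Int.sign_one, one_mul]
  split_ifs <;> omega

theorem F_one (b : Fin 1 → ℤ) :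
    F b = Inv.nxt |b 0| 1 (fun i => if i = 0 then 1 else if i = 1 then -1 else 0)
      (fun _ => 0) := by
  funext i
  unfold F Inv.nxt
  rw [det_mat_one]
  have h1 : ∀ i : ℤ, cf (C (b 0) * (1 - X)) i = b 0 * (cf 1 i + cf 1 (i - 1)) := by
    intro i
    rw [cf_C_mul, sub_eq_add_neg, cf_add]
    have h2 : (-X : ℤ[X]) = C (-1) * (X * 1) := by simp
    rw [h2, cf_C_mul, cf_X_mul]
    ring
  rw [h1, h1]
  have h3 : Int.sign (∏ j, b j) * b 0 = |b 0| := by
    rw [Fin.prod_univ_one]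
    rw [mul_comm]
    exact Int.mul_sign_self (b 0) |>.trans (Int.natCast_natAbs _)
  have h4 : Int.sign (∏ j, b j) * (b 0 * (cf 1 i + cf 1 (i - 1)) -
      b 0 * (cf 1 (i - 1) + cf 1 (i - 1 - 1))) =
      |b 0| * ((cf 1 i - cf 1 (i - 1)) + (cf 1 (i - 1) - cf 1 (i - 1 - 1))) := by
    rw [← h3]; ring
  rw [h4]
  have h5 : ∀ i : ℤ, cf 1 i - cf 1 (i - 1) = if i = 0 then 1 else if i = 1 then -1 else 0 := by
    intro i
    rw [cf_one, cf_one]
    split_ifs <;> omega
  rw [h5, h5]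
  simp

theorem F_succ {m : ℕ} (b : Fin (m + 2) → ℤ) (hb : ∀ i, b i ≠ 0) :
    F b = Inv.nxt |b 0| (Int.sign (b 0) * Int.sign (b 1))
      (F fun i : Fin (m + 1) => b i.succ) (F fun i : Fin m => b i.succ.succ) := by
  funext i
  unfold F Inv.nxt
  rw [det_mat_succ]
  set P := (mat fun i : Fin (m + 1) => b i.succ).det
  set Q := (mat fun i : Fin m => b i.succ.succ).det
  have h1 : ∀ i : ℤ, cf (C (b 0) * (1 - X) * P + X * Q) i =
      b 0 * (cf P i + cf P (i - 1)) - cf Q (i - 1) := by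
    intro i
    rw [cf_add, cf_X_mul, mul_assoc, cf_C_mul]
    have h2 : (1 - X) * P = P + C (-1) * (X * P) := by simp; ring
    rw [h2, cf_add, cf_C_mul, cf_X_mul]
    ring
  rw [h1, h1]
  rw [Fin.prod_univ_succ b, Int.sign_mul, Fin.prod_univ_succ (fun i : Fin (m + 1) => b i.succ),
    Int.sign_mul]
  have hb1 : b (Fin.succ 0) = b 1 := rfl
  rw [hb1]
  set σ := Int.sign (∏ i : Fin m, b i.succ.succ)
  have hσ : σ * σ = 1 := sign_mul_self' (Finset.prod_ne_zero_iff.2 fun i _ => hb _)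
  have h0 : Int.sign (b 0) * b 0 = |b 0| := by
    rw [mul_comm]; exact Int.mul_sign_self (b 0) |>.trans (Int.natCast_natAbs _)
  have h1' : Int.sign (b 1) * Int.sign (b 1) = 1 := sign_mul_self' (hb 1)
  rw [← h0]
  ring

theorem F_inv {m : ℕ} (b : Fin (m + 1) → ℤ) (hb : ∀ i, b i ≠ 0) :
    Inv ((m : ℤ) + 1) (F b) (F fun i : Fin m => b i.succ) ∧ 0 < F b 0 := by
  induction m with
  | zero =>
    rw [F_one b, F_zero]
    constructor
    · have := inv_zero.inv_step (k := |b 0|) (s := 1) (Or.inl rfl)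
        (Int.one_le_abs (hb 0))
      simpa using this
    · unfold Inv.nxt
      have := abs_pos.2 (hb 0)
      norm_num
      exact hb 0
  | succ m ih =>
    obtain ⟨h1, h2⟩ := ih (fun i => b i.succ) (fun i => hb _)
    rw [F_succ b hb]
    have hk : 1 ≤ |b 0| := Int.one_le_abs (hb 0)
    constructor
    · have hs : Int.sign (b 0) * Int.sign (b 1) = 1 ∨ Int.sign (b 0) * Int.sign (b 1) = -1 := by
        rcases lt_or_gt_of_ne (hb 0) with h | h <;> rcases lt_or_gt_of_ne (hb 1) with h' | h' <;>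
          simp [Int.sign_eq_neg_one_of_neg, Int.sign_eq_one_of_pos, h, h']
      have := h1.inv_step hs hk
      push_cast
      exact this
    · unfold Inv.nxt
      rw [h1.za (0 - 1) (by norm_num), h1.zo (0 - 1) (by norm_num)]
      nlinarith

/-- normalised coefficient sequence -/
noncomputable def S {m : ℕ} (b : Fin m → ℤ) (i : ℤ) : ℤ :=
  Int.sign (∏ j, b j) * cf (mat b).det i

theorem S_sub {m : ℕ} (b : Fin m → ℤ) (i : ℤ) : S b i - S b (i - 1) = F b i := by
  unfold S F; ring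

theorem S_neg {m : ℕ} (b : Fin m → ℤ) (i : ℤ) (hi : i < 0) : S b i = 0 := by
  unfold S cf
  rw [if_neg (by omega), mul_zero]

theorem S_large {m : ℕ} (b : Fin m → ℤ) : ∃ N : ℤ, ∀ i, N < i → S b i = 0 := by
  refine ⟨((mat b).det.natDegree : ℤ), fun i hi => ?_⟩
  unfold S cf
  have h : (mat b).det.natDegree < i.toNat := by omega
  split_ifs
  · rw [coeff_eq_zero_of_natDegree_lt h]; ring
  · ring

theorem F_inv' {m : ℕ} (hm : 0 < m) (b : Fin m → ℤ) (hb : ∀ i, b i ≠ 0) :
    (∃ o, Inv (m : ℤ) (F b) o) ∧ 0 < F b 0 := by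
  obtain ⟨m, rfl⟩ : ∃ k, m = k + 1 := ⟨m - 1, by omega⟩
  obtain ⟨h1, h2⟩ := F_inv b hb
  exact ⟨⟨_, by push_cast; exact h1⟩, h2⟩

theorem S_symm {m : ℕ} (b : Fin m → ℤ) {o : ℤ → ℤ} (h : Inv (m : ℤ) (F b) o) (i : ℤ) :
    S b (m - i) = S b i := by
  have hstep : ∀ i : ℤ, S b (m - i) - S b i = S b (m - (i - 1)) - S b (i - 1) := by
    intro i
    have h1 := S_sub b i
    have h2 := S_sub b (m - (i - 1))
    have e1 : (m : ℤ) - (i - 1) - 1 = m - i := by ring
    have e2 : (m : ℤ) - (i - 1) = m + 1 - i := by ring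
    rw [e1] at h2
    have h3 := h.anta i
    rw [← e2] at h3
    linarith
  obtain ⟨N, hN⟩ := S_large b
  have hconst : ∀ n : ℕ, S b (m - i) - S b i = S b (m - (i - n)) - S b (i - n) := by
    intro n
    induction n with
    | zero => simp
    | succ n ih =>
      rw [ih, hstep (i - n)]
      push_cast
      have e : i - (n : ℤ) - 1 = i - (n + 1) := by ring
      rw [e]
  have hbig : ∃ n : ℕ, i - n < 0 ∧ N < m - (i - n) := by
    refine ⟨(|i| + |N| + 1).toNat, ?_, ?_⟩
    · have := le_abs_self i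
      have := abs_nonneg N
      omega
    · have := le_abs_self i
      have := le_abs_self N
      omega
  obtain ⟨n, hn1, hn2⟩ := hbig
  have := hconst n
  rw [S_neg b _ hn1, hN _ hn2] at this
  linarith

theorem S_pos_half {m : ℕ} (b : Fin m → ℤ) {o : ℤ → ℤ} (h : Inv (m : ℤ) (F b) o)
    (h0 : 0 < F b 0) (n : ℕ) (hn : 2 * (n : ℤ) ≤ m + 1) : 0 < S b n := by
  induction n with
  | zero =>
    have h1 := S_sub b 0
    rw [S_neg b (0 - 1) (by norm_num)] at h1
    push_cast
    linarith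
  | succ n ih =>
    have h1 := S_sub b ((n + 1 : ℕ) : ℤ)
    have e : ((n + 1 : ℕ) : ℤ) - 1 = n := by push_cast; ring
    rw [e] at h1
    have h2 := h.na ((n + 1 : ℕ) : ℤ) hn
    have h3 := ih (by push_cast at hn; omega)
    linarith

theorem S_pos {m : ℕ} (b : Fin m → ℤ) {o : ℤ → ℤ} (h : Inv (m : ℤ) (F b) o)
    (h0 : 0 < F b 0) (i : ℤ) (hi : 0 ≤ i) (him : i ≤ m) : 0 < S b i := by
  rcases le_or_gt (2 * i) m with h1 | h1
  · obtain ⟨n, rfl⟩ := Int.eq_ofNat_of_zero_le hi
    exact S_pos_half b h h0 n (by omega)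
  · rw [← S_symm b h]
    obtain ⟨n, hn⟩ := Int.eq_ofNat_of_zero_le (show 0 ≤ (m : ℤ) - i by omega)
    rw [hn]
    exact S_pos_half b h h0 n (by omega)

theorem S_above {m : ℕ} (b : Fin m → ℤ) {o : ℤ → ℤ} (h : Inv (m : ℤ) (F b) o)
    (i : ℤ) (him : m < i) : S b i = 0 := by
  rw [← S_symm b h]
  exact S_neg b _ (by omega)

/-- once the differences drop they keep dropping up to the middle -/
theorem F_drop {m : ℕ} (b : Fin m → ℤ) {o : ℤ → ℤ} (h : Inv (m : ℤ) (F b) o)
    (i j : ℤ) (hij : i ≤ j) (hj : 2 * j ≤ m + 1) (hd : F b i < F b (i - 1)) :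
    F b j ≤ F b (j - 1) := by
  rcases eq_or_lt_of_le hij with rfl | hlt
  · exact hd.le
  · have h1 := h.r3 i j hlt hj
    have h2 := h.na i (by omega)
    have h3 := h.na (j - 1) (by omega)
    have h4 : F b i * F b (j - 1) ≤ F b (i - 1) * F b (j - 1) :=
      mul_le_mul_of_nonneg_right hd.le h3
    have h5 : 0 < F b (i - 1) := by linarith
    have h6 : F b (i - 1) * F b j ≤ F b (i - 1) * F b (j - 1) := by linarith
    exact le_of_mul_le_mul_left h6 h5

/-- the differences are unimodal up to the middle -/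
theorem F_peak {m : ℕ} (b : Fin m → ℤ) {o : ℤ → ℤ} (h : Inv (m : ℤ) (F b) o) (q : ℕ)
    (hq : 2 * (q : ℤ) ≤ m + 1) :
    ∃ p : ℕ, 1 ≤ p ∧ p ≤ q + 1 ∧ (∀ i : ℤ, 2 ≤ i → i ≤ p - 1 → F b (i - 1) ≤ F b i) ∧
      (∀ i : ℤ, p ≤ i → 2 ≤ i → i ≤ q → F b i ≤ F b (i - 1)) ∧ (2 ≤ p ∨ q = 0) := by
  by_cases hex : ∃ i : ℕ, 2 ≤ i ∧ i ≤ q ∧ F b i < F b ((i : ℤ) - 1)
  · classical
    set p := Nat.find hex
    obtain ⟨h1, h2, h3⟩ := Nat.find_spec hex
    refine ⟨p, by omega, by omega, ?_, ?_, Or.inl h1⟩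
    · intro i hi2 hip
      obtain ⟨n, rfl⟩ := Int.eq_ofNat_of_zero_le (show 0 ≤ i by omega)
      have hlt : n < p := by omega
      have := Nat.find_min hex hlt
      push Not at this
      exact this (by omega) (by omega)
    · intro i hi hi2 hiq
      exact F_drop b h p i hi (by omega) h3
  · push Not at hex
    refine ⟨q + 1, by omega, le_rfl, ?_, ?_, by omega⟩
    · intro i hi2 hip
      obtain ⟨n, rfl⟩ := Int.eq_ofNat_of_zero_le (show 0 ≤ i by omega)
      push_cast at hip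
      exact hex n (by omega) (by omega)
    · intro i hi hi2 hiq
      push_cast at hi
      omega

/-- the main theorem -/
theorem main (n : ℕ) (b : Fin (2 * n) → ℤ) (hb : ∀ i, b i ≠ 0) :
    ∃ (a : ℕ → ℤ) (ε : ℤ), (ε = 1 ∨ ε = -1) ∧ (∀ j ≤ n, 0 < a j) ∧
      (alexander (seifertMatrix b)).natDegree = 2 * n ∧
      (∀ j ≤ n, (alexander (seifertMatrix b)).coeff (n + j) = ε * (-1) ^ j * a j ∧
        (alexander (seifertMatrix b)).coeff (n - j) = ε * (-1) ^ j * a j) ∧
      ∃ k ≤ n, (∀ i, 1 ≤ i → i < k → a (i - 1) + a (i + 1) ≤ 2 * a i) ∧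
        (∀ i, k < i → i < n → 2 * a i ≤ a (i - 1) + a (i + 1)) := by
  rcases Nat.eq_zero_or_pos n with rfl | hn
  · refine ⟨fun _ => 1, 1, Or.inl rfl, fun _ _ => one_pos, ?_, ?_, 0, le_rfl, ?_, ?_⟩
    · rw [alexander_eq, det_mat_zero]; simp
    · intro j hj
      obtain rfl : j = 0 := by omega
      rw [alexander_eq, det_mat_zero]
      simp
    · intro i h1 h2; omega
    · intro i h1 h2; omega
  obtain ⟨⟨o, hI⟩, h0⟩ := F_inv' (m := 2 * n) (by omega) b hb
  set σ := Int.sign (∏ j, b j) with hσdef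
  have hσ : σ * σ = 1 := sign_mul_self' (Finset.prod_ne_zero_iff.2 fun i _ => hb _)
  have hσ1 : σ = 1 ∨ σ = -1 := by
    exact mul_self_eq_one_iff.1 hσ
  have hcoeff : ∀ i : ℕ, (mat b).det.coeff i = σ * (-1) ^ i * S b i := by
    intro i
    have : S b (i : ℤ) = σ * ((-1) ^ i * (mat b).det.coeff i) := by
      unfold S cf
      rw [if_pos (by omega), Int.toNat_natCast]
    rw [this]
    have h1 : ((-1 : ℤ) ^ i) * ((-1) ^ i) = 1 := by
      rw [← mul_pow]; norm_num
    calc (mat b).det.coeff i = (σ * σ) * (((-1 : ℤ) ^ i) * ((-1) ^ i)) * (mat b).det.coeff i := by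
          rw [hσ, h1]; ring
      _ = _ := by ring
  have hsymm : ∀ j : ℕ, j ≤ n → S b ((n + j : ℕ) : ℤ) = S b ((n : ℤ) - j) := by
    intro j hj
    rw [← S_symm b hI]
    congr 1
    push_cast
    ring
  refine ⟨fun j => S b ((n : ℤ) - j), σ * (-1) ^ n, ?_, ?_, ?_, ?_, ?_⟩
  · rcases hσ1 with h | h <;> rcases neg_one_pow_eq_or ℤ n with h' | h' <;> rw [h, h'] <;> simp
  · intro j hj
    exact S_pos b hI h0 _ (by omega) (by push_cast; omega)
  · rw [alexander_eq]
    apply le_antisymm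
    · rw [natDegree_le_iff_coeff_eq_zero]
      intro N hN
      rw [hcoeff, S_above b hI _ (by exact_mod_cast hN), mul_zero]
    · apply le_natDegree_of_ne_zero
      rw [hcoeff]
      have hp := S_pos b hI h0 ((2 * n : ℕ) : ℤ) (by positivity) le_rfl
      have hσ0 : σ ≠ 0 := by rcases hσ1 with h | h <;> rw [h] <;> norm_num
      exact mul_ne_zero (mul_ne_zero hσ0 (pow_ne_zero _ (by norm_num))) hp.ne'
  · intro j hj
    rw [alexander_eq, hcoeff, hcoeff, hsymm j hj]
    have e1 : (((n - j : ℕ)) : ℤ) = (n : ℤ) - j := by push_cast [Nat.cast_sub hj]; ring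
    have e2 : ((-1 : ℤ)) ^ (n - j) = (-1) ^ (n + j) := by
      have : n + j = (n - j) + 2 * j := by omega
      rw [this, pow_add, pow_mul]
      norm_num
    rw [e1, e2, pow_add]
    constructor <;> ring
  · obtain ⟨p, hp1, hp2, hup, hdown, hp3⟩ := F_peak b hI n (by push_cast; omega)
    have hp4 : 2 ≤ p := by omega
    have hd : ∀ i : ℕ, 1 ≤ i → i < n →
        S b ((n : ℤ) - ((i - 1 : ℕ) : ℤ)) + S b ((n : ℤ) - ((i + 1 : ℕ) : ℤ)) -
          2 * S b ((n : ℤ) - (i : ℕ)) = F b ((n : ℤ) - i + 1) - F b ((n : ℤ) - i + 1 - 1) := by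
      intro i hi1 hi2
      have h1 := S_sub b ((n : ℤ) - i + 1)
      have h2 := S_sub b ((n : ℤ) - i + 1 - 1)
      have e1 : (n : ℤ) - ((i - 1 : ℕ) : ℤ) = (n : ℤ) - i + 1 := by
        push_cast [Nat.cast_sub hi1]; ring
      have e2 : (n : ℤ) - ((i + 1 : ℕ) : ℤ) = (n : ℤ) - i + 1 - 1 - 1 := by push_cast; ring
      have e3 : (n : ℤ) - i = (n : ℤ) - i + 1 - 1 := by ring
      rw [e1, e2]
      nth_rewrite 3 [e3]
      linarith
    refine ⟨n + 1 - p, by omega, ?_, ?_⟩
    · intro i hi1 hi2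
      have h1 := hd i hi1 (by omega)
      have h2 := hdown ((n : ℤ) - i + 1) (by omega) (by omega) (by omega)
      dsimp only
      linarith
    · intro i hi1 hi2
      have h1 := hd i (by omega) hi2
      have h2 := hup ((n : ℤ) - i + 1) (by omega) (by omega)
      dsimp only
      linarith

end Pool.Agent.V11205.TwoBridge
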