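import Mathlib
import Pool.Agent.V11205.TwoBridge

/-! # Conway polynomials of linear plumbings in the Fibonacci basis -/

set_option autoImplicit false

namespace Pool.Agent.V11205.TwoBridge

open Polynomial Pool.Agent.V11205.TP

theorem fib_eval (x y : ℚ) (hxy : x * y = 1) (j : ℕ) :
    (x + y) * (fibPoly j).eval (x - y) = x ^ j - (-y) ^ j ∧
    (x + y) * (fibPoly (j + 1)).eval (x - y) = x ^ (j + 1) - (-y) ^ (j + 1) := by
  induction j with
  | zero => simp [fibPoly]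
  | succ j ih =>
    refine ⟨ih.2, ?_⟩
    rw [fibPoly, eval_add, eval_mul, eval_X]
    have h1 := ih.1
    have h2 := ih.2
    have h3 : (x + y) * ((x - y) * eval (x - y) (fibPoly (j + 1)) + eval (x - y) (fibPoly j)) =
        (x - y) * (x ^ (j + 1) - (-y) ^ (j + 1)) + (x ^ j - (-y) ^ j) := by
      rw [← h1, ← h2]; ring
    rw [h3]
    have h4 : (x - y) * (x ^ (j + 1) - (-y) ^ (j + 1)) + (x ^ j - (-y) ^ j) =
        (x ^ (j + 1 + 1) - (-y) ^ (j + 1 + 1)) + (1 - x * y) * (x ^ j - (-y) ^ j) := by ring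
    rw [h4, hxy]; ring

theorem det_eq_eval {m : ℕ} (V : Matrix (Fin m) (Fin m) ℤ) (x : ℚ) (hx : x ≠ 0) :
    (x • V.map (Int.cast : ℤ → ℚ) - x⁻¹ • V.transpose.map (Int.cast : ℤ → ℚ)).det =
      x ^ m * (alexander V).eval₂ (Int.castRingHom ℚ) (x⁻¹ ^ 2) := by
  have h1 : (alexander V).eval₂ (Int.castRingHom ℚ) (x⁻¹ ^ 2) =
      (V.map (Int.cast : ℤ → ℚ) - (x⁻¹ ^ 2) • V.transpose.map (Int.cast : ℤ → ℚ)).det := by
    unfold alexander
    rw [← coe_eval₂RingHom, RingHom.map_det]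
    congr 1
    ext1 i j
    simp only [RingHom.mapMatrix_apply, Matrix.map_apply, Matrix.sub_apply, Matrix.smul_apply,
      smul_eq_mul, map_sub, coe_eval₂RingHom, eval₂_mul, eval₂_C, eval₂_X,
      Matrix.transpose_apply, Int.coe_castRingHom]
  rw [h1]
  have h2 := Matrix.det_smul
    (V.map (Int.cast : ℤ → ℚ) - (x⁻¹ ^ 2) • V.transpose.map (Int.cast : ℤ → ℚ)) x
  rw [Fintype.card_fin] at h2
  rw [← h2]
  congr 1
  rw [smul_sub, smul_smul]
  congr 2
  field_simp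

theorem F_at_zero {m : ℕ} (b : Fin m → ℤ) : F b 0 = |∏ j, b j| := by
  have hc : ∀ (m : ℕ) (b : Fin m → ℤ), (mat b).det.coeff 0 = ∏ j, b j := by
    intro m b
    rw [coeff_zero_eq_eval_zero]
    have : eval 0 (mat b).det = ((evalRingHom (0 : ℤ)).mapMatrix (mat b)).det := by
      rw [← RingHom.map_det]; rfl
    rw [this, Matrix.det_of_isUpperTriangular]
    · simp [mat]
    · intro i j hij
      simp only [id] at hij
      have h1 : ¬ i = j := ne_of_gt hij
      have h2 : ¬ ((i : ℕ) + 1 = j) := by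
        have : (j : ℕ) < i := hij
        omega
      simp only [RingHom.mapMatrix_apply, Matrix.map_apply, mat, Matrix.of_apply, if_neg h1,
        if_neg h2]
      split_ifs <;> simp
  unfold F cf
  rw [if_pos le_rfl, if_neg (by norm_num), Int.toNat_zero, hc]
  rw [pow_zero, one_mul, sub_zero, mul_comm]
  exact Int.mul_sign_self _ |>.trans (Int.natCast_natAbs _)

theorem sum_split (T : ℕ → ℚ) (m : ℕ) (hmid : ∀ q, 2 * q = m + 1 → T q = 0) :
    ∑ i ∈ Finset.range (m + 2), T i =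
      ∑ i ∈ Finset.range (m / 2 + 1), (T i + T (m + 1 - i)) := by
  rcases Nat.even_or_odd' m with ⟨q, rfl | rfl⟩
  · have e1 : 2 * q + 2 = (q + 1) + (q + 1) := by ring
    have e2 : 2 * q / 2 + 1 = q + 1 := by omega
    rw [e1, e2, Finset.sum_range_add, Finset.sum_add_distrib]
    congr 1
    rw [← Finset.sum_range_reflect]
    refine Finset.sum_congr rfl fun i hi => ?_
    have := Finset.mem_range.1 hi
    congr 1
    omega
  · have e1 : 2 * q + 1 + 2 = (q + 1) + (1 + (q + 1)) := by ring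
    have e2 : (2 * q + 1) / 2 + 1 = q + 1 := by omega
    rw [e1, e2, Finset.sum_range_add, Finset.sum_add_distrib]
    congr 1
    rw [Finset.sum_range_add, Finset.sum_range_one, add_zero, hmid (q + 1) (by ring), zero_add]
    rw [← Finset.sum_range_reflect]
    refine Finset.sum_congr rfl fun i hi => ?_
    have := Finset.mem_range.1 hi
    congr 1
    omega

theorem fib_identity {m : ℕ} (b : Fin m → ℤ) {o : ℤ → ℤ} (h : Inv (m : ℤ) (F b) o)
    (x y : ℚ) (hxy : x * y = 1) :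
    (x + y) * (x ^ m * ∑ i ∈ Finset.range (m + 1), (-1 : ℚ) ^ i * (S b i : ℚ) * (y ^ 2) ^ i) =
      (x + y) * (∑ i ∈ Finset.range (m / 2 + 1), (-1 : ℚ) ^ i * (F b i : ℚ) *
        (fibPoly (m + 1 - 2 * i)).eval (x - y)) := by
  set T : ℕ → ℚ := fun i => (-1 : ℚ) ^ i * (F b i : ℚ) * (x ^ (m + 1) * (y ^ 2) ^ i) with hT
  have hleft : (x + y) *
      (x ^ m * ∑ i ∈ Finset.range (m + 1), (-1 : ℚ) ^ i * (S b i : ℚ) * (y ^ 2) ^ i) =
      ∑ i ∈ Finset.range (m + 2), T i := by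
    have h1 : ∑ i ∈ Finset.range (m + 2), T i =
        ∑ i ∈ Finset.range (m + 2), (-1 : ℚ) ^ i * (S b i : ℚ) * (x ^ (m + 1) * (y ^ 2) ^ i) -
        ∑ i ∈ Finset.range (m + 2), (-1 : ℚ) ^ i * (S b ((i : ℤ) - 1) : ℚ) *
          (x ^ (m + 1) * (y ^ 2) ^ i) := by
      rw [← Finset.sum_sub_distrib]
      refine Finset.sum_congr rfl fun i _ => ?_
      rw [hT]
      dsimp only
      rw [← S_sub b i]
      push_cast
      ring
    have h2 : S b ((m + 1 : ℕ) : ℤ) = 0 := S_above b h _ (by push_cast; omega)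
    have h3 : S b (((0 : ℕ) : ℤ) - 1) = 0 := S_neg b _ (by norm_num)
    have h6 : ∑ i ∈ Finset.range (m + 2), (-1 : ℚ) ^ i * (S b i : ℚ) *
        (x ^ (m + 1) * (y ^ 2) ^ i) = ∑ i ∈ Finset.range (m + 1), (-1 : ℚ) ^ i * (S b i : ℚ) *
        (x ^ (m + 1) * (y ^ 2) ^ i) := by
      rw [Finset.sum_range_succ, h2]; push_cast; ring
    have h7 : ∑ i ∈ Finset.range (m + 2), (-1 : ℚ) ^ i * (S b ((i : ℤ) - 1) : ℚ) *
          (x ^ (m + 1) * (y ^ 2) ^ i) = ∑ i ∈ Finset.range (m + 1), (-1 : ℚ) ^ (i + 1) *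
        (S b (((i + 1 : ℕ) : ℤ) - 1) : ℚ) * (x ^ (m + 1) * (y ^ 2) ^ (i + 1)) := by
      rw [Finset.sum_range_succ', h3]; push_cast; ring
    rw [h1, h6, h7]
    have h4 : ∑ i ∈ Finset.range (m + 1), (-1 : ℚ) ^ (i + 1) *
        (S b (((i + 1 : ℕ) : ℤ) - 1) : ℚ) * (x ^ (m + 1) * (y ^ 2) ^ (i + 1)) =
        - (y * x ^ m * (x * y)) *
          ∑ i ∈ Finset.range (m + 1), (-1 : ℚ) ^ i * (S b i : ℚ) * (y ^ 2) ^ i := by
      rw [Finset.mul_sum]
      refine Finset.sum_congr rfl fun i _ => ?_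
      have e : ((i + 1 : ℕ) : ℤ) - 1 = i := by push_cast; ring
      rw [e]
      ring
    have h5 : ∑ i ∈ Finset.range (m + 1), (-1 : ℚ) ^ i * (S b i : ℚ) *
        (x ^ (m + 1) * (y ^ 2) ^ i) = x * x ^ m *
          ∑ i ∈ Finset.range (m + 1), (-1 : ℚ) ^ i * (S b i : ℚ) * (y ^ 2) ^ i := by
      rw [Finset.mul_sum]
      refine Finset.sum_congr rfl fun i _ => ?_
      ring
    rw [h4, h5, hxy]
    ring
  rw [hleft, sum_split T m, Finset.mul_sum]
  · refine Finset.sum_congr rfl fun i hi => ?_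
    have hi' := Finset.mem_range.1 hi
    have hi2 : 2 * i ≤ m := by omega
    have h1 := (fib_eval x y hxy (m + 1 - 2 * i)).1
    have h2 : (x + y) * ((-1 : ℚ) ^ i * (F b i : ℚ) * (fibPoly (m + 1 - 2 * i)).eval (x - y)) =
        (-1 : ℚ) ^ i * (F b i : ℚ) * (x ^ (m + 1 - 2 * i) - (-y) ^ (m + 1 - 2 * i)) := by
      rw [← h1]; ring
    rw [h2, hT]
    dsimp only
    have h3 : F b ((m + 1 - i : ℕ) : ℤ) = - F b i := by
      have := h.anta i
      rw [← this]
      congr 1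
      push_cast [Nat.cast_sub (show i ≤ m + 1 by omega)]
      ring
    rw [h3]
    obtain ⟨r, hr⟩ : ∃ r, m + 1 = 2 * i + r := ⟨m + 1 - 2 * i, by omega⟩
    have e1 : m + 1 - 2 * i = r := by omega
    have e2 : m + 1 - i = i + r := by omega
    rw [e1, e2, hr]
    have h4 : x ^ (2 * i + r) * (y ^ 2) ^ i = x ^ r := by
      calc x ^ (2 * i + r) * (y ^ 2) ^ i = (x * y) ^ (2 * i) * x ^ r := by ring
        _ = x ^ r := by rw [hxy]; ring
    have h5 : x ^ (2 * i + r) * (y ^ 2) ^ (i + r) = y ^ r := by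
      calc x ^ (2 * i + r) * (y ^ 2) ^ (i + r) = (x * y) ^ (2 * i + r) * y ^ r := by ring
        _ = y ^ r := by rw [hxy]; ring
    rw [h4, h5]
    push_cast
    rw [pow_add, neg_pow y r]
    ring
  · intro q hq
    have h1 := h.anta q
    have e : (m : ℤ) + 1 - q = q := by
      have : (2 : ℤ) * q = m + 1 := by exact_mod_cast hq
      linarith
    rw [e] at h1
    have h2 : F b (q : ℤ) = 0 := by linarith
    rw [hT]
    dsimp only
    rw [h2]
    push_cast
    ring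

/-- the differences rise up to some `p` and fall after it, up to the middle -/
theorem F_trapezoid {m : ℕ} (b : Fin m → ℤ) {o : ℤ → ℤ} (h : Inv (m : ℤ) (F b) o) (q : ℕ)
    (hq : 2 * (q : ℤ) ≤ m + 1) :
    ∃ p ≤ q, (∀ i : ℕ, i + 1 ≤ p → F b i ≤ F b ((i + 1 : ℕ) : ℤ)) ∧
      (∀ i : ℕ, p ≤ i → i + 1 ≤ q → F b ((i + 1 : ℕ) : ℤ) ≤ F b i) := by
  have e : ∀ i : ℕ, ((i + 1 : ℕ) : ℤ) - 1 = i := fun i => by push_cast; ring
  by_cases hex : ∃ i : ℕ, i + 1 ≤ q ∧ F b ((i + 1 : ℕ) : ℤ) < F b (i : ℤ)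
  · classical
    obtain ⟨h2, h3⟩ := Nat.find_spec hex
    refine ⟨Nat.find hex, by omega, ?_, ?_⟩
    · intro i hi
      have := Nat.find_min hex (m := i) (by omega)
      push Not at this
      exact this (by omega)
    · intro i hi hiq
      have h4 := F_drop b h ((Nat.find hex + 1 : ℕ) : ℤ) ((i + 1 : ℕ) : ℤ)
        (by push_cast; omega) (by push_cast at hq ⊢; omega) (by rw [e]; exact h3)
      rw [e] at h4
      exact h4
  · push Not at hex
    exact ⟨q, le_rfl, fun i hi => hex i hi, fun i hi hiq => by omega⟩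

/-- the stronger conjecture -/
theorem conway_main (m : ℕ) (b : Fin m → ℤ) (hb : ∀ i, b i ≠ 0) :
    ∃ α : ℕ → ℚ, α 0 = 1 ∧
      IsConway (seifertMatrix b) (C (∏ i, (b i : ℚ)) *
        ∑ i ∈ Finset.range (m / 2 + 1), C ((-1) ^ i * α i) * fibPoly (m + 1 - 2 * i)) ∧
      (∀ i ≤ m / 2, 0 ≤ α i) ∧
      (∀ i, 1 ≤ i → i + 1 ≤ m / 2 → α (i - 1) * α (i + 1) ≤ α i ^ 2) ∧
      ∃ n ≤ m / 2, (∀ i, i + 1 ≤ n → α i ≤ α (i + 1)) ∧
        (∀ i, n ≤ i → i + 1 ≤ m / 2 → α (i + 1) ≤ α i) := by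
  rcases Nat.eq_zero_or_pos m with rfl | hm
  · refine ⟨fun _ => 1, rfl, ?_, fun _ _ => zero_le_one, fun i h1 h2 => by omega, 0, by omega,
      fun i h1 => by omega, fun i _ h1 => by omega⟩
    intro x hx
    simp [fibPoly]
  obtain ⟨⟨o, hI⟩, h0⟩ := F_inv' hm b hb
  have hF0 : (0 : ℚ) < (F b 0 : ℚ) := by exact_mod_cast h0
  refine ⟨fun i => (F b i : ℚ) / (F b 0 : ℚ), ?_, ?_, ?_, ?_, ?_⟩
  · simp only [Nat.cast_zero]
    exact div_self hF0.ne'
  · intro x hx
    have hxy : x * x⁻¹ = 1 := mul_inv_cancel₀ hx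
    have hpos : x + x⁻¹ ≠ 0 := by
      have h1 : (x + x⁻¹) * x = x ^ 2 + 1 := by field_simp
      intro h2
      rw [h2, zero_mul] at h1
      nlinarith [sq_nonneg x]
    rw [det_eq_eval _ _ hx]
    have key := mul_left_cancel₀ hpos (fib_identity b hI x x⁻¹ hxy)
    set σ := Int.sign (∏ j, b j) with hσdef
    have hσ : σ * σ = 1 := sign_mul_self' (Finset.prod_ne_zero_iff.2 fun i _ => hb _)
    have hcoeff : ∀ i : ℕ, (mat b).det.coeff i = σ * (-1) ^ i * S b i := by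
      intro i
      have : S b (i : ℤ) = σ * ((-1) ^ i * (mat b).det.coeff i) := by
        unfold S cf
        rw [if_pos (by omega), Int.toNat_natCast]
      rw [this]
      have h1 : ((-1 : ℤ) ^ i) * ((-1) ^ i) = 1 := by
        rw [← mul_pow]; norm_num
      calc (mat b).det.coeff i = (σ * σ) * (((-1 : ℤ) ^ i) * ((-1) ^ i)) * (mat b).det.coeff i := by
            rw [hσ, h1]; ring
        _ = _ := by ring
    have hdeg : (alexander (seifertMatrix b)).natDegree < m + 1 := by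
      rw [alexander_eq, Nat.lt_succ_iff, natDegree_le_iff_coeff_eq_zero]
      intro N hN
      rw [hcoeff, S_above b hI _ (by exact_mod_cast hN), mul_zero]
    rw [eval₂_eq_sum_range' _ hdeg]
    have hR : ∑ i ∈ Finset.range (m + 1), (Int.castRingHom ℚ)
        ((alexander (seifertMatrix b)).coeff i) * (x⁻¹ ^ 2) ^ i =
        (σ : ℚ) * ∑ i ∈ Finset.range (m + 1), (-1 : ℚ) ^ i * (S b i : ℚ) * (x⁻¹ ^ 2) ^ i := by
      rw [Finset.mul_sum]
      refine Finset.sum_congr rfl fun i _ => ?_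
      rw [alexander_eq, hcoeff, eq_intCast]
      push_cast
      ring
    rw [hR]
    have hprod : (∏ i, (b i : ℚ)) = (σ : ℚ) * (F b 0 : ℚ) := by
      rw [F_at_zero, hσdef]
      have := Int.sign_mul_abs (∏ j, b j)
      rw [← Int.cast_mul, this]
      push_cast
      rfl
    calc eval (x - x⁻¹) (C (∏ i, (b i : ℚ)) *
          ∑ i ∈ Finset.range (m / 2 + 1),
            C ((-1) ^ i * ((F b i : ℚ) / (F b 0 : ℚ))) * fibPoly (m + 1 - 2 * i)) =
          (∏ i, (b i : ℚ)) * ∑ i ∈ Finset.range (m / 2 + 1),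
            ((-1) ^ i * ((F b i : ℚ) / (F b 0 : ℚ))) *
              (fibPoly (m + 1 - 2 * i)).eval (x - x⁻¹) := by
          rw [eval_mul, eval_C, eval_finsetSum]
          simp only [eval_mul, eval_C]
      _ = (σ : ℚ) * ∑ i ∈ Finset.range (m / 2 + 1), (-1 : ℚ) ^ i * (F b i : ℚ) *
        (fibPoly (m + 1 - 2 * i)).eval (x - x⁻¹) := by
          rw [hprod, mul_assoc, Finset.mul_sum]
          congr 1
          refine Finset.sum_congr rfl fun i _ => ?_
          field_simp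
      _ = _ := by rw [← key]; ring
  · intro i hi
    have h1 := hI.na i (by omega)
    have h2 : (0 : ℚ) ≤ (F b i : ℚ) := by exact_mod_cast h1
    exact div_nonneg h2 hF0.le
  · intro i hi1 hi2
    have h1 := hI.r3 (i : ℤ) ((i + 1 : ℕ) : ℤ) (by push_cast; omega) (by push_cast; omega)
    have e1 : (((i + 1 : ℕ) : ℤ)) - 1 = (i : ℤ) := by push_cast; ring
    have e2 : ((i - 1 : ℕ) : ℤ) = (i : ℤ) - 1 := by push_cast [Nat.cast_sub hi1]; ring
    rw [e1] at h1
    have h2 : (F b ((i + 1 : ℕ) : ℤ) : ℚ) * (F b ((i : ℤ) - 1) : ℚ) ≤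
        (F b (i : ℤ) : ℚ) * (F b (i : ℤ) : ℚ) := by exact_mod_cast h1
    dsimp only
    rw [e2, div_mul_div_comm, div_pow, ← sq, div_le_div_iff_of_pos_right (by positivity)]
    linarith
  · obtain ⟨p, hp, hup, hdown⟩ := F_trapezoid b hI (m / 2) (by push_cast; omega)
    refine ⟨p, hp, ?_, ?_⟩
    · intro i hi
      have h1 := hup i hi
      have h2 : (F b (i : ℤ) : ℚ) ≤ (F b ((i + 1 : ℕ) : ℤ) : ℚ) := by exact_mod_cast h1
      exact div_le_div_of_nonneg_right h2 hF0.le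
    · intro i hi hi2
      have h1 := hdown i hi hi2
      have h2 : (F b ((i + 1 : ℕ) : ℤ) : ℚ) ≤ (F b (i : ℤ) : ℚ) := by exact_mod_cast h1
      exact div_le_div_of_nonneg_right h2 hF0.le

end Pool.Agent.V11205.TwoBridge
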