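import Mathlib

/-! # Blanchfield pairings of Seifert matrices and the invariant `n` -/

set_option autoImplicit false

namespace Pool.Agent.V11205.Blanchfield

open LaurentPolynomial Matrix

/-- the ring `Λ = ℤ[t, t⁻¹]` -/
abbrev Lam : Type := LaurentPolynomial ℤ

/-- the field `Ω = ℚ(t)`, as the fraction field of `Λ` -/
abbrev Om : Type := FractionRing Lam

/-- the involution `t ↦ t⁻¹` -/
noncomputable def bar (p : Lam) : Lam := LaurentPolynomial.invert p

/-- evaluation at `t = 1` -/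
noncomputable def aug : Lam →+* ℤ := LaurentPolynomial.eval₂ (RingHom.id ℤ) 1

variable {ι κ : Type} [Fintype ι] [DecidableEq ι] [Fintype κ] [DecidableEq κ]

/-- the `Λ`-module `Λ^ι / A Λ^ι` -/
def Coker (A : Matrix ι ι Lam) : Type := (ι → Lam) ⧸ LinearMap.range A.mulVecLin

noncomputable instance (A : Matrix ι ι Lam) : AddCommGroup (Coker A) :=
  inferInstanceAs (AddCommGroup ((ι → Lam) ⧸ LinearMap.range A.mulVecLin))

noncomputable instance (A : Matrix ι ι Lam) : Module Lam (Coker A) :=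
  inferInstanceAs (Module Lam ((ι → Lam) ⧸ LinearMap.range A.mulVecLin))

/-- the class of a vector in `Λ^ι / A Λ^ι` -/
noncomputable def cls (A : Matrix ι ι Lam) (v : ι → Lam) : Coker A :=
  (Submodule.Quotient.mk v : (ι → Lam) ⧸ LinearMap.range A.mulVecLin)

/-- the element `āᵗ S b` of `Ω` -/
noncomputable def form (S : Matrix ι ι Om) (a b : ι → Lam) : Om :=
  (fun i => algebraMap Lam Om (bar (a i))) ⬝ᵥ (S *ᵥ fun i => algebraMap Lam Om (b i))

/-- two elements of `Ω` have the same class in `Ω / Λ` -/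
def SameClass (x y : Om) : Prop := ∃ c : Lam, x - y = algebraMap Lam Om c

/-- The pairings `(a, b) ↦ āᵗ S b` on `Λ^ι / A Λ^ι` and `(a, b) ↦ āᵗ S' b` on `Λ^κ / B Λ^κ`,
with values in `Ω / Λ`, are isometric. -/
def Isometric (A : Matrix ι ι Lam) (S : Matrix ι ι Om) (B : Matrix κ κ Lam)
    (S' : Matrix κ κ Om) : Prop :=
  ∃ φ : Coker A ≃ₗ[Lam] Coker B, ∀ (a b : ι → Lam) (a' b' : κ → Lam),
    φ (cls A a) = cls B a' → φ (cls A b) = cls B b' → SameClass (form S' a' b') (form S a b)

/-- the presentation matrix `t V - Vᵀ` of the Alexander module -/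
noncomputable def pres (V : Matrix ι ι ℤ) : Matrix ι ι Lam :=
  (T 1 : Lam) • V.map (Int.cast : ℤ → Lam) - (Vᵀ).map (Int.cast : ℤ → Lam)

/-- the matrix `(1 - t) (t V - Vᵀ)⁻¹` of the Blanchfield pairing -/
noncomputable def pairing (V : Matrix ι ι ℤ) : Matrix ι ι Om :=
  (algebraMap Lam Om (1 - T 1)) • ((pres V).map (algebraMap Lam Om))⁻¹

/-- `A` is a hermitian matrix over `Λ`, with `det A ≠ 0`, whose pairing `λ(A)` is isometric to the
Blanchfield pairing of the Seifert matrix `V`, and `A(1)` is congruent over `ℤ` to a diagonal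
matrix with diagonal entries `1` and `-1`. -/
structure Presents (V : Matrix ι ι ℤ) {k : ℕ} (A : Matrix (Fin k) (Fin k) Lam) : Prop where
  herm : (A.map bar)ᵀ = A
  det_ne : A.det ≠ 0
  isom : Isometric A ((A.map (algebraMap Lam Om))⁻¹) (pres V) (pairing V)
  diag : ∃ P : Matrix (Fin k) (Fin k) ℤ, IsUnit P.det ∧ ∃ d : Fin k → ℤ,
    (∀ i, d i = 1 ∨ d i = -1) ∧ A.map aug = Pᵀ * diagonal d * P

/-- the invariant `n`: the least size of such a matrix (`⊤` if there is none) -/
noncomputable def nInv (V : Matrix ι ι ℤ) : ℕ∞ :=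
  ⨅ (k : ℕ) (_ : ∃ A : Matrix (Fin k) (Fin k) Lam, Presents V A), (k : ℕ∞)

/-- Seifert matrix of the connected sum of knots with Seifert matrices `V` and `W` -/
def connSum (V : Matrix ι ι ℤ) (W : Matrix κ κ ℤ) : Matrix (ι ⊕ κ) (ι ⊕ κ) ℤ :=
  fromBlocks V 0 0 W

end Pool.Agent.V11205.Blanchfield
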