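import Mathlib
import Pool.Agent.V11205.BlanchfieldDefs

/-! # Basic facts on Blanchfield pairings of Seifert matrices -/

set_option autoImplicit false
set_option linter.unusedSectionVars false

namespace Pool.Agent.V11205.Blanchfield

open LaurentPolynomial Matrix

variable {ι κ : Type} [Fintype ι] [DecidableEq ι] [Fintype κ] [DecidableEq κ]

/-- the inclusion `Λ → Ω` -/
noncomputable abbrev jj : Lam →+* Om := algebraMap Lam Om

/-- the involution as a ring homomorphism -/
noncomputable def barHom : Lam →+* Lam := (LaurentPolynomial.invert (R := ℤ)).toRingEquiv.toRingHom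

theorem barHom_apply (p : Lam) : barHom p = bar p := rfl

theorem bar_add (p q : Lam) : bar (p + q) = bar p + bar q := map_add barHom p q
theorem bar_mul (p q : Lam) : bar (p * q) = bar p * bar q := map_mul barHom p q
theorem bar_sub (p q : Lam) : bar (p - q) = bar p - bar q := map_sub barHom p q
theorem bar_neg (p : Lam) : bar (-p) = - bar p := map_neg barHom p
theorem bar_zero : bar 0 = 0 := map_zero barHom
theorem bar_one : bar 1 = 1 := map_one barHom
theorem bar_intCast (z : ℤ) : bar (z : Lam) = z := map_intCast barHom z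
theorem bar_ofNat (n : ℕ) [n.AtLeastTwo] : bar (OfNat.ofNat n : Lam) = OfNat.ofNat n :=
  map_ofNat barHom n
theorem bar_T (n : ℤ) : bar (T n) = T (-n) := invert_T n
theorem bar_bar (p : Lam) : bar (bar p) = p := LaurentPolynomial.involutive_invert p

theorem T_mul_T_neg : (T 1 : Lam) * T (-1) = 1 := by rw [← T_add]; exact T_zero

theorem jj_injective : Function.Injective jj := IsFractionRing.injective Lam Om

/-- cast of a vector -/
noncomputable def jv (a : ι → Lam) : ι → Om := fun i => jj (a i)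

theorem form_eq (S : Matrix ι ι Om) (a b : ι → Lam) :
    form S a b = (jv fun i => bar (a i)) ⬝ᵥ (S *ᵥ jv b) := rfl

theorem jv_add (a b : ι → Lam) : jv (a + b) = jv a + jv b := by
  funext i; simp [jv]

theorem jv_mulVec (A : Matrix κ ι Lam) (a : ι → Lam) : jv (A *ᵥ a) = A.map jj *ᵥ jv a := by
  funext i
  simp only [jv]
  exact RingHom.map_mulVec jj A a i

theorem bar_mulVec (A : Matrix κ ι Lam) (a : ι → Lam) :
    (fun i => bar ((A *ᵥ a) i)) = A.map bar *ᵥ fun i => bar (a i) := by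
  funext i
  exact RingHom.map_mulVec barHom A a i

theorem form_add_left (S : Matrix ι ι Om) (a b c : ι → Lam) :
    form S (a + b) c = form S a c + form S b c := by
  rw [form_eq, form_eq, form_eq]
  have : (jv fun i => bar ((a + b) i)) = (jv fun i => bar (a i)) + jv fun i => bar (b i) := by
    funext i; simp [jv, bar_add]
  rw [this, add_dotProduct]

theorem form_add_right (S : Matrix ι ι Om) (a b c : ι → Lam) :
    form S a (b + c) = form S a b + form S a c := by
  rw [form_eq, form_eq, form_eq, jv_add, mulVec_add, dotProduct_add]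

theorem dot_mem_range (a b : ι → Lam) : jv a ⬝ᵥ jv b ∈ jj.range := by
  refine ⟨a ⬝ᵥ b, ?_⟩
  simp only [jv, dotProduct, map_sum, map_mul]

theorem form_mulVec_left (S : Matrix κ κ Om) (A : Matrix κ ι Lam) (a : ι → Lam) (b : κ → Lam) :
    form S (A *ᵥ a) b = (jv fun i => bar (a i)) ⬝ᵥ (((A.map bar)ᵀ.map jj * S) *ᵥ jv b) := by
  rw [form_eq, bar_mulVec, jv_mulVec, ← mulVec_mulVec, ← vecMul_transpose, ← dotProduct_mulVec]
  rfl

theorem form_mulVec_right (S : Matrix κ κ Om) (A : Matrix κ ι Lam) (a : κ → Lam) (b : ι → Lam) :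
    form S a (A *ᵥ b) = (jv fun i => bar (a i)) ⬝ᵥ ((S * A.map jj) *ᵥ jv b) := by
  rw [form_eq, jv_mulVec, mulVec_mulVec]

theorem pres_bar (V : Matrix ι ι ℤ) : (pres V).map bar = (-T (-1) : Lam) • (pres V)ᵀ := by
  ext1 i j
  simp only [pres, map_apply, Matrix.sub_apply, Matrix.smul_apply, transpose_apply, smul_eq_mul,
    bar_sub, bar_mul, bar_intCast, bar_T]
  have := T_mul_T_neg
  linear_combination (V j i : Lam) * this

/-- the pairing is well defined in the first variable -/
theorem pairing_left_mem (V : Matrix ι ι ℤ) (hdet : ((pres V).map jj).det ≠ 0) (u b : ι → Lam) :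
    form (pairing V) (pres V *ᵥ u) b ∈ jj.range := by
  have hu : IsUnit ((pres V).map jj).det := isUnit_iff_ne_zero.2 hdet
  rw [form_mulVec_left, pres_bar]
  have h1 : (((-T (-1) : Lam) • (pres V)ᵀ)ᵀ).map jj * pairing V =
      (jj (-T (-1)) * jj (1 - T 1)) • (1 : Matrix ι ι Om) := by
    have h2 : (((-T (-1) : Lam) • (pres V)ᵀ)ᵀ).map jj = jj (-T (-1)) • (pres V).map jj := by
      ext1 i j
      simp only [map_apply, transpose_apply, Matrix.smul_apply, smul_eq_mul, map_mul]
    rw [h2, pairing, Matrix.smul_mul, Matrix.mul_smul, smul_smul, mul_nonsing_inv _ hu]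
  rw [h1, smul_mulVec, one_mulVec, dotProduct_smul, smul_eq_mul]
  exact mul_mem (mul_mem ⟨_, rfl⟩ ⟨_, rfl⟩) (dot_mem_range _ _)

/-- the pairing is well defined in the second variable -/
theorem pairing_right_mem (V : Matrix ι ι ℤ) (hdet : ((pres V).map jj).det ≠ 0) (a u : ι → Lam) :
    form (pairing V) a (pres V *ᵥ u) ∈ jj.range := by
  have hu : IsUnit ((pres V).map jj).det := isUnit_iff_ne_zero.2 hdet
  rw [form_mulVec_right]
  have h1 : pairing V * (pres V).map jj = (jj (1 - T 1)) • (1 : Matrix ι ι Om) := by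
    rw [pairing, smul_mul, nonsing_inv_mul _ hu]
  rw [h1, smul_mulVec, one_mulVec, dotProduct_smul, smul_eq_mul]
  exact mul_mem ⟨_, rfl⟩ (dot_mem_range _ _)

theorem cls_surjective (A : Matrix ι ι Lam) : Function.Surjective (cls A) :=
  Submodule.Quotient.mk_surjective _

theorem cls_eq (A : Matrix ι ι Lam) (v w : ι → Lam) :
    cls A v = cls A w ↔ ∃ u, A *ᵥ u = v - w :=
  Submodule.Quotient.eq (LinearMap.range A.mulVecLin)

/-- the quotient map -/
noncomputable def clsHom (A : Matrix ι ι Lam) : (ι → Lam) →ₗ[Lam] Coker A :=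
  (LinearMap.range A.mulVecLin).mkQ

theorem clsHom_apply (A : Matrix ι ι Lam) (v : ι → Lam) : clsHom A v = cls A v := rfl

/-- the map on cokernels induced by a matrix -/
noncomputable def cokerMap (A : Matrix ι ι Lam) (B : Matrix κ κ Lam) (X Y : Matrix κ ι Lam)
    (h : X * A = B * Y) : Coker A →ₗ[Lam] Coker B :=
  (Submodule.mapQ (LinearMap.range A.mulVecLin) (LinearMap.range B.mulVecLin) X.mulVecLin (by
    rintro _ ⟨v, rfl⟩
    simp only [Submodule.mem_comap, mulVecLin_apply, LinearMap.mem_range]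
    exact ⟨Y *ᵥ v, by rw [mulVec_mulVec, mulVec_mulVec, h]⟩) :
    ((ι → Lam) ⧸ LinearMap.range A.mulVecLin) →ₗ[Lam] ((κ → Lam) ⧸ LinearMap.range B.mulVecLin))

theorem cokerMap_cls (A : Matrix ι ι Lam) (B : Matrix κ κ Lam) (X Y : Matrix κ ι Lam)
    (h : X * A = B * Y) (v : ι → Lam) :
    cokerMap A B X Y h (cls A v) = cls B (X *ᵥ v) := rfl

theorem sameClass_iff (x y : Om) : SameClass x y ↔ x - y ∈ jj.range := by
  constructor
  · rintro ⟨c, hc⟩; exact ⟨c, hc.symm⟩
  · rintro ⟨c, hc⟩; exact ⟨c, hc.symm⟩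

/-- explicit isometries -/
theorem isometric_of (V : Matrix κ κ ℤ) (A : Matrix ι ι Lam) (X Y : Matrix κ ι Lam)
    (U D : Matrix ι κ Lam) (C G : Matrix ι ι Lam) (W : Matrix κ κ Lam)
    (h1 : X * A = pres V * Y) (h2 : U * pres V = A * D) (h3 : U * X = 1 - A * C)
    (h4 : X * U = 1 - pres V * W) (hV : ((pres V).map jj).det ≠ 0)
    (h5 : ((X.map bar)ᵀ).map jj * pairing V * X.map jj = (A.map jj)⁻¹ + G.map jj) :
    Isometric A ((A.map jj)⁻¹) (pres V) (pairing V) := by
  refine ⟨LinearEquiv.ofLinearMap (cokerMap A (pres V) X Y h1) (cokerMap (pres V) A U D h2)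
    ?_ ?_, ?_⟩
  · refine LinearMap.ext fun x => ?_
    obtain ⟨v, rfl⟩ := cls_surjective _ x
    simp only [LinearMap.comp_apply, cokerMap_cls, LinearMap.id_apply]
    rw [cls_eq]
    refine ⟨-(W *ᵥ v), ?_⟩
    rw [mulVec_neg, mulVec_mulVec, mulVec_mulVec, h4, sub_mulVec, one_mulVec]
    abel
  · refine LinearMap.ext fun x => ?_
    obtain ⟨v, rfl⟩ := cls_surjective _ x
    simp only [LinearMap.comp_apply, cokerMap_cls, LinearMap.id_apply]
    rw [cls_eq]
    refine ⟨-(C *ᵥ v), ?_⟩
    rw [mulVec_neg, mulVec_mulVec, mulVec_mulVec, h3, sub_mulVec, one_mulVec]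
    abel
  · intro a b a' b' ha hb
    simp only [LinearEquiv.coe_ofLinearMap, cokerMap_cls] at ha hb
    rw [eq_comm, cls_eq] at ha hb
    obtain ⟨u, hu⟩ := ha
    obtain ⟨w, hw⟩ := hb
    have ea : a' = X *ᵥ a + pres V *ᵥ u := by rw [hu]; abel
    have eb : b' = X *ᵥ b + pres V *ᵥ w := by rw [hw]; abel
    have k1 : form (pairing V) (X *ᵥ a) (X *ᵥ b) =
        form ((A.map jj)⁻¹) a b + (jv fun i => bar (a i)) ⬝ᵥ jv (G *ᵥ b) := by
      rw [form_mulVec_left, jv_mulVec, mulVec_mulVec, h5, add_mulVec, dotProduct_add, jv_mulVec]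
      rfl
    rw [sameClass_iff, ea, eb, form_add_left, form_add_right, k1]
    have k2 := pairing_left_mem V hV u (X *ᵥ b + pres V *ᵥ w)
    have k3 := pairing_right_mem V hV (X *ᵥ a) w
    have k4 := dot_mem_range (fun i => bar (a i)) (G *ᵥ b)
    have k5 : form ((A.map jj)⁻¹) a b + (jv fun i => bar (a i)) ⬝ᵥ jv (G *ᵥ b) +
        form (pairing V) (X *ᵥ a) (pres V *ᵥ w) +
        form (pairing V) (pres V *ᵥ u) (X *ᵥ b + pres V *ᵥ w) - form ((A.map jj)⁻¹) a b =
        (jv fun i => bar (a i)) ⬝ᵥ jv (G *ᵥ b) +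
        form (pairing V) (X *ᵥ a) (pres V *ᵥ w) +
        form (pairing V) (pres V *ᵥ u) (X *ᵥ b + pres V *ᵥ w) := by ring
    rw [k5]
    exact add_mem (add_mem k4 k3) k2

/-- a presentation by a matrix of size at most two gives two generators -/
theorem two_gens (B : Matrix κ κ Lam) {k : ℕ} (hk : k ≤ 2) (A : Matrix (Fin k) (Fin k) Lam)
    (φ : Coker A ≃ₗ[Lam] Coker B) : ∃ g h : κ → Lam, ∀ v : κ → Lam, ∃ (c d : Lam) (u : κ → Lam),
      v = c • g + d • h + B *ᵥ u := by
  have hex : ∀ i : Fin k, ∃ g : κ → Lam, φ (clsHom A (Pi.single i 1)) = clsHom B g := fun i =>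
    ⟨_, (Classical.choose_spec (cls_surjective _ _)).symm⟩
  choose g hg using hex
  have key : ∀ v : κ → Lam, ∃ (c : Fin k → Lam) (u : κ → Lam), v = ∑ i, c i • g i + B *ᵥ u := by
    intro v
    obtain ⟨c, hc⟩ := cls_surjective _ (φ.symm (cls B v))
    have hc' : φ (cls A c) = cls B v := by
      rw [hc, LinearEquiv.apply_symm_apply]
    have hsum : c = ∑ i, c i • (Pi.single i 1 : Fin k → Lam) := by
      funext j
      simp [Finset.sum_apply, Pi.single_apply]
    have h2 : φ (clsHom A c) = clsHom B (∑ i, c i • g i) := by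
      conv_lhs => rw [hsum]
      rw [map_sum, map_sum, map_sum]
      simp only [map_smul, hg]
    rw [clsHom_apply, clsHom_apply, hc', cls_eq] at h2
    obtain ⟨u, hu⟩ := h2
    exact ⟨c, u, by rw [hu]; abel⟩
  interval_cases k
  · refine ⟨0, 0, fun v => ?_⟩
    obtain ⟨c, u, h⟩ := key v
    refine ⟨0, 0, u, ?_⟩
    rw [h]; simp
  · refine ⟨g 0, 0, fun v => ?_⟩
    obtain ⟨c, u, h⟩ := key v
    refine ⟨c 0, 0, u, ?_⟩
    rw [h]; simp
  · refine ⟨g 0, g 1, fun v => ?_⟩
    obtain ⟨c, u, h⟩ := key v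
    refine ⟨c 0, c 1, u, ?_⟩
    rw [h, Fin.sum_univ_two]

end Pool.Agent.V11205.Blanchfield
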