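import Mathlib
import Pool.Agent.V11205.BlanchfieldDefs

/-! # The ring `ℤ[t, t⁻¹] / (53 (t-1)² + t)` -/

set_option autoImplicit false

namespace Pool.Agent.V11205.Blanchfield

open LaurentPolynomial Matrix

/-- descent in the norm form of discriminant `-211` -/
theorem descent (M : ℕ) : ∀ x y : ℤ, x ^ 2 + x * y + 53 * y ^ 2 = 25 * 53 ^ M →
    ¬ (25 : ℤ) ∣ x + 9 * y := by
  induction M with
  | zero =>
    intro x y h hd
    have hy : y = 0 := by
      by_contra hy
      have : 1 ≤ y ^ 2 := by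
        have := sq_nonneg y
        have h0 : y ^ 2 ≠ 0 := pow_ne_zero 2 hy
        omega
      nlinarith [sq_nonneg (2 * x + y)]
    subst hy
    have hx : x ^ 2 = 25 := by linarith
    have hx2 : (x - 5) * (x + 5) = 0 := by linear_combination hx
    rcases mul_eq_zero.1 hx2 with h1 | h1
    · have : x = 5 := by linarith
      subst this
      omega
    · have : x = -5 := by linarith
      subst this
      omega
  | succ M ih =>
    intro x y h hd
    have h53 : (53 : ℤ) ∣ x * (x + y) := by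
      refine ⟨25 * 53 ^ M - y ^ 2, ?_⟩
      have : x ^ 2 + x * y + 53 * y ^ 2 = 53 * (25 * 53 ^ M) := by rw [h]; ring
      linear_combination this
    have hp : Prime (53 : ℤ) := by norm_num
    rcases hp.dvd_or_dvd h53 with ⟨w, hw⟩ | ⟨w, hw⟩
    · subst hw
      have h2 : (w + y) ^ 2 + (w + y) * (-w) + 53 * (-w) ^ 2 = 25 * 53 ^ M := by
        have : (53 : ℤ) * ((w + y) ^ 2 + (w + y) * (-w) + 53 * (-w) ^ 2) =
            53 * (25 * 53 ^ M) := by
          have h3 : (53 : ℤ) ^ (M + 1) = 53 * 53 ^ M := by ring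
          rw [h3] at h
          linear_combination h
        exact mul_left_cancel₀ (by norm_num) this
      refine ih _ _ h2 ?_
      omega
    · have hx : x = 53 * w - y := by linarith
      subst hx
      have h2 : (-y) ^ 2 + (-y) * w + 53 * w ^ 2 = 25 * 53 ^ M := by
        have : (53 : ℤ) * ((-y) ^ 2 + (-y) * w + 53 * w ^ 2) =
            53 * (25 * 53 ^ M) := by
          have h3 : (53 : ℤ) ^ (M + 1) = 53 * 53 ^ M := by ring
          rw [h3] at h
          linear_combination h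
        exact mul_left_cancel₀ (by norm_num) this
      refine ih _ _ h2 ?_
      omega

/-- `s = (1 + √-211) / 2` -/
noncomputable def s : ℂ := ⟨1 / 2, √211 / 2⟩

theorem s_sq : s ^ 2 = s - 53 := by
  have h : √211 * √211 = 211 := Real.mul_self_sqrt (by norm_num)
  apply Complex.ext
  · simp only [s, pow_two, Complex.mul_re, Complex.sub_re, Complex.re_ofNat]
    nlinarith
  · simp only [s, pow_two, Complex.mul_im, Complex.sub_im, Complex.im_ofNat]
    ring

theorem normSq_lin (x y : ℤ) :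
    Complex.normSq ((x : ℂ) + (y : ℂ) * s) = (x : ℝ) ^ 2 + x * y + 53 * (y : ℝ) ^ 2 := by
  have h : √211 * √211 = 211 := Real.mul_self_sqrt (by norm_num)
  rw [Complex.normSq_apply]
  simp only [s, Complex.add_re, Complex.mul_re, Complex.intCast_re, Complex.intCast_im,
    Complex.add_im, Complex.mul_im]
  linear_combination ((y : ℝ) ^ 2 / 4) * h

/-- the root `τ` of `53 (t-1)² + t` -/
noncomputable def tau : ℂˣ where
  val := (52 + s) / 53
  inv := (53 - s) / 53
  val_inv := by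
    have := s_sq
    field_simp
    linear_combination -this
  inv_val := by
    have := s_sq
    field_simp
    linear_combination -this

theorem tau_val : (53 : ℂ) * (tau : ℂ) = 52 + s := by
  simp only [tau]; field_simp

theorem tau_inv_val : (53 : ℂ) * ((tau⁻¹ : ℂˣ) : ℂ) = 53 - s := by
  change (53 : ℂ) * ((53 - s) / 53) = _
  field_simp

/-- the unit `12` modulo `25` -/
def u25 : (ZMod 25)ˣ where
  val := 12
  inv := 23
  val_inv := by decide
  inv_val := by decide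

/-- evaluation at `τ` -/
noncomputable def E : Lam →+* ℂ := LaurentPolynomial.eval₂ (Int.castRingHom ℂ) tau

/-- evaluation at `12` modulo `25` -/
noncomputable def E25 : Lam →+* ZMod 25 := LaurentPolynomial.eval₂ (Int.castRingHom (ZMod 25)) u25

theorem E_T_one : (53 : ℂ) * E (T 1) = 52 + s := by
  unfold E; rw [eval₂_T, zpow_one, tau_val]

theorem E_T_neg : (53 : ℂ) * E (T (-1)) = 53 - s := by
  unfold E; rw [eval₂_T, _root_.zpow_neg_one, tau_inv_val]

theorem E25_T_one : E25 (T 1) = 12 := by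
  unfold E25; rw [eval₂_T, zpow_one]; rfl

theorem E25_T_neg : E25 (T (-1)) = 23 := by
  unfold E25; rw [eval₂_T, _root_.zpow_neg_one]; rfl

/-- the pair of evaluations is represented by `x + y s` up to powers of `53` -/
def Rep (p : Lam) : Prop := ∃ (k : ℕ) (x y : ℤ), (53 : ℂ) ^ k * E p = x + y * s ∧
  (53 : ZMod 25) ^ k * E25 p = x + 9 * y

theorem rep_mul_T {p : Lam} (h : Rep p) : Rep (p * T 1) := by
  obtain ⟨k, x, y, h1, h2⟩ := h
  refine ⟨k + 1, 52 * x - 53 * y, x + 53 * y, ?_, ?_⟩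
  · rw [map_mul]
    have e : (53 : ℂ) ^ (k + 1) * (E p * E (T 1)) = (53 ^ k * E p) * (53 * E (T 1)) := by ring
    rw [e, h1, E_T_one]
    push_cast
    linear_combination (y : ℂ) * s_sq
  · rw [map_mul, E25_T_one]
    have e : (53 : ZMod 25) ^ (k + 1) * (E25 p * 12) = (53 ^ k * E25 p) * (53 * 12) := by ring
    rw [e, h2]
    push_cast
    have h3 : (25 : ZMod 25) = 0 := by decide
    linear_combination (23 * (x : ZMod 25) + 212 * (y : ZMod 25)) * h3 +
      (0 : ZMod 25) * h3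

theorem rep_mul_T_neg {p : Lam} (h : Rep p) : Rep (p * T (-1)) := by
  obtain ⟨k, x, y, h1, h2⟩ := h
  refine ⟨k + 1, 53 * x + 53 * y, 52 * y - x, ?_, ?_⟩
  · rw [map_mul]
    have e : (53 : ℂ) ^ (k + 1) * (E p * E (T (-1))) = (53 ^ k * E p) * (53 * E (T (-1))) := by
      ring
    rw [e, h1, E_T_neg]
    push_cast
    linear_combination -(y : ℂ) * s_sq
  · rw [map_mul, E25_T_neg]
    have e : (53 : ZMod 25) ^ (k + 1) * (E25 p * 23) = (53 ^ k * E25 p) * (53 * 23) := by ring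
    rw [e, h2]
    push_cast
    have h3 : (25 : ZMod 25) = 0 := by decide
    linear_combination (47 * (x : ZMod 25) + 418 * (y : ZMod 25)) * h3

theorem rep_add {p q : Lam} (hp : Rep p) (hq : Rep q) : Rep (p + q) := by
  obtain ⟨k, x, y, h1, h2⟩ := hp
  obtain ⟨l, z, w, h3, h4⟩ := hq
  refine ⟨k + l, 53 ^ l * x + 53 ^ k * z, 53 ^ l * y + 53 ^ k * w, ?_, ?_⟩
  · rw [map_add]
    have e : (53 : ℂ) ^ (k + l) * (E p + E q) = 53 ^ l * (53 ^ k * E p) + 53 ^ k * (53 ^ l * E q) := by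
      ring
    rw [e, h1, h3]
    push_cast
    ring
  · rw [map_add]
    have e : (53 : ZMod 25) ^ (k + l) * (E25 p + E25 q) =
        53 ^ l * (53 ^ k * E25 p) + 53 ^ k * (53 ^ l * E25 q) := by
      ring
    rw [e, h2, h4]
    push_cast
    ring

theorem rep_all (p : Lam) : Rep p := by
  induction p using LaurentPolynomial.induction_on with
  | h_C a => exact ⟨0, a, 0, by simp [E], by simp [E25]⟩
  | h_add hp hq => exact rep_add hp hq
  | h_C_mul_T n a h =>
    have := rep_mul_T h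
    rwa [mul_assoc, ← T_add] at this
  | h_C_mul_T_Z n a h =>
    have := rep_mul_T_neg h
    rwa [mul_assoc, ← T_add, ← sub_eq_add_neg] at this

theorem normSq_E_sub_one : 53 ^ 2 * Complex.normSq (E (T 1 - 1)) = 53 := by
  have h1 : (53 : ℂ) * E (T 1 - 1) = ((-1 : ℤ) : ℂ) + ((1 : ℤ) : ℂ) * s := by
    rw [map_sub, mul_sub, E_T_one, map_one]; push_cast; ring
  have h2 := congrArg Complex.normSq h1
  rw [normSq_lin, map_mul] at h2
  have h3 : Complex.normSq 53 = 53 ^ 2 := by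
    have := Complex.normSq_natCast 53
    push_cast at this
    rw [this]; norm_num
  rw [h3] at h2
  rw [h2]; norm_num

theorem normSq_E_sub_two : 53 ^ 2 * Complex.normSq (E (T 1 - 2)) = 53 * 55 := by
  have h1 : (53 : ℂ) * E (T 1 - 2) = ((-54 : ℤ) : ℂ) + ((1 : ℤ) : ℂ) * s := by
    rw [map_sub, mul_sub, E_T_one, map_ofNat]; push_cast; ring
  have h2 := congrArg Complex.normSq h1
  rw [normSq_lin, map_mul] at h2
  have h3 : Complex.normSq 53 = 53 ^ 2 := by
    have := Complex.normSq_natCast 53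
    push_cast at this
    rw [this]; norm_num
  rw [h3] at h2
  rw [h2]; norm_num

theorem normSq_53 (k : ℕ) : Complex.normSq ((53 : ℂ) ^ k) = (53 : ℝ) ^ (2 * k) := by
  have h3 : Complex.normSq 53 = 53 ^ 2 := by
    have := Complex.normSq_natCast 53
    push_cast at this
    rw [this]; norm_num
  rw [map_pow, h3, ← pow_mul]

/-- the ideal `(t - 2, 5 (t - 1))²` is not principal modulo `53 (t-1)² + t` -/
theorem no_delta (δ p q : Lam) (h1 : E δ * E p = E (T 1 - 2) ^ 2)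
    (h2 : E δ * E q = 25 * E (T 1 - 1) ^ 2) (h3 : E25 δ = 0) : False := by
  obtain ⟨k, x, y, hx, hx'⟩ := rep_all δ
  obtain ⟨l, z, w, hz, -⟩ := rep_all p
  obtain ⟨r, u, v, hu, -⟩ := rep_all q
  have hdvd : (25 : ℤ) ∣ x + 9 * y := by
    rw [h3, mul_zero] at hx'
    have : ((x + 9 * y : ℤ) : ZMod 25) = 0 := by push_cast; exact hx'.symm
    exact (ZMod.intCast_zmod_eq_zero_iff_dvd _ 25).1 this
  set N : ℤ := x ^ 2 + x * y + 53 * y ^ 2 with hN
  have nx := congrArg Complex.normSq hx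
  have nz := congrArg Complex.normSq hz
  have nu := congrArg Complex.normSq hu
  rw [normSq_lin, map_mul, normSq_53] at nx nz nu
  have n1 := congrArg Complex.normSq h1
  have n2 := congrArg Complex.normSq h2
  rw [map_mul, map_pow] at n1
  rw [map_mul, map_mul, map_pow] at n2
  have h25 : Complex.normSq 25 = 625 := by
    have := Complex.normSq_natCast 25
    push_cast at this
    rw [this]; norm_num
  rw [h25] at n2
  have a1 := normSq_E_sub_one
  have a2 := normSq_E_sub_two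
  have b1 : (N : ℝ) * ((z : ℝ) ^ 2 + z * w + 53 * (w : ℝ) ^ 2) * 53 ^ 2 =
      3025 * 53 ^ (2 * (k + l)) := by
    rw [hN]; push_cast
    rw [← nx, ← nz]
    have : Complex.normSq (E (T 1 - 2)) = 55 / 53 := by
      field_simp; linarith
    rw [this] at n1
    calc 53 ^ (2 * k) * Complex.normSq (E δ) * (53 ^ (2 * l) * Complex.normSq (E p)) * 53 ^ 2 =
          53 ^ (2 * (k + l)) * (Complex.normSq (E δ) * Complex.normSq (E p)) * 53 ^ 2 := by ring
      _ = _ := by rw [n1]; ring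
  have b2 : (N : ℝ) * ((u : ℝ) ^ 2 + u * v + 53 * (v : ℝ) ^ 2) * 53 ^ 2 =
      625 * 53 ^ (2 * (k + r)) := by
    rw [hN]; push_cast
    rw [← nx, ← nu]
    have : Complex.normSq (E (T 1 - 1)) = 1 / 53 := by
      field_simp; linarith
    rw [this] at n2
    calc 53 ^ (2 * k) * Complex.normSq (E δ) * (53 ^ (2 * r) * Complex.normSq (E q)) * 53 ^ 2 =
          53 ^ (2 * (k + r)) * (Complex.normSq (E δ) * Complex.normSq (E q)) * 53 ^ 2 := by ring
      _ = _ := by rw [n2]; ring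
  have c1 : N * (z ^ 2 + z * w + 53 * w ^ 2) * 53 ^ 2 = 3025 * 53 ^ (2 * (k + l)) := by
    exact_mod_cast b1
  have c2 : N * (u ^ 2 + u * v + 53 * v ^ 2) * 53 ^ 2 = 625 * 53 ^ (2 * (k + r)) := by
    exact_mod_cast b2
  have d1 : N ∣ 3025 * 53 ^ (2 * (k + l)) := ⟨_, by rw [← c1, mul_assoc]⟩
  have d2 : N ∣ 625 * 53 ^ (2 * (k + r)) := ⟨_, by rw [← c2, mul_assoc]⟩
  set A := 2 * (k + l) + 2 * (k + r) with hA
  have d1' : N ∣ 3025 * 53 ^ A := by
    rw [hA, pow_add, ← mul_assoc]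
    exact d1.mul_right _
  have d2' : N ∣ 625 * 53 ^ A := by
    rw [hA, pow_add]
    have : (625 : ℤ) * (53 ^ (2 * (k + l)) * 53 ^ (2 * (k + r))) =
      625 * 53 ^ (2 * (k + r)) * 53 ^ (2 * (k + l)) := by ring
    rw [this]
    exact d2.mul_right _
  have d3 : N ∣ 25 * 53 ^ A := by
    have : (25 : ℤ) * 53 ^ A = (3025 * 53 ^ A) * 6 - (625 * 53 ^ A) * 29 := by ring
    rw [this]
    exact dvd_sub (d1'.mul_right _) (d2'.mul_right _)
  have d4 : (25 : ℤ) ∣ N := by
    have : N = (x + 9 * y) * (x - 8 * y) + 25 * (5 * y ^ 2) := by rw [hN]; ring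
    rw [this]
    exact dvd_add (hdvd.mul_right _) (dvd_mul_right _ _)
  obtain ⟨N', hN'⟩ := d4
  have d5 : N' ∣ 53 ^ A := by
    rw [hN'] at d3
    exact Int.dvd_of_mul_dvd_mul_left (by norm_num) d3
  have hNpos : 0 ≤ N := by
    rw [hN]; nlinarith [sq_nonneg (2 * x + y), sq_nonneg y]
  have hN'pos : 0 ≤ N' := by omega
  obtain ⟨N'', rfl⟩ := Int.eq_ofNat_of_zero_le hN'pos
  have d6 : N'' ∣ 53 ^ A := by exact_mod_cast d5
  obtain ⟨M, -, hM⟩ := (Nat.dvd_prime_pow (by norm_num : Nat.Prime 53)).1 d6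
  refine descent M x y ?_ hdvd
  rw [← hN, hN', hM]
  push_cast
  ring

/-- no two elements generate the direct sum of two copies of the Alexander module -/
theorem no_two_gen (g h : Fin 2 ⊕ Fin 2 → Lam) (P : Matrix (Fin 2 ⊕ Fin 2) (Fin 2 ⊕ Fin 2) Lam)
    (hP1 : ∀ u, ∃ c : Lam, (T 1 - 2) * (P *ᵥ u) (Sum.inl 0) - 5 * (T 1 - 1) * (P *ᵥ u) (Sum.inl 1) =
      (53 * (T 1 - 1) ^ 2 + T 1) * c)
    (hP2 : ∀ u, ∃ c : Lam, (T 1 - 2) * (P *ᵥ u) (Sum.inr 0) - 5 * (T 1 - 1) * (P *ᵥ u) (Sum.inr 1) =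
      (53 * (T 1 - 1) ^ 2 + T 1) * c)
    (hgen : ∀ v : Fin 2 ⊕ Fin 2 → Lam, ∃ (c d : Lam) (u : Fin 2 ⊕ Fin 2 → Lam),
      v = c • g + d • h + P *ᵥ u) : False := by
  have hE0 : E (53 * (T 1 - 1) ^ 2 + T 1) = 0 := by
    have h0 := E_T_one
    have h1 : E (T 1) = (52 + s) / 53 := by field_simp; linear_combination h0
    simp only [map_add, map_mul, map_pow, map_sub, map_one, map_ofNat, h1]
    field_simp
    linear_combination s_sq
  set θ1 : (Fin 2 ⊕ Fin 2 → Lam) → Lam := fun v =>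
    (T 1 - 2) * v (Sum.inl 0) - 5 * (T 1 - 1) * v (Sum.inl 1) with hθ1
  set θ2 : (Fin 2 ⊕ Fin 2 → Lam) → Lam := fun v =>
    (T 1 - 2) * v (Sum.inr 0) - 5 * (T 1 - 1) * v (Sum.inr 1) with hθ2
  have key : ∀ v : Fin 2 ⊕ Fin 2 → Lam, ∃ c d : Lam, E (θ1 v) = E c * E (θ1 g) + E d * E (θ1 h) ∧
      E (θ2 v) = E c * E (θ2 g) + E d * E (θ2 h) := by
    intro v
    obtain ⟨c, d, u, hv⟩ := hgen v
    refine ⟨c, d, ?_, ?_⟩
    · obtain ⟨a, ha⟩ := hP1 u
      have : θ1 v = c * θ1 g + d * θ1 h + (53 * (T 1 - 1) ^ 2 + T 1) * a := by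
        rw [← ha, hv]
        simp only [hθ1, Pi.add_apply, Pi.smul_apply, smul_eq_mul]
        ring
      rw [this, map_add, map_add, map_mul, map_mul, map_mul, hE0, zero_mul, add_zero]
    · obtain ⟨a, ha⟩ := hP2 u
      have : θ2 v = c * θ2 g + d * θ2 h + (53 * (T 1 - 1) ^ 2 + T 1) * a := by
        rw [← ha, hv]
        simp only [hθ2, Pi.add_apply, Pi.smul_apply, smul_eq_mul]
        ring
      rw [this, map_add, map_add, map_mul, map_mul, map_mul, hE0, zero_mul, add_zero]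
  obtain ⟨c1, d1, p1, p2⟩ := key (Pi.single (Sum.inl 0) 1)
  obtain ⟨c2, d2, p3, p4⟩ := key (Pi.single (Sum.inr 0) 1)
  obtain ⟨c3, d3, p5, p6⟩ := key (Pi.single (Sum.inl 1) 1)
  obtain ⟨c4, d4, p7, p8⟩ := key (Pi.single (Sum.inr 1) 1)
  have t1 : θ1 (Pi.single (Sum.inl 0) 1) = T 1 - 2 := by simp [hθ1]
  have t2 : θ2 (Pi.single (Sum.inl 0) 1) = 0 := by simp [hθ2]
  have t3 : θ1 (Pi.single (Sum.inr 0) 1) = 0 := by simp [hθ1]
  have t4 : θ2 (Pi.single (Sum.inr 0) 1) = T 1 - 2 := by simp [hθ2]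
  have t5 : θ1 (Pi.single (Sum.inl 1) 1) = - (5 * (T 1 - 1)) := by simp [hθ1]
  have t6 : θ2 (Pi.single (Sum.inl 1) 1) = 0 := by simp [hθ2]
  have t7 : θ1 (Pi.single (Sum.inr 1) 1) = 0 := by simp [hθ1]
  have t8 : θ2 (Pi.single (Sum.inr 1) 1) = - (5 * (T 1 - 1)) := by simp [hθ2]
  rw [t1] at p1
  rw [t2, map_zero] at p2
  rw [t3, map_zero] at p3
  rw [t4] at p4
  rw [t5, map_neg, map_mul, map_ofNat] at p5
  rw [t6, map_zero] at p6
  rw [t7, map_zero] at p7
  rw [t8, map_neg, map_mul, map_ofNat] at p8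
  refine no_delta (θ1 g * θ2 h - θ1 h * θ2 g) (c1 * d2 - c2 * d1) (c3 * d4 - c4 * d3) ?_ ?_ ?_
  · simp only [map_sub, map_mul] at p1 p4 ⊢
    linear_combination (-1 : ℂ) * (E (T 1) - E 2) * p4 + (-1 : ℂ) * (E c2 * E (θ2 g) + E d2 * E (θ2 h)) * p1 +
      (E c2 * E (θ1 g) + E d2 * E (θ1 h)) * p2
  · rw [map_sub, map_sub, map_mul, map_mul, map_mul, map_mul]
    set w := E (T 1 - 1)
    linear_combination (5 * w) * p8 - (E c4 * E (θ2 g) + E d4 * E (θ2 h)) * p5 +
      (E c4 * E (θ1 g) + E d4 * E (θ1 h)) * p6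
  · have h5 : ∀ v : Fin 2 ⊕ Fin 2 → Lam, (∃ a : ZMod 25, E25 (θ1 v) = 5 * a) ∧
        (∃ a : ZMod 25, E25 (θ2 v) = 5 * a) := by
      intro v
      constructor
      · refine ⟨2 * E25 (v (Sum.inl 0)) - 11 * E25 (v (Sum.inl 1)), ?_⟩
        simp only [hθ1, map_sub, map_mul, map_ofNat, map_one, E25_T_one]
        ring
      · refine ⟨2 * E25 (v (Sum.inr 0)) - 11 * E25 (v (Sum.inr 1)), ?_⟩
        simp only [hθ2, map_sub, map_mul, map_ofNat, map_one, E25_T_one]
        ring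
    obtain ⟨⟨a1, e1⟩, ⟨a2, e2⟩⟩ := h5 g
    obtain ⟨⟨b1, f1⟩, ⟨b2, f2⟩⟩ := h5 h
    rw [map_sub, map_mul, map_mul, e1, e2, f1, f2]
    have h3 : (25 : ZMod 25) = 0 := by decide
    linear_combination (a1 * b2 - b1 * a2) * h3

end Pool.Agent.V11205.Blanchfield
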