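import Mathlib
import Pool.Agent.V11205.BlanchfieldBasic
import Pool.Agent.V11205.Order53

/-! # The example -/

set_option autoImplicit false
set_option linter.unusedSectionVars false

namespace Pool.Agent.V11205.Blanchfield

open LaurentPolynomial Matrix

variable {ι κ : Type} [Fintype ι] [DecidableEq ι] [Fintype κ] [DecidableEq κ]

/-- the Seifert matrix of a genus one knot -/
def V0 : Matrix (Fin 2) (Fin 2) ℤ := !![5, 2; 1, 11]

theorem pres_connSum (V : Matrix ι ι ℤ) (W : Matrix κ κ ℤ) :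
    pres (connSum V W) = fromBlocks (pres V) 0 0 (pres W) := by
  ext1 i j
  rcases i with i | i <;> rcases j with j | j <;> simp [pres, connSum]

theorem pres_V0 : pres V0 = !![5 * (T 1 - 1), 2 * T 1 - 1; T 1 - 2, 11 * (T 1 - 1)] := by
  ext1 i j
  fin_cases i <;> fin_cases j <;> simp [pres, V0] <;> ring

theorem pres_neg (V : Matrix ι ι ℤ) : pres (-V) = - pres V := by
  ext1 i j
  simp [pres]
  ring

theorem pres_negT : pres (-V0)ᵀ = !![5 * (1 - T 1), 2 - T 1; 1 - 2 * T 1, 11 * (1 - T 1)] := by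
  ext1 i j
  fin_cases i <;> fin_cases j <;> simp [pres, V0] <;> ring

theorem not_presents (k : ℕ) (hk : k ≤ 2) (A : Matrix (Fin k) (Fin k) Lam) :
    ¬ Presents (connSum V0 (-V0)) A := by
  intro h
  obtain ⟨φ, -⟩ := h.isom
  obtain ⟨g, h, hgen⟩ := two_gens (pres (connSum V0 (-V0))) hk A φ
  refine no_two_gen g h (pres (connSum V0 (-V0))) ?_ ?_ hgen
  · intro u
    refine ⟨-u (Sum.inl 1), ?_⟩
    rw [pres_connSum, pres_neg, pres_V0]
    simp [mulVec, dotProduct, Fintype.sum_sum_type, Fin.sum_univ_two]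
    ring
  · intro u
    refine ⟨u (Sum.inr 1), ?_⟩
    rw [pres_connSum, pres_neg, pres_V0]
    simp [mulVec, dotProduct, Fintype.sum_sum_type, Fin.sum_univ_two]
    ring

/-- `det (t V - Vᵀ)` -/
noncomputable def ff : Lam := 53 * (T 1 - 1) ^ 2 + T 1

/-- the diagonal matrix `1, -1` -/
noncomputable def DD : Matrix (Fin 2) (Fin 2) Lam := !![1, 0; 0, -1]

/-- the hermitian matrix -/
noncomputable def A0 : Matrix (Fin 2) (Fin 2) Lam := !![T (-1) * ff, 0; 0, -(T (-1) * ff)]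

noncomputable def XX : Matrix (Fin 2 ⊕ Fin 2) (Fin 2) Lam :=
  fromRows !![2, 1; 4, 3] !![1, 2; 3, 4]

noncomputable def adj0 : Matrix (Fin 2 ⊕ Fin 2) (Fin 2 ⊕ Fin 2) Lam :=
  fromBlocks !![11 * (T 1 - 1), 1 - 2 * T 1; 2 - T 1, 5 * (T 1 - 1)] 0 0
    !![11 * (1 - T 1), T 1 - 2; 2 * T 1 - 1, 5 * (1 - T 1)]

noncomputable def PP : Matrix (Fin 2 ⊕ Fin 2) (Fin 2 ⊕ Fin 2) Lam :=
  fromBlocks !![5 * (T 1 - 1), 2 * T 1 - 1; T 1 - 2, 11 * (T 1 - 1)] 0 0
    !![5 * (1 - T 1), 2 - T 1; 1 - 2 * T 1, 11 * (1 - T 1)]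

theorem pres_eq_PP : pres (connSum V0 (-V0)ᵀ) = PP := by
  rw [pres_connSum, pres_V0, pres_negT]; rfl

theorem PP_adj : PP * adj0 = ff • (1 : Matrix (Fin 2 ⊕ Fin 2) (Fin 2 ⊕ Fin 2) Lam) := by
  rw [PP, adj0, fromBlocks_multiply, ← fromBlocks_one, fromBlocks_smul]
  congr 1
  · ext1 i j
    fin_cases i <;> fin_cases j <;> simp [ff] <;> ring
  · simp
  · simp
  · ext1 i j
    fin_cases i <;> fin_cases j <;> simp [ff] <;> ring

/-- the Gram matrix -/
theorem gram : (1 - T 1 : Lam) • (XXᵀ * adj0 * XX) = (T 1 : Lam) • DD - ff • DD := by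
  rw [XX, adj0, transpose_fromRows, fromCols_mul_fromBlocks, fromCols_mul_fromRows]
  ext1 i j
  fin_cases i <;> fin_cases j <;>
    simp [mul_apply, Fin.sum_univ_two, ff, DD] <;> first | ring1 | (right; ring1)

noncomputable def UU : Matrix (Fin 2) (Fin 2 ⊕ Fin 2) Lam :=
  (T (-1) * (1 - T 1) : Lam) • (DD * XXᵀ * adj0)

noncomputable def YY : Matrix (Fin 2 ⊕ Fin 2) (Fin 2) Lam := (T (-1) : Lam) • (adj0 * XX * DD)

noncomputable def WW : Matrix (Fin 2 ⊕ Fin 2) (Fin 2 ⊕ Fin 2) Lam :=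
  (T (-1) : Lam) • fromBlocks !![4 * (T 1 - 1), 3 * T 1 - 4; 4 * T 1 - 3, 2 * (T 1 - 1)]
    !![0, 2 * (1 - T 1); 2 * (T 1 - 1), 0] !![0, 2 * (T 1 - 1); 2 * (1 - T 1), 0]
    !![4 * (1 - T 1), 3 - 4 * T 1; 4 - 3 * T 1, 2 * (1 - T 1)]

theorem adj_PP : adj0 * PP = ff • (1 : Matrix (Fin 2 ⊕ Fin 2) (Fin 2 ⊕ Fin 2) Lam) := by
  rw [PP, adj0, fromBlocks_multiply, ← fromBlocks_one, fromBlocks_smul]
  congr 1
  · ext1 i j
    fin_cases i <;> fin_cases j <;> simp [ff] <;> ring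
  · simp
  · simp
  · ext1 i j
    fin_cases i <;> fin_cases j <;> simp [ff] <;> ring

theorem DD_sq : DD * DD = 1 := by
  ext1 i j
  fin_cases i <;> fin_cases j <;> simp [DD]

theorem A0_eq : A0 = (T (-1) * ff : Lam) • DD := by
  ext1 i j
  fin_cases i <;> fin_cases j <;> simp [A0, DD]

theorem XXT : XXᵀ = fromCols !![2, 4; 1, 3] !![1, 3; 2, 4] := by
  ext1 i j
  rcases j with j | j <;> fin_cases i <;> fin_cases j <;> rfl

theorem DXA : DD * XXᵀ * adj0 = fromCols
    !![18 * T 1 - 14, 16 * T 1 - 18; 5 - 8 * T 1, 14 - 13 * T 1]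
    !![8 - 5 * T 1, 13 - 14 * T 1; 14 * T 1 - 18, 18 * T 1 - 16] := by
  rw [XXT, adj0, mul_fromCols, fromCols_mul_fromBlocks, DD]
  simp only [Matrix.mul_zero, add_zero, zero_add, mul_fin_two]
  congr 1
  · ext1 i j
    fin_cases i <;> fin_cases j <;> simp <;> ring
  · ext1 i j
    fin_cases i <;> fin_cases j <;> simp <;> ring

theorem h4 : XX * UU = 1 - PP * WW := by
  have ht := T_mul_T_neg
  rw [UU, DXA]
  ext1 i j
  rcases i with i | i <;> rcases j with j | j <;> fin_cases i <;> fin_cases j <;>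
    simp [XX, WW, PP, mul_apply, Fintype.sum_sum_type, Fin.sum_univ_two] <;>
    first | ring1 | linear_combination ht

theorem aug_T (n : ℤ) : aug (T n) = 1 := by
  simp [aug]

theorem aug_ff : aug ff = 1 := by
  simp [ff, aug_T]

theorem ff_ne : ff ≠ 0 := by
  intro h
  have := aug_ff
  rw [h, map_zero] at this
  exact zero_ne_one this

theorem T_ne (n : ℤ) : (T n : Lam) ≠ 0 := (isUnit_T n).ne_zero

theorem PP_det_ne : (PP.map jj).det ≠ 0 := by
  have h1 := congrArg Matrix.det PP_adj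
  rw [det_mul, det_smul, det_one, mul_one] at h1
  have h2 : PP.det ≠ 0 := by
    intro h
    rw [h, zero_mul] at h1
    exact pow_ne_zero _ ff_ne h1.symm
  have h3 : (PP.map jj).det = jj PP.det := (RingHom.map_det jj PP).symm
  rw [h3]
  exact fun h => h2 (jj_injective (by rw [h, map_zero]))

theorem smul_map_jj {α β : Type} (c : Lam) (M : Matrix α β Lam) :
    (c • M).map jj = jj c • M.map jj := by
  ext1 i j
  simp only [map_apply, Matrix.smul_apply, smul_eq_mul, map_mul]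

theorem one_map_jj {α : Type} [DecidableEq α] : (1 : Matrix α α Lam).map jj = 1 :=
  Matrix.map_one _ (map_zero _) (map_one _)

theorem jj_ff_ne : jj ff ≠ 0 := fun h => ff_ne (jj_injective (by rw [h, map_zero]))

theorem PP_inv : (PP.map jj)⁻¹ = (jj ff)⁻¹ • adj0.map jj := by
  apply inv_eq_right_inv
  rw [Matrix.mul_smul, ← Matrix.map_mul, PP_adj, smul_map_jj, one_map_jj, smul_smul,
    inv_mul_cancel₀ jj_ff_ne, one_smul]

theorem A0_inv : (A0.map jj)⁻¹ = ((jj ff)⁻¹ * jj (T 1)) • DD.map jj := by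
  apply inv_eq_right_inv
  have ht : jj (T 1) * jj (T (-1)) = 1 := by rw [← map_mul, T_mul_T_neg, map_one]
  have h := jj_ff_ne
  rw [A0_eq, smul_map_jj, Matrix.mul_smul, Matrix.smul_mul, ← Matrix.map_mul, DD_sq, one_map_jj,
    smul_smul, map_mul]
  have : (jj ff)⁻¹ * jj (T 1) * (jj (T (-1)) * jj ff) = 1 := by
    calc (jj ff)⁻¹ * jj (T 1) * (jj (T (-1)) * jj ff) =
        (jj (T 1) * jj (T (-1))) * ((jj ff)⁻¹ * jj ff) := by ring
      _ = 1 := by rw [ht, inv_mul_cancel₀ h, one_mul]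
  rw [this, one_smul]

theorem XX_bar : XX.map bar = XX := by
  ext1 i j
  rcases i with i | i <;> fin_cases i <;> fin_cases j <;> simp [XX, bar_one] <;>
    exact map_ofNat barHom _

theorem h5 : ((XX.map bar)ᵀ).map jj * pairing (connSum V0 (-V0)ᵀ) * XX.map jj =
    (A0.map jj)⁻¹ + (-DD).map jj := by
  rw [XX_bar, pairing, pres_eq_PP, PP_inv, A0_inv, smul_smul, Matrix.mul_smul, Matrix.smul_mul,
    ← Matrix.map_mul, ← Matrix.map_mul, mul_comm (algebraMap Lam Om (1 - T 1)), ← smul_smul,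
    ← smul_map_jj, gram]
  have h1 : ((T 1 : Lam) • DD - ff • DD).map jj = jj (T 1) • DD.map jj - jj ff • DD.map jj := by
    rw [← smul_map_jj, ← smul_map_jj]
    exact Matrix.map_sub _ (map_sub jj) _ _
  have h2 : (-DD).map jj = - DD.map jj := by
    ext1 i j
    simp only [map_apply, Matrix.neg_apply, map_neg]
  rw [h1, h2, smul_sub, smul_smul, smul_smul, inv_mul_cancel₀ jj_ff_ne, one_smul, sub_eq_add_neg]

theorem presents_A0 : Presents (connSum V0 (-V0)ᵀ) A0 := by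
  have ht := T_mul_T_neg
  refine ⟨?_, ?_, ?_, ?_⟩
  · have hb : bar (T (-1) * ff) = T (-1) * ff := by
      rw [bar_mul, ff, bar_add, bar_mul]
      have h2 : bar ((T 1 - 1) ^ 2) = (T (-1) - 1) ^ 2 := by
        rw [pow_two, bar_mul, bar_sub, bar_one, bar_T]; ring
      rw [h2, bar_ofNat, bar_T, bar_T, neg_neg]
      linear_combination (53 * (T (-1) - T 1) : Lam) * ht
    ext1 i j
    fin_cases i <;> fin_cases j
    · exact hb
    · exact bar_zero
    · exact bar_zero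
    · exact (bar_neg _).trans (congrArg Neg.neg hb)
  · have : A0.det = -(T (-1) * ff) ^ 2 := by
      rw [det_fin_two, A0]; simp; ring
    rw [this, neg_ne_zero]
    exact pow_ne_zero _ (mul_ne_zero (T_ne _) ff_ne)
  · refine isometric_of (connSum V0 (-V0)ᵀ) A0 XX YY UU ((1 - T 1 : Lam) • XXᵀ) DD (-DD) WW
      ?_ ?_ ?_ ?_ ?_ ?_
    · rw [pres_eq_PP, YY, Matrix.mul_smul, Matrix.mul_assoc adj0, ← Matrix.mul_assoc PP, PP_adj,
        A0_eq, Matrix.mul_smul, Matrix.smul_mul, Matrix.one_mul, smul_smul]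
    · rw [pres_eq_PP, UU, Matrix.smul_mul, Matrix.mul_assoc _ adj0 PP, adj_PP, A0_eq,
        Matrix.mul_smul, Matrix.smul_mul, Matrix.mul_smul, Matrix.mul_one, smul_smul, smul_smul]
      congr 1
      ring
    · have h3 : UU * XX = (T (-1) : Lam) • (DD * ((1 - T 1 : Lam) • (XXᵀ * adj0 * XX))) := by
        rw [UU, Matrix.smul_mul, Matrix.mul_smul, smul_smul]
        simp only [Matrix.mul_assoc]
      rw [h3, gram, Matrix.mul_sub, Matrix.mul_smul, Matrix.mul_smul, DD_sq, A0_eq,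
        Matrix.smul_mul, DD_sq, smul_sub, smul_smul, smul_smul, mul_comm (T (-1)) (T 1), ht,
        one_smul]
    · rw [pres_eq_PP]; exact h4
    · rw [pres_eq_PP]; exact PP_det_ne
    · exact h5
  · refine ⟨1, by simp, ![1, -1], ?_, ?_⟩
    · intro i; fin_cases i <;> simp
    · ext1 i j
      fin_cases i <;> fin_cases j <;> simp [A0, aug_T, aug_ff]

end Pool.Agent.V11205.Blanchfield
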