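import Mathlib

/-!
First-order elliptic systems at the endpoint Hoelder classes: the gain of one derivative fails
even when the Jacobian of the solution is non-zero and as smooth as the coefficients.

The example is `w(z) = conj z + z^(k+2) * log |log |z|^2|` near `0`, which solves an inhomogeneous
Cauchy-Riemann system whose right-hand side is of class `C^(k+1)`; its Jacobian is of class
`C^(k+1)` and is `-1` at the origin, but the derivatives of order `k+1` of `w` are not Lipschitz.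
-/

namespace Pool.Agent.V11205.EGF

open Set Filter Topology Asymptotics ComplexConjugate MeasureTheory
open scoped ContDiff

/-- Euclidean `n`-space. -/
abbrev E (n : ℕ) : Type := EuclideanSpace ℝ (Fin n)

/-- The class `C^{m,α}` on an open set `Ω`: `f` is `m` times continuously differentiable on `Ω` and
its `m`-th derivative is locally `α`-Hoelder on `Ω`. (For `α = 0` the second condition only says
that the `m`-th derivative is locally of bounded oscillation, which is automatic.) -/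
def HolderClass {V W : Type*} [NormedAddCommGroup V] [NormedSpace ℝ V]
    [NormedAddCommGroup W] [NormedSpace ℝ W]
    (m : ℕ) (α : ℝ) (Ω : Set V) (f : V → W) : Prop :=
  ContDiffOn ℝ m f Ω ∧
    ∀ x ∈ Ω, ∃ C : ℝ, ∃ U ∈ 𝓝 x, ∀ y ∈ U ∩ Ω, ∀ z ∈ U ∩ Ω,
      ‖iteratedFDeriv ℝ m f y - iteratedFDeriv ℝ m f z‖ ≤ C * ‖y - z‖ ^ α

/-- The partial derivative `∂_j u (x)`, as a vector of `ℝⁿ`. -/
noncomputable def pd {n : ℕ} (j : Fin n) (u : E n → E n) (x : E n) : Fin n → ℝ :=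
  fun i => fderiv ℝ u x (EuclideanSpace.single j 1) i

/-- The Jacobian determinant `det (∂_j u^i)`. -/
noncomputable def jac {n : ℕ} (u : E n → E n) (x : E n) : ℝ :=
  Matrix.det (Matrix.of fun i j => pd j u x i)

/-- Ellipticity of the principal part `∑_j A^j ∂_j` on `Ω`. -/
def Elliptic {n : ℕ} (Ω : Set (E n)) (A : Fin n → E n → Matrix (Fin n) (Fin n) ℝ) : Prop :=
  ∀ x ∈ Ω, ∀ ξ : Fin n → ℝ, ξ ≠ 0 → (∑ j, ξ j • A j x).det ≠ 0

/-- `u` is a solution on `Ω` of `∑_j A^j ∂_j u + B u = c`: it is locally Lipschitz and the system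
holds almost everywhere. -/
def IsSolution {n : ℕ} (Ω : Set (E n)) (A : Fin n → E n → Matrix (Fin n) (Fin n) ℝ)
    (B : E n → Matrix (Fin n) (Fin n) ℝ) (c : E n → Fin n → ℝ) (u : E n → E n) : Prop :=
  LocallyLipschitzOn Ω u ∧
    ∀ᵐ x ∂(volume.restrict Ω), DifferentiableAt ℝ u x ∧
      ∑ j, (A j x).mulVec (pd j u x) + (B x).mulVec (fun i => u x i) = c x

/-- The gain of one derivative fails in dimension `n` for the class `C^{m,α}`: there are a domain
`Ω ⊆ ℝⁿ`, a first-order elliptic system on `Ω` with coefficients `A^j, B, c` of class `C^{m,α}`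
and a solution `u` of it whose Jacobian vanishes nowhere on `Ω` and is of class `C^{m,α}` on `Ω`,
but for some point `x₀` of `Ω` the map `u` is not of class `C^{m+1,α}` on any neighbourhood
of `x₀`. -/
def GainFails (n m : ℕ) (α : ℝ) : Prop :=
  ∃ (Ω : Set (E n)) (A : Fin n → E n → Matrix (Fin n) (Fin n) ℝ)
    (B : E n → Matrix (Fin n) (Fin n) ℝ) (c : E n → Fin n → ℝ) (u : E n → E n) (x₀ : E n),
    IsOpen Ω ∧ IsConnected Ω ∧ x₀ ∈ Ω ∧
    Elliptic Ω A ∧
    (∀ j i l, HolderClass m α Ω (fun x => A j x i l)) ∧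
    (∀ i l, HolderClass m α Ω (fun x => B x i l)) ∧
    (∀ i, HolderClass m α Ω (fun x => c x i)) ∧
    IsSolution Ω A B c u ∧
    (∀ x ∈ Ω, jac u x ≠ 0) ∧
    HolderClass m α Ω (jac u) ∧
    ∀ V : Set (E n), IsOpen V → x₀ ∈ V → V ⊆ Ω → ¬ HolderClass (m + 1) α V u

/-- `a dz + b dconj z` as a real-linear map -/
noncomputable def wl (a b : ℂ) : ℂ →L[ℝ] ℂ :=
  a • (ContinuousLinearMap.id ℝ ℂ) + b • (Complex.conjCLE : ℂ →L[ℝ] ℂ)

lemma wl_apply (a b v : ℂ) : wl a b v = a * v + b * conj v := by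
  simp [wl]

lemma wl_zero : wl 0 0 = 0 := by
  ext v; simp [wl_apply]

/-- Wirtinger derivatives -/
def WD (f : ℂ → ℂ) (a b z : ℂ) : Prop := HasFDerivAt f (wl a b) z

lemma WD.mul {f g : ℂ → ℂ} {a b c d z : ℂ} (hf : WD f a b z) (hg : WD g c d z) :
    WD (fun w => f w * g w) (f z * c + a * g z) (f z * d + b * g z) z := by
  unfold WD at *
  refine (HasFDerivAt.mul hf hg).congr_fderiv ?_
  ext v
  simp [wl_apply]
  ring

lemma WD.id (z : ℂ) : WD (fun w => w) 1 0 z := by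
  unfold WD
  refine (hasFDerivAt_id z).congr_fderiv ?_
  ext v; simp [wl_apply]

lemma WD.conj (z : ℂ) : WD (fun w => conj w) 0 1 z := by
  unfold WD
  have h := (Complex.conjCLE : ℂ →L[ℝ] ℂ).hasFDerivAt (x := z)
  refine HasFDerivAt.congr_fderiv (f := fun w => (starRingEnd ℂ) w) h ?_
  ext v; simp [wl_apply]

/-- composition with a complex differentiable function -/
lemma WD.comp_holo {f : ℂ → ℂ} {g : ℂ → ℂ} {g' a b z : ℂ} (hg : HasDerivAt g g' (f z)) (hf : WD f a b z) :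
    WD (fun w => g (f w)) (g' * a) (g' * b) z := by
  unfold WD at *
  have h1 : HasFDerivAt g (ContinuousLinearMap.restrictScalars ℝ (ContinuousLinearMap.toSpanSingleton ℂ g')) (f z) :=
    hg.hasFDerivAt.restrictScalars ℝ
  refine (HasFDerivAt.comp z h1 hf).congr_fderiv ?_
  ext v
  simp [wl_apply]
  ring

lemma WD.zpow {z : ℂ} (hz : z ≠ 0) (a : ℤ) : WD (fun w => w ^ a) (a * z ^ (a-1)) 0 z := by
  have := WD.comp_holo (g := fun w => w ^ a) (hasDerivAt_zpow a z (Or.inl hz)) (WD.id z)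
  simpa using this

lemma WD.conj_zpow {z : ℂ} (hz : z ≠ 0) (a : ℤ) : WD (fun w => (conj w) ^ a) 0 (a * (conj z) ^ (a-1)) z := by
  have := WD.comp_holo (g := fun w => w ^ a) (hasDerivAt_zpow a (conj z) (Or.inl (by simpa using hz))) (WD.conj z)
  simpa using this

/-- composition with a real differentiable function of a real-valued function -/
lemma WD.comp_real {f : ℂ → ℝ} {g : ℝ → ℝ} {g' : ℝ} {a b z : ℂ} (hg : HasDerivAt g g' (f z))
    (hf : WD (fun w => (f w : ℂ)) a b z) :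
    WD (fun w => (g (f w) : ℂ)) (g' * a) (g' * b) z := by
  unfold WD at *
  have hfr : HasFDerivAt f (Complex.reCLM.comp (wl a b)) z := by
    have := Complex.reCLM.hasFDerivAt.comp z hf
    simpa [Function.comp_def] using this
  have h2 : HasFDerivAt (fun w => g (f w)) _ z := HasDerivAt.comp_hasFDerivAt z hg hfr
  have h3 := Complex.ofRealCLM.hasFDerivAt.comp z h2
  have h4 := Complex.ofRealCLM.hasFDerivAt.comp z hfr
  have h5 : wl a b = Complex.ofRealCLM.comp (Complex.reCLM.comp (wl a b)) := hf.unique (by simpa [Function.comp_def] using h4)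
  refine HasFDerivAt.congr_fderiv (by simpa [Function.comp_def] using h3) ?_
  ext v
  have h6 := congrArg (fun L : ℂ →L[ℝ] ℂ => L v) h5
  simp only [ContinuousLinearMap.comp_apply, Complex.ofRealCLM_apply, Complex.reCLM_apply, wl_apply] at h6
  simp only [ContinuousLinearMap.comp_apply, Complex.ofRealCLM_apply, smul_apply, Complex.reCLM_apply, wl_apply]
  have : (g' * a * v + g' * b * conj v : ℂ) = g' * (a * v + b * conj v) := by ring
  rw [this, h6]
  simp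
  ring

lemma WD.normSq (z : ℂ) : WD (fun w => (Complex.normSq w : ℂ)) (conj z) z z := by
  have h := (WD.id z).mul (WD.conj z)
  simp only [Complex.mul_conj] at h
  simpa using h

/-- `log |z|²` -/
noncomputable def Lg (z : ℂ) : ℝ := Real.log (Complex.normSq z)

/-- `log |log |z|²|` -/
noncomputable def LL (z : ℂ) : ℝ := Real.log (Real.log (Complex.normSq z))

lemma Lg_neg {z : ℂ} (hz : z ≠ 0) (h1 : ‖z‖ < 1) : Lg z < 0 := by
  unfold Lg
  apply Real.log_neg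
  · exact Complex.normSq_pos.mpr hz
  · rw [Complex.normSq_eq_norm_sq]
    have := norm_nonneg z
    nlinarith

lemma WD.of_Lg {z : ℂ} (hz : z ≠ 0) : WD (fun w => (Lg w : ℂ)) z⁻¹ (conj z)⁻¹ z := by
  have hn : Complex.normSq z ≠ 0 := by simpa using hz
  have h := WD.comp_real (Real.hasDerivAt_log hn) (WD.normSq z)
  have hc : conj z ≠ 0 := by simpa using hz
  have e : ((Complex.normSq z : ℝ) : ℂ) = z * conj z := (Complex.mul_conj z).symm
  have e3 : (((Complex.normSq z)⁻¹ : ℝ) : ℂ) = (z * conj z)⁻¹ := by push_cast; rw [e]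
  have e1 : (z * conj z)⁻¹ * conj z = z⁻¹ := by field_simp
  have e2 : (z * conj z)⁻¹ * z = (conj z)⁻¹ := by field_simp
  rw [e3, e1, e2] at h
  exact h

lemma WD.of_LL {z : ℂ} (hz : z ≠ 0) (h1 : ‖z‖ < 1) :
    WD (fun w => (LL w : ℂ)) ((Lg z : ℂ)⁻¹ * z⁻¹) ((Lg z : ℂ)⁻¹ * (conj z)⁻¹) z := by
  have h := WD.comp_real (g := Real.log) (Real.hasDerivAt_log (Lg_neg hz h1).ne) (WD.of_Lg hz)
  push_cast at h
  exact h

/-- the basic monomials -/
noncomputable def N (a b : ℤ) (p q : ℕ) (z : ℂ) : ℂ :=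
  z ^ a * (conj z) ^ b * (LL z : ℂ) ^ p * ((Lg z : ℂ)⁻¹) ^ q

lemma WD.pow {f : ℂ → ℂ} {a b z : ℂ} (hf : WD f a b z) (p : ℕ) :
    WD (fun w => f w ^ p) (p * f z ^ (p-1) * a) (p * f z ^ (p-1) * b) z :=
  WD.comp_holo (g := fun w => w ^ p) (hasDerivAt_pow p (f z)) hf

lemma WD.of_N {z : ℂ} (hz : z ≠ 0) (h1 : ‖z‖ < 1) (a b : ℤ) (p q : ℕ) :
    WD (N a b p q)
      (a * N (a-1) b p q z + p * N (a-1) b (p-1) (q+1) z - q * N (a-1) b p (q+1) z)
      (b * N a (b-1) p q z + p * N a (b-1) (p-1) (q+1) z - q * N a (b-1) p (q+1) z) z := by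
  have hl : (Lg z : ℂ) ≠ 0 := by exact_mod_cast (Lg_neg hz h1).ne
  have hc : conj z ≠ 0 := by simpa using hz
  have hLinv : WD (fun w => ((Lg w : ℂ))⁻¹) (-((Lg z : ℂ)^2)⁻¹ * z⁻¹) (-((Lg z : ℂ)^2)⁻¹ * (conj z)⁻¹) z :=
    WD.comp_holo (hasDerivAt_inv hl) (WD.of_Lg hz)
  have h := (((WD.zpow hz a).mul (WD.conj_zpow hz b)).mul ((WD.of_LL hz h1).pow p)).mul (hLinv.pow q)
  have e1 : z ^ a = z ^ (a-1) * z := by
    rw [zpow_sub_one₀ hz]; field_simp
  have e2 : (conj z) ^ b = (conj z) ^ (b-1) * conj z := by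
    rw [zpow_sub_one₀ hc]; field_simp
  unfold N
  convert h using 1
  · rw [e1]
    rcases q with _ | q
    · simp
      field_simp
      ring
    · simp
      field_simp
      ring
  · rw [e2]
    rcases q with _ | q
    · simp
      field_simp
      ring
    · simp
      field_simp
      ring

lemma norm_N {z : ℂ} (hz : z ≠ 0) (a b : ℤ) (p q : ℕ) :
    ‖N a b p q z‖ = ‖z‖ ^ (a + b) * |LL z| ^ p * (|Lg z|⁻¹) ^ q := by
  unfold N
  rw [zpow_add₀ (norm_ne_zero_iff.mpr hz)]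
  simp [norm_pow, norm_zpow, norm_inv]

lemma tendsto_abs_Lg : Tendsto (fun z => |Lg z|) (𝓝[≠] (0:ℂ)) atTop := by
  have h1 : Tendsto (fun z : ℂ => Complex.normSq z) (𝓝[≠] (0:ℂ)) (𝓝[>] 0) := by
    apply tendsto_nhdsWithin_iff.mpr
    constructor
    · have := (Complex.continuous_normSq.tendsto (0:ℂ)).mono_left (nhdsWithin_le_nhds (s := {0}ᶜ))
      simpa using this
    · filter_upwards [self_mem_nhdsWithin] with z hz
      exact Complex.normSq_pos.mpr hz
  exact tendsto_abs_atBot_atTop.comp (Real.tendsto_log_nhdsGT_zero.comp h1)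

lemma Lg_eq (z : ℂ) : Lg z = 2 * Real.log ‖z‖ := by
  unfold Lg
  rw [Complex.normSq_eq_norm_sq, Real.log_pow]
  norm_num

lemma tendsto_norm_mul_Lg : Tendsto (fun z => ‖z‖ * |Lg z|) (𝓝[≠] (0:ℂ)) (𝓝 0) := by
  have h1 : Continuous (fun z : ℂ => ‖z‖ * |Lg z|) := by
    have : (fun z : ℂ => ‖z‖ * |Lg z|) = fun z : ℂ => 2 * |‖z‖ * Real.log ‖z‖| := by
      funext z
      rw [Lg_eq, abs_mul, abs_mul, abs_of_nonneg (norm_nonneg z)]
      norm_num
      ring
    rw [this]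
    exact continuous_const.mul (Real.continuous_mul_log.comp continuous_norm).abs
  have := (h1.tendsto 0).mono_left (nhdsWithin_le_nhds (s := {(0:ℂ)}ᶜ))
  simpa using this

lemma N_zero {a b : ℤ} {p q : ℕ} (h : 1 ≤ a + b ∨ (0 ≤ a + b ∧ 1 ≤ q)) : N a b p q 0 = 0 := by
  unfold N
  rcases h with h | ⟨h, hq⟩
  · by_cases ha : a = 0
    · have hb : b ≠ 0 := by omega
      simp [zero_zpow _ hb]
    · simp [zero_zpow _ ha]
  · have : q ≠ 0 := by omega
    simp [Lg, this]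

lemma log_pow_le : ∀ p : ℕ, ∀ᶠ z in 𝓝[≠] (0:ℂ), |LL z| ^ p ≤ |Lg z| := by
  intro p
  have h := (Real.isLittleO_pow_log_id_atTop (n := p)).bound (c := 1) one_pos
  have h2 := tendsto_abs_Lg.eventually h
  filter_upwards [h2] with z hz
  have e : LL z = Real.log |Lg z| := by
    unfold LL Lg; rw [Real.log_abs]
  rw [e]
  simpa [norm_pow] using hz

lemma tendsto_N {a b : ℤ} {p q : ℕ} (h : 1 ≤ a + b ∨ (0 ≤ a + b ∧ 1 ≤ q)) :
    Tendsto (N a b p q) (𝓝[≠] 0) (𝓝 0) := by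
  rw [tendsto_zero_iff_norm_tendsto_zero]
  have hev : ∀ᶠ z in 𝓝[≠] (0:ℂ), z ≠ 0 ∧ ‖z‖ < 1 ∧ 1 ≤ |Lg z| := by
    have h1 : ∀ᶠ z in 𝓝[≠] (0:ℂ), ‖z‖ < 1 := by
      have : ∀ᶠ z in 𝓝 (0:ℂ), ‖z‖ < 1 := by
        have := Metric.ball_mem_nhds (0:ℂ) one_pos
        filter_upwards [this] with z hz
        simpa using hz
      exact this.filter_mono nhdsWithin_le_nhds
    filter_upwards [self_mem_nhdsWithin, h1, tendsto_abs_Lg.eventually_ge_atTop 1] with z a1 a2 a3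
    exact ⟨a1, a2, a3⟩
  rcases h with h | ⟨h, hq⟩
  · -- bound by ‖z‖ * |Lg z|
    refine squeeze_zero' (Eventually.of_forall fun z => norm_nonneg _) ?_ tendsto_norm_mul_Lg
    filter_upwards [hev, log_pow_le p] with z ⟨hz, h1, h2⟩ h3
    rw [norm_N hz]
    have i1 : ‖z‖ ^ (a+b) ≤ ‖z‖ := by
      have : ‖z‖ ^ (a + b) ≤ ‖z‖ ^ (1:ℤ) :=
        zpow_le_zpow_right_of_le_one₀ (norm_pos_iff.mpr hz) h1.le h
      simpa using this
    have i2 : (|Lg z|⁻¹) ^ q ≤ 1 := pow_le_one₀ (by positivity) (inv_le_one_of_one_le₀ h2)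
    calc ‖z‖ ^ (a + b) * |LL z| ^ p * (|Lg z|⁻¹) ^ q ≤ ‖z‖ * |Lg z| * 1 := by
          gcongr
      _ = _ := by ring
  · have h4 : Tendsto (fun z => |LL z| ^ p * |Lg z|⁻¹) (𝓝[≠] (0:ℂ)) (𝓝 0) := by
      have h := (Real.isLittleO_pow_log_id_atTop (n := p)).tendsto_div_nhds_zero
      have h2 := (h.comp tendsto_abs_Lg).abs
      simp only [abs_zero] at h2
      refine h2.congr' ?_
      filter_upwards [] with z
      have e : LL z = Real.log |Lg z| := by
        unfold LL Lg; rw [Real.log_abs]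
      simp [e, abs_pow, div_eq_mul_inv]
    refine squeeze_zero' (Eventually.of_forall fun z => norm_nonneg _) ?_ h4
    filter_upwards [hev] with z ⟨hz, h1, h2⟩
    rw [norm_N hz]
    have i1 : ‖z‖ ^ (a+b) ≤ 1 := by
      have : ‖z‖ ^ (a + b) ≤ ‖z‖ ^ (0:ℤ) :=
        zpow_le_zpow_right_of_le_one₀ (norm_pos_iff.mpr hz) h1.le h
      simpa using this
    have i2 : (|Lg z|⁻¹) ^ q ≤ |Lg z|⁻¹ :=
      pow_le_of_le_one (by positivity) (inv_le_one_of_one_le₀ h2) (by omega)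
    calc ‖z‖ ^ (a + b) * |LL z| ^ p * (|Lg z|⁻¹) ^ q ≤ 1 * |LL z| ^ p * |Lg z|⁻¹ := by
          gcongr
      _ = _ := by ring

lemma N_succ {z : ℂ} (hz : z ≠ 0) (a b : ℤ) (p q : ℕ) : N a b p q z = z * N (a-1) b p q z := by
  have e1 : z ^ a = z * z ^ (a-1) := by
    rw [zpow_sub_one₀ hz]; field_simp
  unfold N
  rw [e1]; ring

lemma N_hasFDerivAt_zero {a b : ℤ} {p q : ℕ} (h : 2 ≤ a + b ∨ (1 ≤ a + b ∧ 1 ≤ q)) :
    HasFDerivAt (N a b p q) (0 : ℂ →L[ℝ] ℂ) 0 := by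
  rw [hasFDerivAt_iff_isLittleO_nhds_zero]
  have h0 : N a b p q 0 = 0 := N_zero (by omega)
  have h1 : Tendsto (N (a-1) b p q) (𝓝[≠] 0) (𝓝 0) := tendsto_N (by omega)
  rw [isLittleO_iff]
  intro c hc
  have h2 : ∀ᶠ z in 𝓝[≠] (0:ℂ), ‖N (a-1) b p q z‖ < c := by
    have := h1.eventually (Metric.ball_mem_nhds (0:ℂ) hc)
    filter_upwards [this] with z hz
    simpa using hz
  rw [eventually_nhdsWithin_iff] at h2
  filter_upwards [h2] with z hz
  by_cases hz0 : z = 0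
  · simp [hz0, h0]
  · have h3 := hz hz0
    rw [zero_add, h0, N_succ hz0]
    simp only [_root_.sub_zero, zero_apply, norm_mul]
    rw [mul_comm]
    gcongr

lemma N_WD {m : ℕ} {a b : ℤ} {p q : ℕ} (h : (m : ℤ) + 2 ≤ a + b ∨ ((m : ℤ) + 1 ≤ a + b ∧ 1 ≤ q))
    {z : ℂ} (h1 : ‖z‖ < 1) : WD (N a b p q)
      (a * N (a-1) b p q z + p * N (a-1) b (p-1) (q+1) z - q * N (a-1) b p (q+1) z)
      (b * N a (b-1) p q z + p * N a (b-1) (p-1) (q+1) z - q * N a (b-1) p (q+1) z) z := by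
  by_cases hz : z = 0
  · subst hz
    rw [N_zero (a := a-1) (b := b) (p := p) (q := q) (by omega),
      N_zero (a := a-1) (b := b) (p := p-1) (q := q+1) (by omega),
      N_zero (a := a-1) (b := b) (p := p) (q := q+1) (by omega),
      N_zero (a := a) (b := b-1) (p := p) (q := q) (by omega),
      N_zero (a := a) (b := b-1) (p := p-1) (q := q+1) (by omega),
      N_zero (a := a) (b := b-1) (p := p) (q := q+1) (by omega)]
    simp only [mul_zero, add_zero, sub_zero]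
    unfold WD
    rw [wl_zero]
    exact N_hasFDerivAt_zero (by omega)
  · exact WD.of_N hz h1 a b p q

lemma N_contDiffOn : ∀ (m : ℕ) (a b : ℤ) (p q : ℕ),
    ((m : ℤ) + 1 ≤ a + b ∨ ((m : ℤ) ≤ a + b ∧ 1 ≤ q)) →
    ContDiffOn ℝ m (N a b p q) (Metric.ball 0 1) := by
  intro m
  induction m with
  | zero =>
    intro a b p q h
    rw [Nat.cast_zero, contDiffOn_zero]
    intro z hz
    have h1 : ‖z‖ < 1 := by simpa using hz
    apply ContinuousAt.continuousWithinAt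
    by_cases hz0 : z = 0
    · subst hz0
      rw [continuousAt_iff_punctured_nhds, N_zero (by simpa using h)]
      exact tendsto_N (by simpa using h)
    · exact (WD.of_N hz0 h1 a b p q : HasFDerivAt _ _ _).continuousAt
  | succ m ih =>
    intro a b p q h
    have hW : ∀ z ∈ Metric.ball (0:ℂ) 1, WD (N a b p q)
      (a * N (a-1) b p q z + p * N (a-1) b (p-1) (q+1) z - q * N (a-1) b p (q+1) z)
      (b * N a (b-1) p q z + p * N a (b-1) (p-1) (q+1) z - q * N a (b-1) p (q+1) z) z := by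
      intro z hz
      exact N_WD (m := m) (by push_cast at h; omega) (by simpa using hz)
    have hop : IsOpen (Metric.ball (0:ℂ) 1) := Metric.isOpen_ball
    rw [Nat.cast_succ, contDiffOn_succ_iff_fderiv_of_isOpen hop]
    refine ⟨fun z hz => (hW z hz : HasFDerivAt _ _ _).differentiableAt.differentiableWithinAt, by simp, ?_⟩
    have hcong : ContDiffOn ℝ m (fun z => wl (a * N (a-1) b p q z + p * N (a-1) b (p-1) (q+1) z - q * N (a-1) b p (q+1) z)
      (b * N a (b-1) p q z + p * N a (b-1) (p-1) (q+1) z - q * N a (b-1) p (q+1) z)) (Metric.ball 0 1) := by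
      unfold wl
      push_cast at h
      have c1 := ih (a-1) b p q (by omega)
      have c2 := ih (a-1) b (p-1) (q+1) (by omega)
      have c3 := ih (a-1) b p (q+1) (by omega)
      have c4 := ih a (b-1) p q (by omega)
      have c5 := ih a (b-1) (p-1) (q+1) (by omega)
      have c6 := ih a (b-1) p (q+1) (by omega)
      exact (((((contDiffOn_const.mul c1).add (contDiffOn_const.mul c2)).sub (contDiffOn_const.mul c3)).smul contDiffOn_const)).add
        (((((contDiffOn_const.mul c4).add (contDiffOn_const.mul c5)).sub (contDiffOn_const.mul c6)).smul contDiffOn_const))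
    refine hcong.congr ?_
    intro z hz
    exact (hW z hz : HasFDerivAt _ _ _).fderiv

/-- Lipschitz bound at `0` for the `m`-th derivative -/
def LipAt (m : ℕ) (f : ℝ → ℂ) : Prop :=
  ∃ C : ℝ, ∀ᶠ t in 𝓝 (0:ℝ), ‖iteratedDeriv m f t - iteratedDeriv m f 0‖ ≤ C * |t|

lemma LipAt.of_contDiffAt {m : ℕ} {f : ℝ → ℂ} (h : ContDiffAt ℝ ((m:ℕ∞ω) + 1) f 0) : LipAt m f := by
  have h1 : ContDiffAt ℝ 1 (iteratedFDeriv ℝ m f) 0 := by
    apply h.iteratedFDeriv_right
    rw [add_comm]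
  obtain ⟨K, t, ht, hK⟩ := h1.exists_lipschitzOnWith
  refine ⟨K, ?_⟩
  filter_upwards [ht] with s hs
  have h2 := hK.dist_le_mul s hs 0 (mem_of_mem_nhds ht)
  rw [iteratedDeriv_eq_iteratedFDeriv, iteratedDeriv_eq_iteratedFDeriv, ← _root_.sub_apply]
  have h3 := (iteratedFDeriv ℝ m f s - iteratedFDeriv ℝ m f 0).le_opNorm (fun _ => (1:ℝ))
  simp only [norm_one, Finset.prod_const_one, mul_one] at h3
  refine h3.trans ?_
  rw [← dist_eq_norm]
  simpa using h2

lemma LipAt.sub {m : ℕ} {f g : ℝ → ℂ} (hf : LipAt m f) (hg : LipAt m g)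
    (cf : ContDiffAt ℝ m f 0) (cg : ContDiffAt ℝ m g 0) : LipAt m (fun t => f t - g t) := by
  obtain ⟨C, hC⟩ := hf
  obtain ⟨D, hD⟩ := hg
  refine ⟨C + D, ?_⟩
  filter_upwards [hC, hD, cf.eventually (by simp), cg.eventually (by simp)] with t h1 h2 h3 h4
  have e : ∀ s, ContDiffAt ℝ m f s → ContDiffAt ℝ m g s →
      iteratedDeriv m (fun t => f t - g t) s = iteratedDeriv m f s - iteratedDeriv m g s := by
    intro s a1 a2
    exact iteratedDeriv_sub a1 a2
  rw [e t h3 h4, e 0 cf cg]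
  calc ‖iteratedDeriv m f t - iteratedDeriv m g t - (iteratedDeriv m f 0 - iteratedDeriv m g 0)‖
      = ‖(iteratedDeriv m f t - iteratedDeriv m f 0) - (iteratedDeriv m g t - iteratedDeriv m g 0)‖ := by
        congr 1; ring
    _ ≤ _ := norm_sub_le _ _
    _ ≤ C * |t| + D * |t| := add_le_add h1 h2
    _ = _ := by ring

lemma LipAt.const_mul {m : ℕ} {f : ℝ → ℂ} (c : ℂ) (hf : LipAt m f)
    (cf : ContDiffAt ℝ m f 0) : LipAt m (fun t => c * f t) := by
  obtain ⟨C, hC⟩ := hf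
  refine ⟨‖c‖ * C, ?_⟩
  filter_upwards [hC, cf.eventually (by simp)] with t h1 h3
  rw [iteratedDeriv_const_mul c h3, iteratedDeriv_const_mul c cf, ← mul_sub, norm_mul, mul_assoc]
  gcongr

lemma LipAt.congr {m : ℕ} {f g : ℝ → ℂ} (hf : LipAt m f) (h : f =ᶠ[𝓝 0] g) : LipAt m g := by
  obtain ⟨C, hC⟩ := hf
  refine ⟨C, ?_⟩
  have h2 := h.iteratedDeriv m
  filter_upwards [hC, h2] with t h1 h3
  rw [← h3, ← h2.self_of_nhds]
  exact h1

lemma LipAt.deriv {m : ℕ} {f : ℝ → ℂ} (hf : LipAt (m+1) f) : LipAt m (deriv f) := by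
  obtain ⟨C, hC⟩ := hf
  refine ⟨C, ?_⟩
  rw [iteratedDeriv_succ'] at hC
  exact hC

lemma N_real_contDiffAt (m : ℕ) (a b : ℤ) (p q : ℕ)
    (h : (m : ℤ) + 1 ≤ a + b ∨ ((m : ℤ) ≤ a + b ∧ 1 ≤ q)) :
    ContDiffAt ℝ m (fun t : ℝ => N a b p q (t : ℂ)) 0 := by
  have h1 : ContDiffAt ℝ m (N a b p q) (Complex.ofRealCLM 0) := by
    simp only [Complex.ofRealCLM_apply, Complex.ofReal_zero]
    exact (N_contDiffOn m a b p q h).contDiffAt (Metric.ball_mem_nhds _ one_pos)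
  exact h1.comp 0 Complex.ofRealCLM.contDiff.contDiffAt

lemma WD.real {f : ℂ → ℂ} {a b : ℂ} {t : ℝ} (h : WD f a b (t : ℂ)) :
    HasDerivAt (fun s : ℝ => f (s : ℂ)) (a + b) t := by
  have h1 := HasFDerivAt.comp_hasDerivAt t (h : HasFDerivAt f (wl a b) (t:ℂ)) (Complex.ofRealCLM.hasDerivAt (x := t))
  simpa [wl_apply, Function.comp_def] using h1

lemma not_lip : ∀ m : ℕ, ¬ LipAt m (fun t : ℝ => N ((m:ℤ)+1) 0 1 0 (t : ℂ)) := by
  intro m
  induction m with
  | zero =>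
    rintro ⟨C, hC⟩
    have h1 : ∀ᶠ t : ℝ in 𝓝[≠] (0:ℝ), |LL (t:ℂ)| ≤ C := by
      rw [eventually_nhdsWithin_iff]
      filter_upwards [hC] with t ht ht0
      simp only [iteratedDeriv_zero, Complex.ofReal_zero] at ht
      rw [N_zero (by norm_num), _root_.sub_zero] at ht
      have hz : (t:ℂ) ≠ 0 := by exact_mod_cast ht0
      rw [norm_N hz] at ht
      simp at ht
      have : 0 < |t| := abs_pos.mpr ht0
      rw [mul_comm] at ht
      exact le_of_mul_le_mul_right ht this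
    have h2 : Tendsto (fun t : ℝ => (t:ℂ)) (𝓝[≠] (0:ℝ)) (𝓝[≠] (0:ℂ)) := by
      apply tendsto_nhdsWithin_iff.mpr
      constructor
      · have := (Complex.continuous_ofReal.tendsto (0:ℝ)).mono_left (nhdsWithin_le_nhds (s := {(0:ℝ)}ᶜ))
        simpa using this
      · filter_upwards [self_mem_nhdsWithin] with t ht
        simpa using ht
    have h3 : Tendsto (fun z : ℂ => Real.log |Lg z|) (𝓝[≠] (0:ℂ)) atTop := Real.tendsto_log_atTop.comp tendsto_abs_Lg
    have h4 := (h3.comp h2).eventually_gt_atTop C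
    obtain ⟨t, ht1, ht2⟩ := (h1.and h4).exists
    have e : LL (t:ℂ) = Real.log |Lg (t:ℂ)| := by
      unfold LL Lg; rw [Real.log_abs]
    rw [e] at ht1
    simp only [Function.comp_apply] at ht2
    exact absurd (lt_of_lt_of_le ht2 ((le_abs_self _).trans ht1)) (lt_irrefl _)
  | succ m ih =>
    intro h
    apply ih
    have hd := h.deriv
    -- the derivative near zero
    have hev : deriv (fun t : ℝ => N (((m+1 : ℕ):ℤ)+1) 0 1 0 (t : ℂ)) =ᶠ[𝓝 0]
        fun t : ℝ => ((m:ℂ)+2) * N ((m:ℤ)+1) 0 1 0 (t:ℂ) - (-(N ((m:ℤ)+1) 0 0 1 (t:ℂ)) - N ((m:ℤ)+2) (-1) 0 1 (t:ℂ)) := by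
      have hb : ∀ᶠ t : ℝ in 𝓝 (0:ℝ), ‖(t:ℂ)‖ < 1 := by
        have := Metric.ball_mem_nhds (0:ℝ) one_pos
        filter_upwards [this] with t ht
        simpa using ht
      filter_upwards [hb] with t ht
      have hw := (N_WD (m := m) (a := ((m+1 : ℕ):ℤ)+1) (b := 0) (p := 1) (q := 0) (by push_cast; omega) ht).real
      rw [hw.deriv]
      have e1 : (((m+1 : ℕ):ℤ)+1 - 1) = (m:ℤ)+1 := by push_cast; ring
      have e2 : (((m+1 : ℕ):ℤ)+1) = (m:ℤ)+2 := by push_cast; ring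
      rw [e1, e2]
      simp
      ring
    have hd2 := hd.congr hev
    have c1 : ContDiffAt ℝ ((m:ℕ∞ω) + 1) (fun t : ℝ => N ((m:ℤ)+1) 0 0 1 (t:ℂ)) 0 := by
      have := N_real_contDiffAt (m+1) ((m:ℤ)+1) 0 0 1 (Or.inr ⟨by push_cast; omega, le_rfl⟩)
      exact_mod_cast this
    have c2 : ContDiffAt ℝ ((m:ℕ∞ω) + 1) (fun t : ℝ => N ((m:ℤ)+2) (-1) 0 1 (t:ℂ)) 0 := by
      have := N_real_contDiffAt (m+1) ((m:ℤ)+2) (-1) 0 1 (Or.inr ⟨by push_cast; omega, le_rfl⟩)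
      exact_mod_cast this
    have c3 : ContDiffAt ℝ m (fun t : ℝ => N ((m:ℤ)+1) 0 1 0 (t:ℂ)) 0 :=
      N_real_contDiffAt m ((m:ℤ)+1) 0 1 0 (by omega)
    have c4 : ContDiffAt ℝ ((m:ℕ∞ω) + 1) (fun t : ℝ => (-(N ((m:ℤ)+1) 0 0 1 (t:ℂ)) - N ((m:ℤ)+2) (-1) 0 1 (t:ℂ))) 0 :=
      c1.neg.sub c2
    have l4 := LipAt.of_contDiffAt c4
    have c4' : ContDiffAt ℝ m (fun t : ℝ => (-(N ((m:ℤ)+1) 0 0 1 (t:ℂ)) - N ((m:ℤ)+2) (-1) 0 1 (t:ℂ))) 0 :=
      c4.of_le (by simp)
    have c5 : ContDiffAt ℝ m (fun t : ℝ => ((m:ℂ)+2) * N ((m:ℤ)+1) 0 1 0 (t:ℂ)) 0 := contDiffAt_const.mul c3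
    -- add back
    have l5 : LipAt m (fun t : ℝ => ((m:ℂ)+2) * N ((m:ℤ)+1) 0 1 0 (t:ℂ)) := by
      have l6 : LipAt m (fun t : ℝ => -(-(N ((m:ℤ)+1) 0 0 1 (t:ℂ)) - N ((m:ℤ)+2) (-1) 0 1 (t:ℂ))) :=
        LipAt.of_contDiffAt c4.neg
      have := hd2.sub l6 (c5.sub c4') (c4'.neg)
      refine this.congr ?_
      filter_upwards [] with t
      ring
    have l7 := l5.const_mul (((m:ℂ)+2)⁻¹) c5
    refine l7.congr ?_
    filter_upwards [] with t
    have hm : ((m:ℂ)+2) ≠ 0 := by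
      have : ((m:ℂ)+2) = ((m+2 : ℕ) : ℂ) := by push_cast; ring
      rw [this]
      exact_mod_cast (Nat.succ_ne_zero (m+1))
    field_simp


/-! ### Hoelder classes -/

section classes

variable {V W : Type*} [NormedAddCommGroup V] [NormedSpace ℝ V]
    [NormedAddCommGroup W] [NormedSpace ℝ W]

lemma HolderClass.of_zero {m : ℕ} {Ω : Set V} (hΩ : IsOpen Ω) {f : V → W}
    (hf : ContDiffOn ℝ m f Ω) : HolderClass m 0 Ω f := by
  refine ⟨hf, fun x hx => ?_⟩
  have h1 : ContinuousAt (iteratedFDeriv ℝ m f) x := by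
    have h2 : ContDiffAt ℝ m f x := hf.contDiffAt (hΩ.mem_nhds hx)
    have : ContDiffAt ℝ 0 (iteratedFDeriv ℝ m f) x := h2.iteratedFDeriv_right (by simp)
    exact this.continuousAt
  refine ⟨2, {y | ‖iteratedFDeriv ℝ m f y - iteratedFDeriv ℝ m f x‖ < 1}, ?_, ?_⟩
  · have := h1.eventually (Metric.ball_mem_nhds _ one_pos)
    filter_upwards [this] with y hy
    simpa [dist_eq_norm] using hy
  · rintro y ⟨hy, -⟩ z ⟨hz, -⟩
    rw [Real.rpow_zero, mul_one]
    change ‖iteratedFDeriv ℝ m f y - iteratedFDeriv ℝ m f x‖ < 1 at hy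
    change ‖iteratedFDeriv ℝ m f z - iteratedFDeriv ℝ m f x‖ < 1 at hz
    calc ‖iteratedFDeriv ℝ m f y - iteratedFDeriv ℝ m f z‖
        = ‖(iteratedFDeriv ℝ m f y - iteratedFDeriv ℝ m f x) - (iteratedFDeriv ℝ m f z - iteratedFDeriv ℝ m f x)‖ := by
          congr 1; abel
      _ ≤ _ := norm_sub_le _ _
      _ ≤ 2 := by linarith

lemma HolderClass.of_succ {m : ℕ} {Ω : Set V} (hΩ : IsOpen Ω) {f : V → W}
    (hf : ContDiffOn ℝ (m + 1 : ℕ) f Ω) : HolderClass m 1 Ω f := by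
  refine ⟨hf.of_le (by exact_mod_cast Nat.le_succ m), fun x hx => ?_⟩
  have h2 : ContDiffAt ℝ (m + 1 : ℕ) f x := hf.contDiffAt (hΩ.mem_nhds hx)
  have h1 : ContDiffAt ℝ 1 (iteratedFDeriv ℝ m f) x := by
    apply h2.iteratedFDeriv_right
    push_cast
    rw [add_comm]
  obtain ⟨K, t, ht, hK⟩ := h1.exists_lipschitzOnWith
  refine ⟨K, t, ht, ?_⟩
  rintro y ⟨hy, -⟩ z ⟨hz, -⟩
  rw [Real.rpow_one, ← dist_eq_norm, ← dist_eq_norm]
  exact hK.dist_le_mul y hy z hz

end classes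

/-! ### The example -/

/-- the example, as a function of a complex variable -/
noncomputable def w (k : ℕ) (z : ℂ) : ℂ := conj z + N ((k:ℤ)+2) 0 1 0 z

/-- `∂w/∂z` -/
noncomputable def wz (k : ℕ) (z : ℂ) : ℂ := ((k:ℂ)+2) * N ((k:ℤ)+1) 0 1 0 z + N ((k:ℤ)+1) 0 0 1 z

/-- `∂w/∂(conj z)` -/
noncomputable def wzb (k : ℕ) (z : ℂ) : ℂ := 1 + N ((k:ℤ)+2) (-1) 0 1 z

lemma WD.add {f g : ℂ → ℂ} {a b c d z : ℂ} (hf : WD f a b z) (hg : WD g c d z) :
    WD (fun w => f w + g w) (a + c) (b + d) z := by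
  unfold WD at *
  refine (HasFDerivAt.add hf hg).congr_fderiv ?_
  ext v
  simp [wl_apply]
  ring

lemma w_WD (k : ℕ) {z : ℂ} (hz : ‖z‖ < 1) : WD (w k) (wz k z) (wzb k z) z := by
  have h := (WD.conj z).add (N_WD (m := k) (a := (k:ℤ)+2) (b := 0) (p := 1) (q := 0) (by omega) hz)
  have e1 : (k:ℤ)+2-1 = (k:ℤ)+1 := by ring
  rw [e1] at h
  have e2 : (0:ℂ) + ((((k:ℤ)+2 : ℤ):ℂ) * N ((k:ℤ)+1) 0 1 0 z + ((1:ℕ):ℂ) * N ((k:ℤ)+1) 0 (1-1) (0+1) z
      - ((0:ℕ):ℂ) * N ((k:ℤ)+1) 0 1 (0+1) z) = wz k z := by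
    unfold wz; push_cast; simp
  have e3 : (1:ℂ) + (((0:ℤ):ℂ) * N ((k:ℤ)+2) (0-1) 1 0 z + ((1:ℕ):ℂ) * N ((k:ℤ)+2) (0-1) (1-1) (0+1) z
      - ((0:ℕ):ℂ) * N ((k:ℤ)+2) (0-1) 1 (0+1) z) = wzb k z := by
    unfold wzb; push_cast; simp
  rw [e2, e3] at h
  exact h

lemma w_contDiffOn (k : ℕ) : ContDiffOn ℝ (k + 1 : ℕ) (w k) (Metric.ball 0 1) := by
  unfold w
  refine ContDiffOn.add ?_ (N_contDiffOn (k+1) _ _ _ _ (by push_cast; omega))
  exact (Complex.conjCLE : ℂ →L[ℝ] ℂ).contDiff.contDiffOn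

lemma wzb_contDiffOn (k : ℕ) : ContDiffOn ℝ (k + 1 : ℕ) (wzb k) (Metric.ball 0 1) := by
  unfold wzb
  exact contDiffOn_const.add (N_contDiffOn (k+1) _ _ _ _ (Or.inr ⟨by push_cast; omega, le_rfl⟩))

/-- the square of the modulus of `∂w/∂z` -/
lemma normSq_wz (k : ℕ) (z : ℂ) : (Complex.normSq (wz k z) : ℂ) =
    ((k:ℂ)+2)^2 * N ((k:ℤ)+1) ((k:ℤ)+1) 2 0 z + 2 * ((k:ℂ)+2) * N ((k:ℤ)+1) ((k:ℤ)+1) 1 1 z
      + N ((k:ℤ)+1) ((k:ℤ)+1) 0 2 z := by
  rw [← Complex.mul_conj]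
  have h2 : conj (2:ℂ) = 2 := map_ofNat _ 2
  unfold wz N
  simp [h2]
  ring

lemma normSq_wz_contDiffOn (k : ℕ) :
    ContDiffOn ℝ (k + 1 : ℕ) (fun z => Complex.normSq (wz k z)) (Metric.ball 0 1) := by
  have h : ContDiffOn ℝ (k + 1 : ℕ) (fun z => ((k:ℂ)+2)^2 * N ((k:ℤ)+1) ((k:ℤ)+1) 2 0 z
      + 2 * ((k:ℂ)+2) * N ((k:ℤ)+1) ((k:ℤ)+1) 1 1 z + N ((k:ℤ)+1) ((k:ℤ)+1) 0 2 z)
      (Metric.ball 0 1) := by
    refine ContDiffOn.add (ContDiffOn.add (contDiffOn_const.mul ?_) (contDiffOn_const.mul ?_)) ?_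
    · exact N_contDiffOn (k+1) _ _ _ _ (Or.inl (by push_cast; omega))
    · exact N_contDiffOn (k+1) _ _ _ _ (Or.inr ⟨by push_cast; omega, le_rfl⟩)
    · exact N_contDiffOn (k+1) _ _ _ _ (Or.inr ⟨by push_cast; omega, by norm_num⟩)
  have h2 := Complex.reCLM.contDiff.comp_contDiffOn h
  refine h2.congr ?_
  intro z _
  simp only [Function.comp_apply, Complex.reCLM_apply]
  rw [← normSq_wz, Complex.ofReal_re]

/-- the Jacobian, as a function of a complex variable -/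
noncomputable def J (k : ℕ) (z : ℂ) : ℝ := Complex.normSq (wz k z) - Complex.normSq (wzb k z)

lemma J_contDiffOn (k : ℕ) : ContDiffOn ℝ (k + 1 : ℕ) (J k) (Metric.ball 0 1) := by
  unfold J
  refine (normSq_wz_contDiffOn k).sub ?_
  have h := wzb_contDiffOn k
  have hr := Complex.reCLM.contDiff.comp_contDiffOn h
  have hi := Complex.imCLM.contDiff.comp_contDiffOn h
  refine ((hr.mul hr).add (hi.mul hi)).congr ?_
  intro z _
  simp [Complex.normSq_apply]

lemma J_zero (k : ℕ) : J k 0 = -1 := by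
  unfold J wz wzb
  rw [N_zero (Or.inl (by omega)), N_zero (Or.inr ⟨by omega, le_rfl⟩), N_zero (Or.inr ⟨by omega, le_rfl⟩)]
  simp

/-- identification of `ℂ` with the Euclidean plane -/
noncomputable def e : ℂ ≃ₗᵢ[ℝ] E 2 := Complex.orthonormalBasisOneI.repr

lemma e_zero (z : ℂ) : e z 0 = z.re := by
  simp [e, Complex.orthonormalBasisOneI_repr_apply]

lemma e_one (z : ℂ) : e z 1 = z.im := by
  simp [e, Complex.orthonormalBasisOneI_repr_apply]

lemma e_symm_single_zero : e.symm (EuclideanSpace.single 0 1) = 1 := by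
  simp [e, OrthonormalBasis.repr_symm_single, Complex.coe_orthonormalBasisOneI]

lemma e_symm_single_one : e.symm (EuclideanSpace.single 1 1) = Complex.I := by
  simp [e, OrthonormalBasis.repr_symm_single, Complex.coe_orthonormalBasisOneI]

/-- the example, as a map of the Euclidean plane -/
noncomputable def u (k : ℕ) (x : E 2) : E 2 := e (w k (e.symm x))

lemma u_hasFDerivAt (k : ℕ) {x : E 2} (hx : ‖x‖ < 1) :
    HasFDerivAt (u k) ((e : ℂ →L[ℝ] E 2).comp ((wl (wz k (e.symm x)) (wzb k (e.symm x))).comp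
      (e.symm : E 2 →L[ℝ] ℂ))) x := by
  have hz : ‖e.symm x‖ < 1 := by simpa using hx
  have h1 : HasFDerivAt (w k) (wl (wz k (e.symm x)) (wzb k (e.symm x))) (e.symm x) := w_WD k hz
  have h2 := h1.comp x ((e.symm : E 2 →L[ℝ] ℂ).hasFDerivAt (x := x))
  exact ((e : ℂ →L[ℝ] E 2).hasFDerivAt (x := w k (e.symm x))).comp x h2

lemma pd_zero (k : ℕ) {x : E 2} (hx : ‖x‖ < 1) :
    pd 0 (u k) x = ![(wz k (e.symm x) + wzb k (e.symm x)).re, (wz k (e.symm x) + wzb k (e.symm x)).im] := by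
  funext i
  unfold pd
  rw [(u_hasFDerivAt k hx).fderiv]
  simp only [ContinuousLinearMap.comp_apply]
  have h : (e.symm : E 2 →L[ℝ] ℂ) (EuclideanSpace.single 0 1) = 1 := e_symm_single_zero
  rw [h, wl_apply]
  simp only [mul_one, map_one]
  fin_cases i
  · exact e_zero _
  · exact e_one _

lemma pd_one (k : ℕ) {x : E 2} (hx : ‖x‖ < 1) :
    pd 1 (u k) x = ![(Complex.I * (wz k (e.symm x) - wzb k (e.symm x))).re,
      (Complex.I * (wz k (e.symm x) - wzb k (e.symm x))).im] := by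
  funext i
  unfold pd
  rw [(u_hasFDerivAt k hx).fderiv]
  simp only [ContinuousLinearMap.comp_apply]
  have h : (e.symm : E 2 →L[ℝ] ℂ) (EuclideanSpace.single 1 1) = Complex.I := e_symm_single_one
  rw [h, wl_apply, Complex.conj_I]
  have h2 : wz k (e.symm x) * Complex.I + wzb k (e.symm x) * -Complex.I =
    Complex.I * (wz k (e.symm x) - wzb k (e.symm x)) := by ring
  rw [h2]
  fin_cases i
  · exact e_zero _
  · exact e_one _

lemma jac_u (k : ℕ) {x : E 2} (hx : ‖x‖ < 1) : jac (u k) x = J k (e.symm x) := by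
  unfold jac J
  rw [Matrix.det_fin_two]
  simp only [Matrix.of_apply]
  rw [pd_zero k hx, pd_one k hx]
  simp [Complex.normSq_apply]
  ring

/-- the principal part of the Cauchy-Riemann system -/
def A (j : Fin 2) (_ : E 2) : Matrix (Fin 2) (Fin 2) ℝ :=
  if j = 0 then !![1, 0; 0, 1] else !![0, -1; 1, 0]

/-- the right-hand side -/
noncomputable def c (k : ℕ) (x : E 2) : Fin 2 → ℝ :=
  ![2 * (wzb k (e.symm x)).re, 2 * (wzb k (e.symm x)).im]

lemma A_elliptic (Ω : Set (E 2)) : Elliptic Ω A := by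
  intro x _ ξ hξ h
  apply hξ
  simp [A, Fin.sum_univ_two, Matrix.det_fin_two] at h
  have h2 : ξ 0 * ξ 0 + ξ 1 * ξ 1 = 0 := by linarith
  have h0 : ξ 0 = 0 := by nlinarith [sq_nonneg (ξ 0), sq_nonneg (ξ 1)]
  have h1 : ξ 1 = 0 := by nlinarith [sq_nonneg (ξ 0), sq_nonneg (ξ 1)]
  funext i
  fin_cases i
  · exact h0
  · exact h1

lemma system (k : ℕ) {x : E 2} (hx : ‖x‖ < 1) :
    ∑ j, (A j x).mulVec (pd j (u k) x) + (0 : Matrix (Fin 2) (Fin 2) ℝ).mulVec (fun i => u k x i)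
      = c k x := by
  rw [Fin.sum_univ_two, pd_zero k hx, pd_one k hx]
  funext i
  fin_cases i
  · simp [A, c]
    ring
  · simp [A, c]
    ring

lemma u_contDiffOn (k : ℕ) : ContDiffOn ℝ (k + 1 : ℕ) (u k) (Metric.ball 0 1) := by
  have h := (w_contDiffOn k).comp (s := Metric.ball (0 : E 2) 1)
    (e.symm : E 2 →L[ℝ] ℂ).contDiff.contDiffOn (by
      intro x hx
      simpa using hx)
  exact (e : ℂ →L[ℝ] E 2).contDiff.comp_contDiffOn h

lemma comp_symm {k : ℕ} {f : ℂ → ℝ} (hf : ContDiffOn ℝ (k + 1 : ℕ) f (Metric.ball 0 1)) :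
    ContDiffOn ℝ (k + 1 : ℕ) (fun x : E 2 => f (e.symm x)) (Metric.ball 0 1) :=
  hf.comp (s := Metric.ball (0 : E 2) 1)
    (e.symm : E 2 →L[ℝ] ℂ).contDiff.contDiffOn (by
      intro x hx
      simpa using hx)

lemma iteratedDeriv_comp_line {m : ℕ} {V : Set (E 2)} (hV : IsOpen V) {f : E 2 → E 2}
    (hf : ContDiffOn ℝ m f V) (L : E 2 →L[ℝ] ℂ) (g : ℝ →L[ℝ] E 2) {t : ℝ} (ht : g t ∈ V) :
    iteratedDeriv m (fun s => L (f (g s))) t = L (iteratedFDeriv ℝ m f (g t) (fun _ => g 1)) := by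
  have hfa : ContDiffAt ℝ m f (g t) := hf.contDiffAt (hV.mem_nhds ht)
  have h1 : iteratedFDeriv ℝ m (L ∘ (f ∘ g)) t
      = L.compContinuousMultilinearMap (iteratedFDeriv ℝ m (f ∘ g) t) :=
    L.iteratedFDeriv_comp_left (hfa.comp t g.contDiff.contDiffAt) le_rfl
  have hVg : IsOpen (g ⁻¹' V) := hV.preimage g.continuous
  have h2 : iteratedFDerivWithin ℝ m (f ∘ g) (g ⁻¹' V) t = iteratedFDeriv ℝ m (f ∘ g) t :=
    iteratedFDerivWithin_of_isOpen m hVg ht
  have h3 := g.iteratedFDerivWithin_comp_right hf hV.uniqueDiffOn hVg.uniqueDiffOn ht le_rfl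
  have h4 : iteratedFDerivWithin ℝ m f V (g t) = iteratedFDeriv ℝ m f (g t) :=
    iteratedFDerivWithin_of_isOpen m hV ht
  rw [iteratedDeriv_eq_iteratedFDeriv]
  have h5 : (fun s => L (f (g s))) = L ∘ (f ∘ g) := rfl
  rw [h5, h1, ← h2, h3, h4]
  rfl

lemma not_holder (k : ℕ) (V : Set (E 2)) (hV : IsOpen V) (h0 : (0 : E 2) ∈ V) :
    ¬ HolderClass (k + 1) 1 V (u k) := by
  rintro ⟨hc, hl⟩
  obtain ⟨C, U, hU, hb⟩ := hl 0 h0
  -- the restriction to the real axis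
  set g : ℝ →L[ℝ] E 2 := (e : ℂ →L[ℝ] E 2).comp Complex.ofRealCLM with hg
  have hg0 : g 0 = 0 := map_zero g
  have hgn : ∀ t, ‖g t‖ = |t| := by
    intro t
    simp [hg]
  have h1 : LipAt (k+1) (fun t : ℝ => w k (t : ℂ)) := by
    refine ⟨C, ?_⟩
    have hUV : U ∩ V ∈ 𝓝 (g 0) := by
      rw [hg0]; exact inter_mem hU (hV.mem_nhds h0)
    have hev := g.continuous.continuousAt.eventually hUV
    filter_upwards [hev] with t ht
    have e1 : ∀ s : ℝ, g s ∈ V → iteratedDeriv (k+1) (fun t : ℝ => w k (t : ℂ)) s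
        = (e.symm : E 2 →L[ℝ] ℂ) (iteratedFDeriv ℝ (k+1) (u k) (g s) (fun _ => g 1)) := by
      intro s hs
      rw [← iteratedDeriv_comp_line hV hc _ g hs]
      congr 1
      funext t
      simp [u, hg]
    rw [e1 t ht.2, e1 0 (by rw [hg0]; exact h0), ← map_sub, ← _root_.sub_apply]
    have h3 := (iteratedFDeriv ℝ (k+1) (u k) (g t) - iteratedFDeriv ℝ (k+1) (u k) (g 0)).le_opNorm
      (fun _ => g 1)
    have h4 := hb (g t) ht (g 0) ⟨by rw [hg0]; exact mem_of_mem_nhds hU, by rw [hg0]; exact h0⟩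
    have hn : ∀ x : E 2, ‖(e.symm : E 2 →L[ℝ] ℂ) x‖ = ‖x‖ := fun x => e.symm.norm_map x
    rw [hn]
    refine h3.trans ?_
    rw [Finset.prod_const, hgn 1]
    simp only [abs_one, one_pow, mul_one]
    refine h4.trans ?_
    rw [hg0, _root_.sub_zero, Real.rpow_one, hgn]
  -- subtract `t`
  have h2 : LipAt (k+1) (fun t : ℝ => (t : ℂ)) :=
    LipAt.of_contDiffAt Complex.ofRealCLM.contDiff.contDiffAt
  have c1 : ContDiffAt ℝ (k+1 : ℕ) (fun t : ℝ => w k (t:ℂ)) 0 := by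
    have h1 : ContDiffAt ℝ (k+1 : ℕ) (w k) (Complex.ofRealCLM 0) := by
      simp only [Complex.ofRealCLM_apply, Complex.ofReal_zero]
      exact (w_contDiffOn k).contDiffAt (Metric.ball_mem_nhds _ one_pos)
    exact h1.comp 0 Complex.ofRealCLM.contDiff.contDiffAt
  have h3 := h1.sub h2 c1 Complex.ofRealCLM.contDiff.contDiffAt
  refine not_lip (k+1) (h3.congr ?_)
  filter_upwards [] with t
  simp only [w, Complex.conj_ofReal]
  have : (((k+1:ℕ):ℤ)+1) = (k:ℤ)+2 := by push_cast; ring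
  rw [this]
  ring

/-- For every `k` the gain of one derivative fails in the plane for both endpoint scales
`C^{k,1}` and `C^{k+1,0}`. -/
theorem result : ∀ k : ℕ, GainFails 2 k 1 ∧ GainFails 2 (k + 1) 0 := by
  intro k
  -- choice of the domain
  have hJc : ContinuousAt (J k) 0 :=
    ((J_contDiffOn k).contDiffAt (Metric.ball_mem_nhds _ one_pos)).continuousAt
  have hJn : ∀ᶠ z in 𝓝 (0:ℂ), J k z < 0 := by
    apply hJc.eventually_lt continuousAt_const
    rw [J_zero]; norm_num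
  obtain ⟨r, hr, hrJ⟩ := Metric.eventually_nhds_iff_ball.mp hJn
  set Ω : Set (E 2) := Metric.ball 0 (min r 1) with hΩ
  have hr1 : 0 < min r 1 := lt_min hr one_pos
  have hop : IsOpen Ω := Metric.isOpen_ball
  have hcon : IsConnected Ω := ⟨⟨0, Metric.mem_ball_self hr1⟩, (convex_ball _ _).isPreconnected⟩
  have h0 : (0 : E 2) ∈ Ω := Metric.mem_ball_self hr1
  have hsub : Ω ⊆ Metric.ball 0 1 := Metric.ball_subset_ball (min_le_right _ _)
  have hn : ∀ x ∈ Ω, ‖x‖ < 1 := fun x hx => by simpa using hsub hx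
  have hell := A_elliptic Ω
  have hsol : IsSolution Ω A (fun _ => 0) (c k) (u k) := by
    constructor
    · intro x hx
      have h1 : ContDiffAt ℝ 1 (u k) x := by
        have := (u_contDiffOn k).contDiffAt (Metric.isOpen_ball.mem_nhds (hsub hx))
        exact this.of_le (by exact_mod_cast Nat.le_add_left 1 k)
      obtain ⟨K, t, ht, hK⟩ := h1.exists_lipschitzOnWith
      exact ⟨K, t, mem_nhdsWithin_of_mem_nhds ht, hK⟩
    · refine (ae_restrict_iff' hop.measurableSet).mpr (Eventually.of_forall fun x hx => ?_)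
      exact ⟨(u_hasFDerivAt k (hn x hx)).differentiableAt, system k (hn x hx)⟩
  have hjac : ∀ x ∈ Ω, jac (u k) x = J k (e.symm x) := fun x hx => jac_u k (hn x hx)
  have hjac0 : ∀ x ∈ Ω, jac (u k) x ≠ 0 := by
    intro x hx
    rw [hjac x hx]
    refine (hrJ (e.symm x) ?_).ne
    have : ‖x‖ < min r 1 := by simpa [hΩ] using hx
    simpa using lt_of_lt_of_le this (min_le_left _ _)
  have hjacs : ContDiffOn ℝ (k + 1 : ℕ) (jac (u k)) Ω :=
    ((comp_symm (J_contDiffOn k)).mono hsub).congr hjac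
  have hA : ∀ j i l, ContDiffOn ℝ (k + 1 : ℕ) (fun x : E 2 => A j x i l) Ω := by
    intro j i l
    exact contDiffOn_const
  have hcs : ∀ i, ContDiffOn ℝ (k + 1 : ℕ) (fun x : E 2 => c k x i) Ω := by
    have hr := Complex.reCLM.contDiff.comp_contDiffOn (wzb_contDiffOn k)
    have hi := Complex.imCLM.contDiff.comp_contDiffOn (wzb_contDiffOn k)
    intro i
    fin_cases i
    · exact (contDiffOn_const.mul (comp_symm hr)).mono hsub
    · exact (contDiffOn_const.mul (comp_symm hi)).mono hsub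
  constructor
  · refine ⟨Ω, A, fun _ => 0, c k, u k, 0, hop, hcon, h0, hell, ?_, ?_, ?_, hsol, hjac0, ?_, ?_⟩
    · exact fun j i l => HolderClass.of_succ hop (hA j i l)
    · exact fun i l => HolderClass.of_succ hop contDiffOn_const
    · exact fun i => HolderClass.of_succ hop (hcs i)
    · exact HolderClass.of_succ hop hjacs
    · exact fun V hV hV0 _ => not_holder k V hV hV0
  · refine ⟨Ω, A, fun _ => 0, c k, u k, 0, hop, hcon, h0, hell, ?_, ?_, ?_, hsol, hjac0, ?_, ?_⟩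
    · exact fun j i l => HolderClass.of_zero hop (hA j i l)
    · exact fun i l => HolderClass.of_zero hop contDiffOn_const
    · exact fun i => HolderClass.of_zero hop (hcs i)
    · exact HolderClass.of_zero hop hjacs
    · intro V hV hV0 _ h
      exact not_holder k V hV hV0 (HolderClass.of_succ hV h.1)

end Pool.Agent.V11205.EGF
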