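import Mathlib
import Pool.Agent.V11205.EGF

set_option autoImplicit false

namespace Pool.Agent.V11205.EGT

open Set Filter Topology MeasureTheory
open scoped ContDiff
open Pool.Agent.V11205.EGF

theorem holder_zero_of_contDiffOn {n : ℕ} {V W : Type*} [NormedAddCommGroup V] [NormedSpace ℝ V]
    [NormedAddCommGroup W] [NormedSpace ℝ W] {Ω : Set V} (hΩ : IsOpen Ω) {f : V → W}
    (h : ContDiffOn ℝ n f Ω) : HolderClass n 0 Ω f := by
  refine ⟨h, fun x hx => ?_⟩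
  have h1 : ContinuousAt (iteratedFDeriv ℝ n f) x := by
    have h2 : ContDiffAt ℝ n f x := h.contDiffAt (hΩ.mem_nhds hx)
    have h3 : ContDiffAt ℝ 0 (iteratedFDeriv ℝ n f) x := by
      apply h2.iteratedFDeriv_right
      simp
    exact h3.continuousAt
  have h4 := Metric.continuousAt_iff.1 h1 1 one_pos
  obtain ⟨δ, hδ, h5⟩ := h4
  refine ⟨2, Metric.ball x δ, Metric.ball_mem_nhds x hδ, fun y hy z hz => ?_⟩
  have h6 := h5 (Metric.mem_ball.1 hy.1)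
  have h7 := h5 (Metric.mem_ball.1 hz.1)
  rw [Real.rpow_zero, mul_one, ← dist_eq_norm]
  have h8 := dist_triangle_right (iteratedFDeriv ℝ n f y) (iteratedFDeriv ℝ n f z)
    (iteratedFDeriv ℝ n f x)
  linarith

theorem final : ¬ (∀ (n : ℕ), 2 ≤ n → ∀ (k : ℕ) (Ω : Set (EuclideanSpace ℝ (Fin n))), IsOpen Ω → IsConnected Ω →
  ∀ (A : Fin n → Fin n → Fin n → EuclideanSpace ℝ (Fin n) → ℝ)
    (B : Fin n → Fin n → EuclideanSpace ℝ (Fin n) → ℝ)
    (c : Fin n → EuclideanSpace ℝ (Fin n) → ℝ)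
    (u : Fin n → EuclideanSpace ℝ (Fin n) → ℝ)
    (J : EuclideanSpace ℝ (Fin n) → ℝ),
  (∀ x ∈ Ω, ∀ ξ : Fin n → ℝ, ξ ≠ 0 →
      (Matrix.of fun i l => ∑ j, ξ j * A j i l x).det ≠ 0) →
  (∀ i, ∀ x ∈ Ω, ∃ C : NNReal, ∃ U ∈ nhds x, LipschitzOnWith C (u i) (U ∩ Ω)) →
  (∀ᵐ x ∂(volume.restrict Ω), ∀ i,
      ∑ j, ∑ l, A j i l x * fderiv ℝ (u l) x (EuclideanSpace.single j 1)
        + ∑ l, B i l x * u l x = c i x) →
  (∀ x ∈ Ω, J x ≠ 0) →
  (∀ᵐ x ∂(volume.restrict Ω),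
      (Matrix.of fun i j => fderiv ℝ (u i) x (EuclideanSpace.single j 1)).det = J x) →
  (((∀ j i l, ContDiffOn ℝ k (A j i l) Ω ∧ ∀ x ∈ Ω, ∃ C : NNReal, ∃ U ∈ nhds x,
        LipschitzOnWith C (iteratedFDeriv ℝ k (A j i l)) (U ∩ Ω)) ∧
    (∀ i l, ContDiffOn ℝ k (B i l) Ω ∧ ∀ x ∈ Ω, ∃ C : NNReal, ∃ U ∈ nhds x,
        LipschitzOnWith C (iteratedFDeriv ℝ k (B i l)) (U ∩ Ω)) ∧
    (∀ i, ContDiffOn ℝ k (c i) Ω ∧ ∀ x ∈ Ω, ∃ C : NNReal, ∃ U ∈ nhds x,
        LipschitzOnWith C (iteratedFDeriv ℝ k (c i)) (U ∩ Ω)) ∧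
    (ContDiffOn ℝ k J Ω ∧ ∀ x ∈ Ω, ∃ C : NNReal, ∃ U ∈ nhds x,
        LipschitzOnWith C (iteratedFDeriv ℝ k J) (U ∩ Ω)) →
    ∀ i, ContDiffOn ℝ (k + 1) (u i) Ω ∧ ∀ x ∈ Ω, ∃ C : NNReal, ∃ U ∈ nhds x,
        LipschitzOnWith C (iteratedFDeriv ℝ (k + 1) (u i)) (U ∩ Ω)) ∧
   ((∀ j i l, ContDiffOn ℝ (k + 1) (A j i l) Ω) ∧
    (∀ i l, ContDiffOn ℝ (k + 1) (B i l) Ω) ∧
    (∀ i, ContDiffOn ℝ (k + 1) (c i) Ω) ∧
    ContDiffOn ℝ (k + 1) J Ω →
    ∀ i, ContDiffOn ℝ (k + 2) (u i) Ω))) := by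
  intro H
  obtain ⟨Ω, A, B, c, u, x₀, hop, hcon, hx₀, hell, hA, hB, hc, hsol, hjac, hJ, hfail⟩ :=
    (result 0).2
  have hfd : ∀ x, DifferentiableAt ℝ u x → ∀ l j,
      fderiv ℝ (fun y => u y l) x (EuclideanSpace.single j 1) = pd j u x l := by
    intro x hx l j
    unfold pd
    have h1 : HasFDerivAt (fun y => u y l)
        ((EuclideanSpace.proj l : E 2 →L[ℝ] ℝ).comp (fderiv ℝ u x)) x :=
      ((EuclideanSpace.proj l : E 2 →L[ℝ] ℝ).hasFDerivAt).comp x hx.hasFDerivAt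
    rw [h1.fderiv]
    rfl
  have h := (H 2 le_rfl 0 Ω hop hcon (fun j i l x => A j x i l) (fun i l x => B x i l)
    (fun i x => c x i) (fun i x => u x i) (jac u) ?_ ?_ ?_ hjac ?_).2 ?_
  · -- contradiction
    apply hfail Ω hop hx₀ subset_rfl
    apply holder_zero_of_contDiffOn hop
    rw [contDiffOn_euclidean]
    intro i
    have := h i
    norm_num at this ⊢
    exact this
  · intro x hx ξ hξ
    have h1 := hell x hx ξ hξ
    convert h1 using 2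
    ext i l
    simp [Matrix.sum_apply]
  · intro i x hx
    obtain ⟨K, t, ht, hK⟩ := hsol.1 hx
    obtain ⟨U, hU, hUt⟩ := mem_nhdsWithin_iff_exists_mem_nhds_inter.1 ht
    refine ⟨K, U, hU, ?_⟩
    intro y hy z hz
    have h1 := hK (hUt hy) (hUt hz)
    refine le_trans ?_ h1
    have h2 : LipschitzWith 1 (fun w : E 2 => w i) := by
      refine LipschitzWith.of_dist_le_mul fun a b => ?_
      simp only [NNReal.coe_one, one_mul]
      rw [EuclideanSpace.dist_eq, Real.dist_eq]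
      refine Real.le_sqrt_of_sq_le ?_
      rw [sq_abs]
      have h3 : (a i - b i) ^ 2 = dist (a i) (b i) ^ 2 := by rw [Real.dist_eq, sq_abs]
      rw [h3]
      exact Finset.single_le_sum (f := fun i => dist (a i) (b i) ^ 2)
        (fun i _ => sq_nonneg _) (Finset.mem_univ i)
    have h3 := h2 (u y) (u z)
    simpa using h3
  · filter_upwards [hsol.2] with x hx i
    have h1 := congrFun hx.2 i
    simp only [Pi.add_apply, Finset.sum_apply, Matrix.mulVec, dotProduct] at h1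
    rw [← h1]
    congr 1
    refine Finset.sum_congr rfl fun j _ => Finset.sum_congr rfl fun l _ => ?_
    rw [hfd x hx.1 l j]
  · filter_upwards [hsol.2] with x hx
    unfold jac
    congr 1
    ext i j
    simp only [Matrix.of_apply]
    exact hfd x hx.1 i j
  · refine ⟨fun j i l => ?_, fun i l => ?_, fun i => ?_, ?_⟩
    · have := (hA j i l).1; norm_num at this ⊢; exact this
    · have := (hB i l).1; norm_num at this ⊢; exact this
    · have := (hc i).1; norm_num at this ⊢; exact this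
    · have := hJ.1; norm_num at this ⊢; exact this

end Pool.Agent.V11205.EGT
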