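import Mathlib
import Pool.Agent.V11205.RecEx

set_option autoImplicit false

namespace Pool.Agent.V11205.RecExT

open Set Pool.Agent.V11205.RecEx

theorem torus_aux {t : ℝ} (h0 : 0 < t) (h1 : t < 1 / 2) (k : ℤ) : t ^ 2 ≤ (t + k) ^ 2 := by
  have h : (0 : ℝ) ≤ (k : ℝ) * (k + 2 * t) := by
    rcases le_or_gt 0 k with hk | hk
    · have : (0 : ℝ) ≤ k := by exact_mod_cast hk
      positivity
    · have h2 : (k : ℝ) ≤ -1 := by exact_mod_cast Int.le_sub_one_of_lt hk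
      exact mul_nonneg_of_nonpos_of_nonpos (by linarith) (by linarith)
  nlinarith

theorem final :
    ¬ (∀ (m : ℕ) (a1 b1 a2 b2 v1 v2 : Fin m → ℝ) (φ : ℝ × ℝ → ℝ × ℝ),
      Pairwise (fun r s : Fin m =>
        Disjoint (Set.Ico (a1 r) (b1 r) ×ˢ Set.Ico (a2 r) (b2 r))
          (Set.Ico (a1 s) (b1 s) ×ˢ Set.Ico (a2 s) (b2 s))) →
      (⋃ r : Fin m, Set.Ico (a1 r) (b1 r) ×ˢ Set.Ico (a2 r) (b2 r))
          = Set.Ico (0:ℝ) 1 ×ˢ Set.Ico (0:ℝ) 1 →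
      Pairwise (fun r s : Fin m =>
        Disjoint
          (Set.Ico (a1 r + v1 r) (b1 r + v1 r) ×ˢ Set.Ico (a2 r + v2 r) (b2 r + v2 r))
          (Set.Ico (a1 s + v1 s) (b1 s + v1 s) ×ˢ Set.Ico (a2 s + v2 s) (b2 s + v2 s))) →
      (⋃ r : Fin m,
          Set.Ico (a1 r + v1 r) (b1 r + v1 r) ×ˢ Set.Ico (a2 r + v2 r) (b2 r + v2 r))
          = Set.Ico (0:ℝ) 1 ×ˢ Set.Ico (0:ℝ) 1 →
      (∀ r : Fin m, ∀ x ∈ Set.Ico (a1 r) (b1 r) ×ˢ Set.Ico (a2 r) (b2 r),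
          φ x = (x.1 + v1 r, x.2 + v2 r)) →
      ∀ x ∈ Set.Ico (0:ℝ) 1 ×ˢ Set.Ico (0:ℝ) 1, ∀ ε : ℝ, 0 < ε →
        ∃ N : ℕ, 1 ≤ N ∧ ∃ k1 k2 : ℤ,
          ((φ^[N] x).1 - x.1 + (k1 : ℝ)) ^ 2 + ((φ^[N] x).2 - x.2 + (k2 : ℝ)) ^ 2 ≤ ε ^ 2) := by
  intro H
  have hirr : Irrational (Real.sqrt 2 / 4) := by
    have := irrational_sqrt_two.div_natCast (m := 4) (by norm_num)
    exact_mod_cast this
  have h2 : Real.sqrt 2 ^ 2 = 2 := Real.sq_sqrt (by norm_num)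
  have h0 : 0 < Real.sqrt 2 / 4 := by positivity
  have h1 : Real.sqrt 2 / 4 < 1 / 2 := by nlinarith [Real.sqrt_nonneg 2]
  set α := Real.sqrt 2 / 4 with hα
  have hE := isExchange h0 h1
  let e : Fin (4 * 4) ≃ Fin 4 × Fin 4 := finProdFinEquiv.symm
  obtain ⟨N, hN, k1, k2, hle⟩ := H (4 * 4) (fun r => A α (e r).1) (fun r => B α (e r).1)
    (fun r => C α (e r).2) (fun r => D α (e r).2) (fun r => VA α (e r).1) (fun r => VC α (e r).2)
    (φ α) (fun r s hrs => hE.disjoint _ _ (fun h => hrs (e.injective h)))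
    (by
      have := hE.cover
      unfold Rect at this
      rw [← this]
      exact e.surjective.iUnion_comp (fun i => Ico (A α i.1) (B α i.1) ×ˢ Ico (C α i.2) (D α i.2)))
    (fun r s hrs => hE.disjoint' _ _ (fun h => hrs (e.injective h)))
    (by
      have := hE.cover'
      unfold Rect at this
      rw [← this]
      exact e.surjective.iUnion_comp (fun i => Ico (A α i.1 + VA α i.1) (B α i.1 + VA α i.1) ×ˢ
        Ico (C α i.2 + VC α i.2) (D α i.2 + VC α i.2)))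
    (fun r x hx => by
      have := hE.trans (e r) x hx
      rw [this]; rfl)
    (1 / 4, 1 / 4) ⟨⟨by norm_num, by norm_num⟩, ⟨by norm_num, by norm_num⟩⟩ (1 / 4) (by norm_num)
  obtain ⟨n, rfl⟩ : ∃ n, N = n + 1 := ⟨N - 1, by omega⟩
  obtain ⟨t, k, -, ht0, ht1, h⟩ := orbit hirr h0 h1 n
  rw [h] at hle
  simp only at hle
  have e1 : 1 / 4 + t - 1 / 4 + (k1 : ℝ) = t + k1 := by ring
  have e2 : 3 / 4 - t - 1 / 4 + (k2 : ℝ) = (1 / 2 - t) + k2 := by ring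
  rw [e1, e2] at hle
  have h3 := torus_aux ht0 ht1 k1
  have h4 := torus_aux (t := 1 / 2 - t) (by linarith) (by linarith) k2
  nlinarith [sq_nonneg (t - 1 / 4)]

end Pool.Agent.V11205.RecExT
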