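import Mathlib
import Pool.Agent.Y282.QPfin

set_option autoImplicit false

namespace Pool.Agent.V11205.QPT

open Pool.Agent.Y282.QP

/-- the ideal -/
def J : Set (ℚ → ℂ) := {f | f ∈ II ∧ ∀ q : ℚ, q < 1 → f q = 0}

theorem final :
    ¬ (∀ ω : ℚ → ℝ,
    (∀ q : ℚ, 0 ≤ q → 0 < ω q) →
    (∀ s t : ℚ, 0 ≤ s → 0 ≤ t → ω (s + t) ≤ ω s * ω t) →
    (∀ t : ℚ, 0 < t →
      Filter.Tendsto (fun n : ℕ => ω ((n : ℚ) * t) ^ ((1 : ℝ) / (n : ℝ)))
        Filter.atTop (nhds 0)) →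
    ∀ I : Set (ℚ → ℂ),
      (∀ f ∈ I, (∀ q : ℚ, q < 0 → f q = 0) ∧ Summable (fun q : ℚ => ‖f q‖ * ω q)) →
      (0 : ℚ → ℂ) ∈ I →
      (∀ f ∈ I, ∀ g ∈ I, f + g ∈ I) →
      (∀ c : ℂ, ∀ f ∈ I, c • f ∈ I) →
      (∀ a : ℚ → ℂ, (∀ q : ℚ, q < 0 → a q = 0) →
         Summable (fun q : ℚ => ‖a q‖ * ω q) →
         ∀ f ∈ I, (fun t : ℚ => ∑' s : ℚ, a s * f (t - s)) ∈ I) →
      (∀ f : ℚ → ℂ, (∀ q : ℚ, q < 0 → f q = 0) →
         Summable (fun q : ℚ => ‖f q‖ * ω q) →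
         (∀ ε : ℝ, 0 < ε → ∃ g ∈ I, ∑' q : ℚ, ‖f q - g q‖ * ω q < ε) → f ∈ I) →
      (I = {(0 : ℚ → ℂ)} ∨ ∃ α : ℝ, 0 ≤ α ∧
        (I = {f : ℚ → ℂ | (∀ q : ℚ, q < 0 → f q = 0) ∧
                Summable (fun q : ℚ => ‖f q‖ * ω q) ∧
                ∀ q : ℚ, (q : ℝ) < α → f q = 0} ∨
         I = {f : ℚ → ℂ | (∀ q : ℚ, q < 0 → f q = 0) ∧
                Summable (fun q : ℚ => ‖f q‖ * ω q) ∧
                ∀ q : ℚ, (q : ℝ) ≤ α → f q = 0}))) := by
  intro H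
  have hf0 : f0 ∈ J := by
    refine ⟨f0_mem, fun q hq => ?_⟩
    unfold f0
    rw [Function.extend_apply']
    · rfl
    · rintro ⟨k, rfl⟩
      cases k with
      | zero => exact absurd hq (lt_irrefl _)
      | succ m =>
        have h1 : phi (m + 1) = 1 + 1 / 2 ^ (m + 1) := rfl
        have h2 : (0 : ℚ) < 1 / 2 ^ (m + 1) := by positivity
        rw [h1] at hq
        linarith
  have hpm : (fun q : ℚ => if q = 1 then (1 : ℂ) else 0) ∉ J := by
    rintro ⟨h, -⟩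
    exact pm_not_mem h
  have hsum : Summable (fun q : ℚ => ‖(if q = 1 then (1 : ℂ) else 0)‖ * om q) := by
    refine summable_of_ne_finset_zero (s := {1}) fun q hq => ?_
    rw [Finset.mem_singleton] at hq
    rw [if_neg hq, norm_zero, zero_mul]
  have h := H om (fun q _ => om_pos q) (fun s t hs ht => om_submul s t hs ht) om_radical J
    (fun f hf => ⟨fun q hq => hf.2 q (by linarith), hf.1.1.2⟩)
    ⟨zero_mem, fun _ _ => rfl⟩
    (by
      rintro f ⟨hf, hf1⟩ g ⟨hg, hg1⟩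
      exact ⟨add_mem hf hg, fun q hq => by rw [Pi.add_apply, hf1 q hq, hg1 q hq, add_zero]⟩)
    (by
      rintro c f ⟨hf, hf1⟩
      exact ⟨smul_mem c hf, fun q hq => by rw [Pi.smul_apply, hf1 q hq, smul_zero]⟩)
    (by
      rintro a ha0 has f ⟨hf, hf1⟩
      refine ⟨conv_mem ⟨ha0, has⟩ hf, fun t ht => ?_⟩
      have h0 : ∀ s : ℚ, a s * f (t - s) = 0 := by
        intro s
        by_cases hs : s < 0
        · rw [ha0 s hs, zero_mul]
        · rw [hf1 (t - s) (by push Not at hs; linarith), mul_zero]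
      show ∑' s : ℚ, a s * f (t - s) = 0
      rw [tsum_congr h0, tsum_zero])
    (by
      intro f hf0 hfs h
      refine ⟨closed_mem ⟨hf0, hfs⟩ fun ε hε => ?_, fun q hq => ?_⟩
      · obtain ⟨g, hg, hlt⟩ := h ε hε
        exact ⟨g, hg.1, hlt⟩
      · by_contra hne
        have hpos : 0 < ‖f q‖ * om q := mul_pos (norm_pos_iff.2 hne) (om_pos q)
        obtain ⟨g, hg, hlt⟩ := h _ hpos
        have hs : Summable fun r : ℚ => ‖f r - g r‖ * om r :=
          (InA_sub ⟨hf0, hfs⟩ hg.1.1).2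
        have h1 : ‖f q - g q‖ * om q ≤ ∑' r : ℚ, ‖f r - g r‖ * om r :=
          hs.le_tsum q fun r _ => mul_nonneg (norm_nonneg _) (om_pos r).le
        rw [hg.2 q hq, sub_zero] at h1
        linarith)
  rcases h with h | ⟨α, -, h | h⟩
  · rw [h, Set.mem_singleton_iff] at hf0
    have := congrFun hf0 1
    rw [f0_one] at this
    exact one_ne_zero this
  · rw [h] at hf0 hpm
    have h1 : ¬ (((1 : ℚ) : ℝ) < α) := fun hlt => by
      have := hf0.2.2 1 hlt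
      rw [f0_one] at this
      exact one_ne_zero this
    apply hpm
    refine ⟨fun q hq => ?_, hsum, fun q hq => ?_⟩
    · show (if q = 1 then (1 : ℂ) else 0) = 0
      rw [if_neg (by linarith)]
    · show (if q = 1 then (1 : ℂ) else 0) = 0
      rw [if_neg]
      rintro rfl
      exact h1 hq
  · rw [h] at hf0 hpm
    have h1 : ¬ (((1 : ℚ) : ℝ) ≤ α) := fun hlt => by
      have := hf0.2.2 1 hlt
      rw [f0_one] at this
      exact one_ne_zero this
    apply hpm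
    refine ⟨fun q hq => ?_, hsum, fun q hq => ?_⟩
    · show (if q = 1 then (1 : ℂ) else 0) = 0
      rw [if_neg (by linarith)]
    · show (if q = 1 then (1 : ℂ) else 0) = 0
      rw [if_neg]
      rintro rfl
      exact h1 hq

end Pool.Agent.V11205.QPT
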