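import Mathlib
import Pool.Agent.H780R2.CX.E1

set_option autoImplicit false
open MeasureTheory ENNReal

namespace Pool.Agent.V11205.CXT

open Pool.Agent.H780R2.CX

/-- A deterministic algorithm is a randomized one. -/
theorem ran_le_det {X Y : Type} [NormedAddCommGroup X] [NormedSpace ℝ X]
    [NormedAddCommGroup Y] [NormedSpace ℝ Y] (S : X →L[ℝ] Y) (F : Set X) (n : ℕ) :
    (⨅ (Ω : Type) (mΩ : MeasurableSpace Ω) (P : Measure Ω)
            (_ : IsProbabilityMeasure P)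
            (L : Ω → Fin n → (X →L[ℝ] ℝ)) (φ : Ω → (Fin n → ℝ) → Y)
            (_ : ∀ f ∈ F, Measurable (fun ω => ‖S f - φ ω (fun i => L ω i f)‖)),
            ⨆ f ∈ F, ∫⁻ ω, ‖S f - φ ω (fun i => L ω i f)‖ₑ ∂P) ≤ detErr S F n := by
  unfold detErr
  refine le_iInf fun L => le_iInf fun φ => ?_
  refine iInf_le_of_le Unit (iInf_le_of_le ⊤ (iInf_le_of_le (Measure.dirac ()) 
    (iInf_le_of_le inferInstance (iInf_le_of_le (fun _ => L) (iInf_le_of_le (fun _ => φ)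
    (iInf_le_of_le (fun f _ => measurable_const) ?_))))))
  refine iSup₂_mono fun f _ => ?_
  rw [lintegral_const]
  simp

theorem final :
    ∃ (X : Type) (hX : NormedAddCommGroup X) (hXs : NormedSpace ℝ X) (hXc : CompleteSpace X)
      (Y : Type) (hY : NormedAddCommGroup Y) (hYs : NormedSpace ℝ Y) (hYc : CompleteSpace Y)
      (S : X →L[ℝ] Y) (F : Set X) (C : ℝ),
      F.Nonempty ∧ Convex ℝ F ∧ 0 < C ∧
      (∀ n : ℕ, 0 < n →
        0 < (⨅ (L : Fin n → (X →L[ℝ] ℝ)) (φ : (Fin n → ℝ) → Y),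
              ⨆ f ∈ F, ‖S f - φ (fun i => L i f)‖ₑ) ∧
        (⨅ (L : Fin n → (X →L[ℝ] ℝ)) (φ : (Fin n → ℝ) → Y),
              ⨆ f ∈ F, ‖S f - φ (fun i => L i f)‖ₑ) < ⊤) ∧
      (∀ n : ℕ, 0 < n →
        (⨅ (Ω : Type) (mΩ : MeasurableSpace Ω) (P : Measure Ω)
            (_ : IsProbabilityMeasure P)
            (L : Ω → Fin (2 * n) → (X →L[ℝ] ℝ)) (φ : Ω → (Fin (2 * n) → ℝ) → Y)
            (_ : ∀ f ∈ F, Measurable (fun ω => ‖S f - φ ω (fun i => L ω i f)‖)),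
            ⨆ f ∈ F, ∫⁻ ω, ‖S f - φ ω (fun i => L ω i f)‖ₑ ∂P)
          ≤ ENNReal.ofReal (C / (n : ℝ)) *
            (⨅ (L : Fin n → (X →L[ℝ] ℝ)) (φ : (Fin n → ℝ) → Y),
              ⨆ f ∈ F, ‖S f - φ (fun i => L i f)‖ₑ)) := by
  obtain ⟨X, Y, i1, i2, i3, j1, j2, j3, S, F, hne, hconv, -, hdet, -⟩ := TE1.trivial_example
  refine ⟨X, i1, i2, i3, Y, j1, j2, j3, S, F, 1, hne, hconv, one_pos, fun n hn => ?_,
    fun n hn => ?_⟩
  · have h := hdet n
    unfold detErr at h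
    rw [h]
    exact ⟨ENNReal.ofReal_pos.2 (by positivity), ENNReal.ofReal_lt_top⟩
  · refine (ran_le_det S F (2 * n)).trans ?_
    have h := hdet n
    unfold detErr at h
    rw [hdet (2 * n), h, ← ENNReal.ofReal_mul (by positivity)]
    apply ENNReal.ofReal_le_ofReal
    have hn' : (0 : ℝ) < n := by exact_mod_cast hn
    rw [two_mul, pow_add]
    apply mul_le_mul_of_nonneg_right _ (by positivity)
    rw [le_div_iff₀ hn']
    have h2 : (n : ℝ) ≤ 2 ^ n := by exact_mod_cast Nat.lt_two_pow_self.le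
    rw [one_div, inv_pow]
    rw [inv_mul_le_iff₀ (by positivity)]
    linarith

end Pool.Agent.V11205.CXT
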