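import Mathlib
import Pool.Agent.TH236.Net6

set_option autoImplicit false

namespace Pool.Agent.V11205.NetT

open Pool.Agent.TH236.Net

/-- The number of boundary edges equals the number of oriented boundary pairs. -/
theorem ncard_boundary {V : Type} (G : SimpleGraph V) (A : Finset V) :
    (edgeBoundary G A).ncard =
      Set.ncard {p : V × V | p.1 ∈ A ∧ p.2 ∉ A ∧ G.Adj p.1 p.2} := by
  symm
  refine Set.ncard_congr (fun p _ => s(p.1, p.2)) ?_ ?_ ?_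
  · rintro ⟨u, v⟩ ⟨hu, hv, huv⟩
    exact ⟨huv, u, hu, v, hv, rfl⟩
  · rintro ⟨u, v⟩ ⟨u', v'⟩ ⟨hu, hv, huv⟩ ⟨hu', hv', huv'⟩ h
    simp only [Sym2.eq_iff] at h
    rcases h with ⟨h1, h2⟩ | ⟨h1, h2⟩
    · rw [h1, h2]
    · exfalso
      exact hv' (h1 ▸ hu)
  · rintro e ⟨he, u, hu, v, hv, rfl⟩
    exact ⟨(u, v), ⟨hu, hv, he⟩, rfl⟩

theorem cheeger_eq {V : Type} (G : SimpleGraph V) :
    cheeger G = sInf {r : ℝ | ∃ A : Finset V, A.Nonempty ∧
            r = (Set.ncard {p : V × V | p.1 ∈ A ∧ p.2 ∉ A ∧ G.Adj p.1 p.2} : ℝ)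
              / (A.card : ℝ)} := by
  unfold cheeger
  simp only [ncard_boundary]

theorem cheeger_net_eq {V : Type} (G : SimpleGraph V) (k : ℕ) (S : Set V) :
    cheeger (netGraph G k S) = sInf {r : ℝ | ∃ A : Finset V, A.Nonempty ∧ (↑A : Set V) ⊆ S ∧
            r = (Set.ncard {p : V × V | p.1 ∈ A ∧ p.2 ∈ S ∧ p.2 ∉ A ∧
                  G.dist p.1 p.2 ≤ 2 * k} : ℝ)
              / (A.card : ℝ)} := by
  rw [cheeger_eq]
  have key : ∀ A : Finset S,
      Set.ncard {p : S × S | p.1 ∈ A ∧ p.2 ∉ A ∧ (netGraph G k S).Adj p.1 p.2} =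
      Set.ncard {p : V × V | p.1 ∈ A.map (Function.Embedding.subtype _) ∧ p.2 ∈ S ∧
        p.2 ∉ A.map (Function.Embedding.subtype _) ∧ G.dist p.1 p.2 ≤ 2 * k} := by
    intro A
    refine Set.ncard_congr (fun p _ => ((p.1 : V), (p.2 : V))) ?_ ?_ ?_
    · rintro ⟨⟨u, hu⟩, ⟨v, hv⟩⟩ ⟨h1, h2, h3⟩
      refine ⟨?_, hv, ?_, h3.2⟩
      · simp only [Finset.mem_map, Function.Embedding.coe_subtype]
        exact ⟨⟨u, hu⟩, h1, rfl⟩
      · simp only [Finset.mem_map, Function.Embedding.coe_subtype, not_exists, not_and]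
        rintro ⟨w, hw⟩ hwA hwv
        simp only at hwv
        subst hwv
        exact h2 hwA
    · rintro ⟨⟨u, hu⟩, ⟨v, hv⟩⟩ ⟨⟨u', hu'⟩, ⟨v', hv'⟩⟩ _ _ h
      simp only [Prod.mk.injEq] at h
      obtain ⟨h1, h2⟩ := h
      subst h1; subst h2; rfl
    · rintro ⟨u, v⟩ ⟨h1, h2, h3, h4⟩
      simp only [Finset.mem_map, Function.Embedding.coe_subtype] at h1 h3
      obtain ⟨⟨u', hu'⟩, hA, rfl⟩ := h1
      refine ⟨(⟨u', hu'⟩, ⟨v, h2⟩), ⟨hA, fun hv => h3 ⟨⟨v, h2⟩, hv, rfl⟩, ?_, h4⟩, rfl⟩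
      intro he
      apply h3
      refine ⟨⟨v, h2⟩, ?_, rfl⟩
      have he' : (⟨u', hu'⟩ : S) = ⟨v, h2⟩ := he
      rw [← he']; exact hA
  congr 1
  ext r
  constructor
  · rintro ⟨A, hA, rfl⟩
    refine ⟨A.map (Function.Embedding.subtype _), by simpa using hA, ?_, ?_⟩
    · intro x hx
      simp only [Finset.coe_map, Function.Embedding.coe_subtype, Set.mem_image] at hx
      obtain ⟨⟨y, hy⟩, _, rfl⟩ := hx
      exact hy
    · rw [key A, Finset.card_map]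
  · rintro ⟨A, hA, hAS, rfl⟩
    classical
    obtain ⟨B, hB⟩ : ∃ B : Finset S, B.map (Function.Embedding.subtype _) = A := by
      refine ⟨A.subtype (· ∈ S), ?_⟩
      rw [Finset.subtype_map]
      exact Finset.filter_true_of_mem fun x hx => hAS hx
    refine ⟨B, ?_, ?_⟩
    · rw [← hB] at hA; simpa using hA
    · rw [key B, hB]
      congr 2
      rw [← hB, Finset.card_map]

theorem exists_near {V : Type} (G : SimpleGraph V) (k : ℕ) (S : Set V) (h : IsNet G k S) :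
    ∀ w : V, w ∉ S → ∃ u ∈ S, G.dist w u < k := by
  intro w hw
  by_contra hcon
  push Not at hcon
  have h1 : Separated G k (insert w S) := by
    intro u hu v hv huv
    rcases hu with rfl | hu <;> rcases hv with rfl | hv
    · exact absurd rfl huv
    · exact hcon v hv
    · rw [SimpleGraph.dist_comm]; exact hcon u hu
    · exact h.1 u hu v hv huv
  exact hw (h.2 h1 (Set.subset_insert w S) (Set.mem_insert w S))

theorem final : ∃ (V : Type) (G : SimpleGraph V), Infinite V ∧ G.Connected ∧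
      (∀ v : V, (G.neighborSet v).Finite) ∧
      (∀ u v : V, ∃ φ : G ≃g G, φ u = v) ∧
      ∃ k : ℕ, 1 ≤ k ∧
      ∃ S : Set V,
        (∀ u ∈ S, ∀ v ∈ S, u ≠ v → k ≤ G.dist u v) ∧
        (∀ w : V, w ∉ S → ∃ u ∈ S, G.dist w u < k) ∧
        sInf {r : ℝ | ∃ A : Finset V, A.Nonempty ∧ (↑A : Set V) ⊆ S ∧
            r = (Set.ncard {p : V × V | p.1 ∈ A ∧ p.2 ∈ S ∧ p.2 ∉ A ∧
                  G.dist p.1 p.2 ≤ 2 * k} : ℝ)
              / (A.card : ℝ)} <
        sInf {r : ℝ | ∃ A : Finset V, A.Nonempty ∧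
            r = (Set.ncard {p : V × V | p.1 ∈ A ∧ p.2 ∉ A ∧ G.Adj p.1 p.2} : ℝ)
              / (A.card : ℝ)} := by
  obtain ⟨D, hD⟩ := Pool.Agent.TH236.Net.final
  obtain ⟨V, G, hinf, hconn, htr, hdeg, h1, k, hk, S, hS, -, hlt⟩ := hD 1 one_pos
  refine ⟨V, G, hinf, hconn, fun v => (hdeg v).1, htr, k, hk, S, hS.1, exists_near G k S hS, ?_⟩
  rw [← cheeger_net_eq, ← cheeger_eq]
  simpa using hlt

end Pool.Agent.V11205.NetT
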