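import Mathlib

set_option autoImplicit false

namespace Pool.Agent.V11205.BorU

open Metric Set

/-- The `j`-element subsets of `Fin n`. -/
abbrev Sets (n j : ℕ) := {S : Finset (Fin n) // S.card = j}

/-- The function `f_g` on 4-element subsets: `f_g T` is the product of `g S` over the
3-element subsets `S` of `T`. -/
noncomputable def prodFun {n : ℕ} (g : Sets n 3 → ℝ) : EuclideanSpace ℝ (Sets n 4) :=
  WithLp.toLp 2 fun T => ∏ S : Sets n 3 with S.1 ⊆ T.1, g S

/-- The set `X_n` of unit vectors among the functions `f_g`. -/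
def X (n : ℕ) : Set (EuclideanSpace ℝ (Sets n 4)) :=
  {f | (∃ g : Sets n 3 → ℝ, f = prodFun g) ∧ ‖f‖ = 1}

/-- The sign-valued vectors among the `f_g`, scaled to unit length. -/
def signVectors (n : ℕ) : Set (EuclideanSpace ℝ (Sets n 4)) :=
  {f | ∃ g : Sets n 3 → ℝ, (∀ S, g S = 1 ∨ g S = -1) ∧
    f = (Real.sqrt (n.choose 4))⁻¹ • prodFun g}

/-- `A` is a union of `m` sets, each of diameter strictly smaller than that of `A`. -/
def SplitsInto {n : ℕ} (A : Set (EuclideanSpace ℝ (Sets n 4))) (m : ℕ) : Prop :=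
  ∃ B : Fin m → Set (EuclideanSpace ℝ (Sets n 4)),
    A = ⋃ i, B i ∧ ∀ i, diam (B i) < diam A

lemma card_sets (n j : ℕ) : Fintype.card (Sets n j) = n.choose j := by
  rw [Fintype.card_finset_len, Fintype.card_fin]

/-- The pieces: unit vectors of `Y` of the form `f_g` with a prescribed sign pattern of `g` and
a large coordinate at `T`. -/
def piece {n : ℕ} (Y : Set (EuclideanSpace ℝ (Sets n 4))) (s : Sets n 3 → Bool) (T : Sets n 4) :
    Set (EuclideanSpace ℝ (Sets n 4)) :=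
  {f | f ∈ Y ∧ (∃ g : Sets n 3 → ℝ, (∀ S, 0 ≤ (if s S then g S else -g S)) ∧ f = prodFun g) ∧
    1 ≤ (n.choose 4 : ℝ) * f T ^ 2}

lemma prod_nonneg' {n : ℕ} (s : Sets n 3 → Bool) (g h : Sets n 3 → ℝ)
    (hg : ∀ S, 0 ≤ (if s S then g S else -g S)) (hh : ∀ S, 0 ≤ (if s S then h S else -h S))
    (T : Sets n 4) : 0 ≤ prodFun g T * prodFun h T := by
  simp only [prodFun]
  rw [← Finset.prod_mul_distrib]
  apply Finset.prod_nonneg
  intro S _
  have h1 := hg S
  have h2 := hh S
  by_cases hs : s S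
  · simp only [hs, if_true] at h1 h2
    exact mul_nonneg h1 h2
  · simp only [hs] at h1 h2
    simp at h1 h2
    exact mul_nonneg_of_nonpos_of_nonpos h1 h2

lemma piece_diam {n : ℕ} (hn : 4 ≤ n) {Y : Set (EuclideanSpace ℝ (Sets n 4))} (hY : Y ⊆ X n)
    (s : Sets n 3 → Bool) (T : Sets n 4) : diam (piece Y s T) < Real.sqrt 2 := by
  have hd : (1 : ℝ) ≤ (n.choose 4 : ℝ) := by
    exact_mod_cast Nat.choose_pos hn
  set d : ℝ := (n.choose 4 : ℝ) with hdd
  have hle : diam (piece Y s T) ≤ Real.sqrt (2 - 2 / d) := by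
    apply diam_le_of_forall_dist_le (Real.sqrt_nonneg _)
    rintro f ⟨hfX, ⟨g, hg, hfg⟩, hf1⟩ h ⟨hhX, ⟨g', hg', hhg⟩, hh1⟩
    apply Real.le_sqrt_of_sq_le
    rw [dist_eq_norm, norm_sub_sq_real, (hY hfX).2, (hY hhX).2]
    have hnn : ∀ U, 0 ≤ f U * h U := by
      intro U; rw [hfg, hhg]; exact prod_nonneg' s g g' hg hg' U
    have hin : f T * h T ≤ inner ℝ f h := by
      have : inner ℝ f h = ∑ U, f U * h U := by
        simp [PiLp.inner_apply, mul_comm]
      rw [this]
      exact Finset.single_le_sum (f := fun U => f U * h U) (fun U _ => hnn U) (Finset.mem_univ T)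
    have h5 : (f T * h T * d) ^ 2 ≥ 1 := by
      have : (f T * h T * d) ^ 2 = (d * f T ^ 2) * (d * h T ^ 2) := by ring
      rw [this]
      nlinarith
    have h6 : 0 ≤ f T * h T * d := mul_nonneg (hnn T) (by linarith)
    have h7 : 1 ≤ f T * h T * d := by nlinarith
    have h8 : 1 / d ≤ f T * h T := by
      rw [div_le_iff₀ (by linarith)]; exact h7
    have h9 : 2 / d = 2 * (1 / d) := by ring
    linarith
  refine hle.trans_lt ?_
  apply Real.sqrt_lt_sqrt
  · have : 2 / d ≤ 2 := by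
      rw [div_le_iff₀ (by linarith)]; linarith
    linarith
  · have : 0 < 2 / d := by positivity
    linarith

lemma splits {n : ℕ} (hn : 4 ≤ n) {Y : Set (EuclideanSpace ℝ (Sets n 4))} (hY : Y ⊆ X n)
    (hdiam : Real.sqrt 2 ≤ diam Y) : SplitsInto Y (2 ^ n.choose 3 * n.choose 4) := by
  classical
  have hcard : Fintype.card ((Sets n 3 → Bool) × Sets n 4) = 2 ^ n.choose 3 * n.choose 4 := by
    rw [Fintype.card_prod, Fintype.card_fun, Fintype.card_bool, card_sets, card_sets]
  set e : (Sets n 3 → Bool) × Sets n 4 ≃ Fin (2 ^ n.choose 3 * n.choose 4) :=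
    Fintype.equivFinOfCardEq hcard
  refine ⟨fun i => piece Y (e.symm i).1 (e.symm i).2, ?_,
    fun i => (piece_diam hn hY _ _).trans_le hdiam⟩
  apply Subset.antisymm
  · intro f hf
    have hsum : ∑ T, f T ^ 2 = 1 := by
      have := EuclideanSpace.norm_sq_eq f
      rw [(hY hf).2] at this
      simpa using this.symm
    have hcard' : (Finset.univ : Finset (Sets n 4)).card = n.choose 4 := by
      rw [Finset.card_univ, card_sets]
    obtain ⟨T, hT⟩ : ∃ T, 1 ≤ (n.choose 4 : ℝ) * f T ^ 2 := by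
      by_contra hcon
      push Not at hcon
      have hne : (Finset.univ : Finset (Sets n 4)).Nonempty := by
        rw [← Finset.card_pos, hcard']; exact Nat.choose_pos hn
      have h1 : ∑ T : Sets n 4, (n.choose 4 : ℝ) * f T ^ 2 < ∑ _T : Sets n 4, (1 : ℝ) :=
        Finset.sum_lt_sum_of_nonempty hne fun T _ => hcon T
      rw [← Finset.mul_sum, hsum, Finset.sum_const, hcard'] at h1
      simp at h1
    obtain ⟨⟨g, hg⟩, -⟩ := hY hf
    rw [mem_iUnion]
    refine ⟨e (fun S => decide (0 ≤ g S), T), ?_⟩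
    simp only [Equiv.symm_apply_apply]
    refine ⟨hf, ⟨g, fun S => ?_, hg⟩, hT⟩
    by_cases h : 0 ≤ g S
    · simp [h]
    · simp only [h, decide_false]
      push Not at h
      simp; linarith
  · apply iUnion_subset
    rintro i f ⟨hf, -⟩
    exact hf

/-- Numerical comparison. -/
lemma numeric {n : ℕ} (hn : 100 ≤ n) :
    ((2 ^ n.choose 3 * n.choose 4 : ℕ) : ℝ) < Real.exp ((n.choose 4 : ℝ) ^ (4 / 5 : ℝ)) := by
  obtain ⟨m, rfl⟩ : ∃ m, n = m + 3 := ⟨n - 3, by omega⟩
  have hm : (97 : ℝ) ≤ m := by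
    have : 97 ≤ m := by omega
    exact_mod_cast this
  have e4 : (m + 3).choose 4 * 4 = (m + 3).choose 3 * m := by
    have := Nat.choose_succ_right_eq (m + 3) 3
    simpa using this
  have e3 : (m + 3).choose 3 * 3 = (m + 3).choose 2 * (m + 1) := by
    have := Nat.choose_succ_right_eq (m + 3) 2
    simpa using this
  have e2 : (m + 3).choose 2 * 2 = (m + 3) * (m + 2) := by
    have := Nat.choose_succ_right_eq (m + 3) 1
    simpa using this
  have e4' : ((m + 3).choose 4 : ℝ) * 4 = (m + 3).choose 3 * m := by exact_mod_cast e4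
  have e3' : ((m + 3).choose 3 : ℝ) * 3 = (m + 3).choose 2 * (m + 1) := by exact_mod_cast e3
  have e2' : ((m + 3).choose 2 : ℝ) * 2 = (m + 3) * (m + 2) := by exact_mod_cast e2
  set d : ℝ := ((m + 3).choose 4 : ℝ) with hd
  set N : ℝ := ((m + 3).choose 3 : ℝ) with hN
  have hN6 : N * 6 = (m + 3) * (m + 2) * (m + 1) := by nlinarith
  have hN0 : 0 < N := by
    have : 0 < N * 6 := by rw [hN6]; positivity
    linarith
  have hNbig : 1000 ≤ N := by
    have h1 : (100 : ℝ) * 99 * 98 ≤ (m + 3) * (m + 2) * (m + 1) := by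
      have a1 : (100 : ℝ) ≤ m + 3 := by linarith
      have a2 : (99 : ℝ) ≤ m + 2 := by linarith
      have a3 : (98 : ℝ) ≤ m + 1 := by linarith
      have a4 : (100 : ℝ) * 99 ≤ (m + 3) * (m + 2) := by nlinarith
      nlinarith
    linarith
  have hd0 : 0 ≤ d := Nat.cast_nonneg _
  -- N ≤ m ^ 4 / 256
  have hNm : N * 256 ≤ (m : ℝ) ^ 4 := by
    have h1 : 256 * ((m + 3) * (m + 2) * (m + 1)) ≤ 6 * (m : ℝ) ^ 4 := by
      have h2 : ((m : ℝ) + 3) * (m + 2) * (m + 1) ≤ 2 * (m : ℝ) ^ 3 := by nlinarith [sq_nonneg (m : ℝ)]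
      have h3 : 512 * (m : ℝ) ^ 3 ≤ 6 * (m : ℝ) ^ 4 := by
        have : 0 ≤ (m : ℝ) ^ 3 := by positivity
        nlinarith
      linarith
    linarith
  have hpow : N ^ 5 ≤ d ^ 4 := by
    have h1 : d = N * m / 4 := by linarith
    rw [h1]
    have h2 : (N * m / 4) ^ 4 = N ^ 4 * ((m : ℝ) ^ 4 / 256) := by ring
    rw [h2]
    have h3 : N ≤ (m : ℝ) ^ 4 / 256 := by linarith
    calc N ^ 5 = N ^ 4 * N := by ring
      _ ≤ N ^ 4 * ((m : ℝ) ^ 4 / 256) := by gcongr
  set y : ℝ := d ^ (4 / 5 : ℝ) with hy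
  have hy0 : 0 ≤ y := Real.rpow_nonneg hd0 _
  have hy5 : y ^ 5 = d ^ 4 := by
    rw [hy, ← Real.rpow_natCast, ← Real.rpow_mul hd0, ← Real.rpow_natCast]
    norm_num
  have hNy : N ≤ y := by
    apply le_of_pow_le_pow_left₀ (n := 5) (by norm_num) hy0
    rw [hy5]; exact hpow
  have hdN : d ≤ N ^ 2 := by
    have : (m : ℝ) ≤ 4 * N := by nlinarith
    nlinarith
  have hlog : Real.log 2 ≤ 0.7 := by
    have := Real.log_two_lt_d9
    linarith
  have h2N : (2 : ℝ) ^ ((m + 3).choose 3) ≤ Real.exp (0.7 * N) := by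
    have : (2 : ℝ) ^ ((m + 3).choose 3) = Real.exp (Real.log 2 * N) := by
      rw [hN, Real.exp_mul, Real.exp_log (by norm_num), Real.rpow_natCast]
    rw [this]
    apply Real.exp_le_exp.2
    nlinarith
  have hcube := Real.pow_div_factorial_le_exp (0.3 * N) (by positivity) 3
  have hfac : ((3 : ℕ).factorial : ℝ) = 6 := by norm_num [Nat.factorial]
  rw [hfac] at hcube
  have hN2 : N ^ 2 < Real.exp (0.3 * N) := by
    have : N ^ 2 < (0.3 * N) ^ 3 / 6 := by
      have h1 : 0 < N ^ 2 := by positivity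
      nlinarith
    linarith
  push_cast
  calc (2 : ℝ) ^ ((m + 3).choose 3) * d ≤ Real.exp (0.7 * N) * N ^ 2 := by gcongr
    _ < Real.exp (0.7 * N) * Real.exp (0.3 * N) := by
        apply mul_lt_mul_of_pos_left hN2 (Real.exp_pos _)
    _ = Real.exp N := by rw [← Real.exp_add]; congr 1; ring
    _ ≤ Real.exp y := Real.exp_le_exp.2 hNy

/-- Flipping the sign of `g` at one 3-set. -/
lemma sum_signs {n : ℕ} (T : Sets n 4) :
    ∑ s : Sets n 3 → Bool, prodFun (fun S => if s S then (1 : ℝ) else -1) T = 0 := by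
  classical
  obtain ⟨U, hUT, hU⟩ := Finset.exists_subset_card_eq (s := T.1) (n := 3) (by rw [T.2]; norm_num)
  set S₀ : Sets n 3 := ⟨U, hU⟩
  refine Finset.sum_involution (fun s _ => Function.update s S₀ (!s S₀)) ?_ ?_ ?_ ?_
  · intro s _
    have hmem : S₀ ∈ Finset.univ.filter (fun S : Sets n 3 => S.1 ⊆ T.1) := by
      simpa using hUT
    simp only [prodFun]
    rw [← Finset.mul_prod_erase _ _ hmem, ← Finset.mul_prod_erase _ _ hmem]
    have : ∀ S ∈ (Finset.univ.filter (fun S : Sets n 3 => S.1 ⊆ T.1)).erase S₀,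
        (if Function.update s S₀ (!s S₀) S then (1 : ℝ) else -1) = if s S then 1 else -1 := by
      intro S hS
      rw [Function.update_of_ne (Finset.ne_of_mem_erase hS)]
    rw [Finset.prod_congr rfl this, Function.update_self]
    cases s S₀ <;> simp
  · intro s _ _ h
    have := congrFun h S₀
    simp at this
  · intro s _; simp
  · intro s _
    simp

lemma sign_mem {n : ℕ} (hn : 4 ≤ n) : signVectors n ⊆ X n := by
  rintro f ⟨g, hg, rfl⟩
  have hd : (0 : ℝ) < (n.choose 4 : ℝ) := by exact_mod_cast Nat.choose_pos hn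
  set d : ℝ := (n.choose 4 : ℝ) with hdd
  have hsq : ∀ T, (prodFun g T) ^ 2 = 1 := by
    intro T
    simp only [prodFun]
    rw [← Finset.prod_pow]
    apply Finset.prod_eq_one
    intro S _
    rcases hg S with h | h <;> rw [h] <;> norm_num
  have hnorm : ‖prodFun g‖ = Real.sqrt d := by
    rw [EuclideanSpace.norm_eq]
    congr 1
    have : ∀ T, ‖prodFun g T‖ ^ 2 = 1 := by
      intro T; rw [Real.norm_eq_abs, sq_abs, hsq]
    simp only [this]
    rw [Finset.sum_const, Finset.card_univ, card_sets]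
    simp [hdd]
  refine ⟨⟨fun S => d ^ (-(1 / 8) : ℝ) * g S, ?_⟩, ?_⟩
  · ext T
    have hcard : (Finset.univ.filter (fun S : Sets n 3 => S.1 ⊆ T.1)).card = 4 := by
      have h1 : (Finset.univ.filter (fun S : Sets n 3 => S.1 ⊆ T.1)).map
          (Function.Embedding.subtype _) = T.1.powersetCard 3 := by
        ext U
        simp only [Finset.mem_map, Finset.mem_filter, Finset.mem_univ, true_and,
          Function.Embedding.subtype_apply, Finset.mem_powersetCard]
        constructor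
        · rintro ⟨S, hS, rfl⟩; exact ⟨hS, S.2⟩
        · rintro ⟨h1, h2⟩; exact ⟨⟨U, h2⟩, h1, rfl⟩
      rw [← Finset.card_map, h1, Finset.card_powersetCard, T.2]
      rfl
    simp only [prodFun, PiLp.smul_apply, smul_eq_mul]
    rw [Finset.prod_mul_distrib, Finset.prod_const, hcard]
    congr 1
    rw [← Real.rpow_natCast, ← Real.rpow_mul hd.le, Real.sqrt_eq_rpow, ← Real.rpow_neg hd.le]
    norm_num
  · rw [norm_smul, hnorm, norm_inv, Real.norm_eq_abs, abs_of_nonneg (Real.sqrt_nonneg _),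
      inv_mul_cancel₀ (Real.sqrt_pos.2 hd).ne']

lemma X_bounded (n : ℕ) : Bornology.IsBounded (X n) := by
  apply (Metric.isBounded_closedBall (x := (0 : EuclideanSpace ℝ (Sets n 4))) (r := 1)).subset
  rintro f ⟨-, hf⟩
  simp [hf]

/-- The sign-valued vectors have diameter at least `√2`. -/
lemma sign_diam {n : ℕ} (hn : 4 ≤ n) : Real.sqrt 2 ≤ diam (signVectors n) := by
  classical
  have hd : (0 : ℝ) < (n.choose 4 : ℝ) := by exact_mod_cast Nat.choose_pos hn
  set d : ℝ := (n.choose 4 : ℝ) with hdd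
  -- some sign pattern has nonpositive total
  obtain ⟨s, hs⟩ : ∃ s : Sets n 3 → Bool,
      ∑ T, prodFun (fun S => if s S then (1 : ℝ) else -1) T ≤ 0 := by
    by_contra hcon
    push Not at hcon
    have h1 : 0 < ∑ s : Sets n 3 → Bool, ∑ T, prodFun (fun S => if s S then (1 : ℝ) else -1) T :=
      Finset.sum_pos (fun s _ => hcon s) ⟨fun _ => true, Finset.mem_univ _⟩
    rw [Finset.sum_comm] at h1
    simp only [sum_signs, Finset.sum_const_zero] at h1
    exact lt_irrefl _ h1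
  set g : Sets n 3 → ℝ := fun S => if s S then (1 : ℝ) else -1 with hg
  have hg1 : ∀ S, g S = 1 ∨ g S = -1 := by
    intro S; rw [hg]; by_cases h : s S <;> simp [h]
  set f₁ := (Real.sqrt d)⁻¹ • prodFun g with hf₁
  set f₂ := (Real.sqrt d)⁻¹ • prodFun (fun _ : Sets n 3 => (1 : ℝ)) with hf₂
  have m1 : f₁ ∈ signVectors n := ⟨g, hg1, rfl⟩
  have m2 : f₂ ∈ signVectors n := ⟨fun _ => 1, fun _ => Or.inl rfl, rfl⟩
  have hdist := dist_le_diam_of_mem ((X_bounded n).subset (sign_mem hn)) m1 m2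
  refine le_trans ?_ hdist
  apply Real.sqrt_le_iff.2 ⟨dist_nonneg, ?_⟩
  rw [dist_eq_norm, norm_sub_sq_real, (sign_mem hn m1).2, (sign_mem hn m2).2]
  have hin : inner ℝ f₁ f₂ ≤ 0 := by
    rw [hf₁, hf₂, inner_smul_left, inner_smul_right]
    have h1 : inner ℝ (prodFun g) (prodFun (fun _ : Sets n 3 => (1 : ℝ)))
        = ∑ T, prodFun g T := by
      simp [PiLp.inner_apply, prodFun]
    rw [h1]
    have h2 : 0 ≤ (Real.sqrt d)⁻¹ := by positivity
    simp only [conj_trivial]
    have h3 : (Real.sqrt d)⁻¹ * ∑ T, prodFun g T ≤ 0 := mul_nonpos_of_nonneg_of_nonpos h2 hs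
    exact mul_nonpos_of_nonneg_of_nonpos h2 h3
  linarith

/-- For `n ≥ 100` no subset `Y` of `X_n` of diameter at least `√2` has Borsuk number
`≥ exp(d^(4/5))`, `d = C(n,4)`. This applies to `X_n` itself and to the set of sign-valued
vectors. -/
theorem result : ∀ n : ℕ, 100 ≤ n →
    (∀ Y : Set (EuclideanSpace ℝ (Sets n 4)), Y ⊆ X n → Real.sqrt 2 ≤ diam Y →
      ∃ b : ℕ, IsLeast {m : ℕ | SplitsInto Y m} b ∧
        (b : ℝ) < Real.exp ((n.choose 4 : ℝ) ^ (4 / 5 : ℝ))) ∧
    Real.sqrt 2 ≤ diam (X n) ∧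
    signVectors n ⊆ X n ∧ Real.sqrt 2 ≤ diam (signVectors n) := by
  classical
  intro n hn
  have hn4 : 4 ≤ n := by omega
  refine ⟨?_, ?_, sign_mem hn4, sign_diam hn4⟩
  · intro Y hY hdiam
    have hex : ∃ m : ℕ, SplitsInto Y m := ⟨_, splits hn4 hY hdiam⟩
    refine ⟨Nat.find hex, ⟨Nat.find_spec hex, fun m hm => Nat.find_min' hex hm⟩, ?_⟩
    have hle : Nat.find hex ≤ 2 ^ n.choose 3 * n.choose 4 :=
      Nat.find_min' hex (splits hn4 hY hdiam)
    calc (Nat.find hex : ℝ) ≤ ((2 ^ n.choose 3 * n.choose 4 : ℕ) : ℝ) := by exact_mod_cast hle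
      _ < _ := numeric hn
  · exact (sign_diam hn4).trans (diam_mono (sign_mem hn4) (X_bounded n))

end Pool.Agent.V11205.BorU
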