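import Mathlib
import Pool.Agent.V11205.BorU

set_option autoImplicit false

namespace Pool.Agent.V11205.BorT

open Pool.Agent.V11205.BorU Metric

theorem X_eq (n : ℕ) : {f : EuclideanSpace ℝ {T : Finset (Fin n) // T.card = 4} |
      ∃ g : Finset (Fin n) → ℝ,
              f = WithLp.toLp 2 (fun T : {T : Finset (Fin n) // T.card = 4} =>
                    ∏ S ∈ T.1.powersetCard 3, g S) ∧ ‖f‖ = 1} = X n := by
  have hprod : ∀ (g : Finset (Fin n) → ℝ) (T : {T : Finset (Fin n) // T.card = 4}),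
      ∏ S ∈ T.1.powersetCard 3, g S = ∏ S : Sets n 3 with S.1 ⊆ T.1, g S.1 := by
    intro g T
    refine Finset.prod_bij' (fun S hS => (⟨S, (Finset.mem_powersetCard.1 hS).2⟩ : Sets n 3))
      (fun S _ => S.1) ?_ ?_ ?_ ?_ ?_
    · intro S hS
      rw [Finset.mem_powersetCard] at hS
      simp [hS.1]
    · intro S hS
      rw [Finset.mem_filter] at hS
      rw [Finset.mem_powersetCard]
      exact ⟨hS.2, S.2⟩
    · intro S hS; rfl
    · intro S hS; rfl
    · intro S hS; rfl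
  ext f
  constructor
  · rintro ⟨g, hf, h1⟩
    refine ⟨⟨fun S => g S.1, ?_⟩, h1⟩
    rw [hf]
    unfold prodFun
    congr 1
    funext T
    exact hprod g T
  · rintro ⟨⟨g, hf⟩, h1⟩
    classical
    refine ⟨fun S => if h : S.card = 3 then g ⟨S, h⟩ else 0, ?_, h1⟩
    rw [hf]
    unfold prodFun
    congr 1
    funext T
    rw [hprod]
    refine Finset.prod_congr rfl fun S _ => ?_
    rw [dif_pos S.2]

theorem final :
    ¬ (∃ N : ℕ, ∀ n : ℕ, N ≤ n →
      ∀ X : Set (EuclideanSpace ℝ {T : Finset (Fin n) // T.card = 4}),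
        X = {f | ∃ g : Finset (Fin n) → ℝ,
              f = WithLp.toLp 2 (fun T : {T : Finset (Fin n) // T.card = 4} =>
                    ∏ S ∈ T.1.powersetCard 3, g S) ∧ ‖f‖ = 1} →
        ∀ m : ℕ, ∀ A : Fin m → Set (EuclideanSpace ℝ {T : Finset (Fin n) // T.card = 4}),
          (⋃ i, A i) = X →
          (∀ i, Metric.diam (A i) < Metric.diam X) →
          Real.exp (((n.choose 4 : ℕ) : ℝ) ^ ((4 : ℝ) / 5)) ≤ (m : ℝ)) := by
  rintro ⟨N, hN⟩
  have h := hN (max N 100) (le_max_left _ _) (X (max N 100)) (X_eq _).symm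
  obtain ⟨h1, h2, -, -⟩ := result (max N 100) (le_max_right _ _)
  obtain ⟨b, hb, hlt⟩ := h1 (X (max N 100)) subset_rfl h2
  obtain ⟨B, hB1, hB2⟩ := hb.1
  exact absurd (h b B hB1.symm hB2) (not_le.2 hlt)

end Pool.Agent.V11205.BorT
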