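import Pool.Agent.H902R3.ZA.Defs
import Pool.Agent.H902R3.ZA.LBM
import Pool.Agent.H902R3.ZA.PLA
import Pool.Agent.H902R3.ZA.PLN
import Pool.Agent.H902R3.ZA.RES
import Pool.Agent.H902R3.ZA.DOM
import Pool.Agent.H902R3.ZA.SEC
import Pool.Agent.H902R3.ZA.SC
import Pool.Agent.H902R3.ZA.LAW
import Pool.Agent.H902R3.ZA.LOW
import Pool.Agent.H902R3.ZA.PHI
import Pool.Agent.H902R3.ZA.ROT
import Pool.Agent.H902R3.ZA.QJ
import Pool.Agent.H902R3.ZA.JEN
import Pool.Agent.H902R3.ZA.MEAN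
import Pool.Agent.H902R3.ZA.FIX
import Pool.Agent.H902R3.ZA.TWO
import Pool.Agent.H902R3.ZA.SHI
import Pool.Agent.H902R3.ZA.AVG
import Pool.Agent.H902R3.ZA.COL
import Pool.Agent.H902R3.ZA.STEPL
import Pool.Agent.H902R3.ZA.STEP
import Pool.Agent.H902R3.ZA.ITER
import Pool.Agent.H902R3.ZA.ZSUP
import Pool.Agent.H902R3.ZA.ZOND
import Pool.Agent.H902R3.ZA.FIN
import Pool.Agent.H172R2.ZS.LEW
import Pool.Agent.H172R2.ZS.BAS
import Pool.Agent.H172R2.ZS.ONE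
import Pool.Agent.H172R2.ZS.DET
import Pool.Agent.H172R2.ZS.MAP
import Pool.Agent.H172R2.ZS.GAU
import Pool.Agent.H172R2.GS.HAM

/-!
# Transport of the theorem on zonoids to the frozen form
-/

set_option autoImplicit false

open scoped Pointwise ENNReal

namespace Pool.Agent.V11205.ZonF

open Pool.Agent.H902R3.ZA Pool.Agent.H172R2.ZS

/-- all steps together -/
theorem main : S_FIN := by
  have hGAU : Pool.Agent.H172R2.ZS.S_GAU := GAU_ok (MAP_ok ONE_ok BAS_ok DET_ok)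
  have hHAM : Pool.Agent.H172R2.ZS.S_HAM := Pool.Agent.H172R2.GS.HAM_ok
  have hPLN : S_PLN := PLN_ok (PLA_ok LBM_ok)
  have hDOM : S_DOM := DOM_ok RES_ok
  have hSC : S_SC := SC_ok RES_ok (SEC_ok hPLN)
  have hLOW : S_LOW := LOW_ok hDOM hSC LAW_ok hGAU
  have hJEN : S_JEN := JEN_ok hPLN ROT_ok QJ_ok
  have hTWO : S_TWO := TWO_ok hLOW PHI_ok hJEN MEAN_ok (FIX_ok PHI_ok)
  have hCOL : S_COL := COL_ok SHI_ok AVG_ok hHAM
  exact FIN_ok (ITER_ok (STEP_ok (STEPL_ok hTWO hCOL) LEW_ok BAS_ok)) ZSUP_ok ZOND_ok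

lemma sum_segment_eq {n m : ℕ} (v : Fin m → EuclideanSpace ℝ (Fin n)) :
    (∑ i, segment ℝ (-v i) (v i)) = Zon v := by
  ext x
  rw [Set.mem_fintype_sum]
  constructor
  · rintro ⟨g, hg, rfl⟩
    choose a b ha hb hab hgab using hg
    refine ⟨fun j => b j - a j, fun j => ⟨?_, ?_⟩, ?_⟩
    · linarith [ha j, hb j, hab j]
    · linarith [ha j, hb j, hab j]
    · refine Finset.sum_congr rfl fun j _ => ?_
      rw [← hgab j]
      module
  · rintro ⟨t, ht, rfl⟩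
    refine ⟨fun j => t j • v j, fun j => ?_, rfl⟩
    refine ⟨(1 - t j) / 2, (1 + t j) / 2, ?_, ?_, by ring, ?_⟩
    · linarith [(ht j).2]
    · linarith [(ht j).1]
    · module

lemma Zon_nonempty {n m : ℕ} (v : Fin m → EuclideanSpace ℝ (Fin n)) : (Zon v).Nonempty :=
  ⟨0, fun _ => 0, fun _ => by norm_num, by simp⟩

lemma Zon_bounded {n m : ℕ} (v : Fin m → EuclideanSpace ℝ (Fin n)) :
    Bornology.IsBounded (Zon v) := by
  rw [isBounded_iff_forall_norm_le]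
  refine ⟨∑ j, ‖v j‖, ?_⟩
  rintro x ⟨t, ht, rfl⟩
  refine (norm_sum_le _ _).trans (Finset.sum_le_sum fun j _ => ?_)
  rw [norm_smul]
  have : ‖t j‖ ≤ 1 := by rw [Real.norm_eq_abs]; exact abs_le.2 ⟨(ht j).1, (ht j).2⟩
  nlinarith [norm_nonneg (v j)]

lemma Zon_convex {n m : ℕ} (v : Fin m → EuclideanSpace ℝ (Fin n)) : Convex ℝ (Zon v) := by
  rintro x ⟨t, ht, rfl⟩ y ⟨s, hs, rfl⟩ a b ha hb hab
  refine ⟨fun j => a * t j + b * s j, fun j => ⟨?_, ?_⟩, ?_⟩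
  · nlinarith [(ht j).1, (hs j).1]
  · nlinarith [(ht j).2, (hs j).2]
  · rw [Finset.smul_sum, Finset.smul_sum, ← Finset.sum_add_distrib]
    refine Finset.sum_congr rfl fun j _ => ?_
    module

lemma Zon_neg {n m : ℕ} (v : Fin m → EuclideanSpace ℝ (Fin n)) {x : EuclideanSpace ℝ (Fin n)}
    (hx : x ∈ Zon v) : -x ∈ Zon v := by
  obtain ⟨t, ht, rfl⟩ := hx
  refine ⟨fun j => -t j, fun j => ⟨?_, ?_⟩, ?_⟩
  · linarith [(ht j).2]
  · linarith [(ht j).1]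
  · rw [← Finset.sum_neg_distrib]
    refine Finset.sum_congr rfl fun j _ => ?_
    module

lemma isZonoid_of {n : ℕ} {K : Set (EuclideanSpace ℝ (Fin n))} (hK : IsCompact K)
    (hint : (interior K).Nonempty)
    (h : ∀ δ : ℝ, 0 < δ → ∃ m : ℕ, ∃ v : Fin m → EuclideanSpace ℝ (Fin n),
      Metric.hausdorffDist K (Zon v) < δ) : IsZonoid K := by
  have hne : K.Nonempty := hint.mono interior_subset
  have hfin : ∀ {m : ℕ} (v : Fin m → EuclideanSpace ℝ (Fin n)), Metric.hausdorffEDist K (Zon v) ≠ ⊤ :=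
    fun v => Metric.hausdorffEDist_ne_top_of_nonempty_of_bounded hne (Zon_nonempty v) hK.isBounded
      (Zon_bounded v)
  have hclosed : ∀ z : EuclideanSpace ℝ (Fin n), (∀ δ : ℝ, 0 < δ → ∃ w ∈ K, dist z w < δ) → z ∈ K := by
    intro z hz
    rw [← hK.isClosed.closure_eq, Metric.mem_closure_iff]
    exact hz
  refine ⟨?_, hK, hint, ?_, ?_⟩
  · intro x hx y hy a b ha hb hab
    refine hclosed _ fun δ hδ => ?_
    obtain ⟨m, v, hv⟩ := h (δ / 2) (by linarith)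
    obtain ⟨x', hx', hxx⟩ := Metric.exists_dist_lt_of_hausdorffDist_lt hx hv (hfin v)
    obtain ⟨y', hy', hyy⟩ := Metric.exists_dist_lt_of_hausdorffDist_lt hy hv (hfin v)
    obtain ⟨w, hw, hww⟩ := Metric.exists_dist_lt_of_hausdorffDist_lt'
      (Zon_convex v hx' hy' ha hb hab) hv (hfin v)
    refine ⟨w, hw, ?_⟩
    have h1 : dist (a • x + b • y) (a • x' + b • y') ≤ a * dist x x' + b * dist y y' := by
      rw [dist_eq_norm, dist_eq_norm, dist_eq_norm]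
      have : a • x + b • y - (a • x' + b • y') = a • (x - x') + b • (y - y') := by module
      rw [this]
      refine (norm_add_le _ _).trans ?_
      rw [norm_smul, norm_smul, Real.norm_of_nonneg ha, Real.norm_of_nonneg hb]
    have h2 : a * dist x x' + b * dist y y' ≤ δ / 2 := by
      calc a * dist x x' + b * dist y y' ≤ a * (δ / 2) + b * (δ / 2) := by gcongr
        _ = δ / 2 := by rw [← add_mul, hab, one_mul]
    have h3 := dist_triangle (a • x + b • y) (a • x' + b • y') w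
    rw [dist_comm w] at hww
    linarith
  · intro x hx
    refine hclosed _ fun δ hδ => ?_
    obtain ⟨m, v, hv⟩ := h (δ / 2) (by linarith)
    obtain ⟨x', hx', hxx⟩ := Metric.exists_dist_lt_of_hausdorffDist_lt hx hv (hfin v)
    obtain ⟨w, hw, hww⟩ := Metric.exists_dist_lt_of_hausdorffDist_lt' (Zon_neg v hx') hv (hfin v)
    refine ⟨w, hw, ?_⟩
    rw [← dist_neg_neg x x'] at hxx
    have h3 := dist_triangle (-x) (-x') w
    rw [dist_comm w] at hww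
    linarith
  · intro ε hε
    obtain ⟨m, v, hv⟩ := h ε hε
    exact ⟨m, Zon v, ⟨0, v, by ext x; simp⟩, hv⟩

theorem frozen :
    ¬ (∃ ε : ℝ, 0 < ε ∧ ∀ C : ℝ, ∃ n : ℕ, ∃ K : Set (EuclideanSpace ℝ (Fin n)),
      IsCompact K ∧ (interior K).Nonempty ∧
      (∀ δ : ℝ, 0 < δ → ∃ m : ℕ, ∃ v : Fin m → EuclideanSpace ℝ (Fin n),
          Metric.hausdorffDist K (∑ i, segment ℝ (-v i) (v i)) < δ) ∧
      ¬ ∃ m : ℕ, (m : ℝ) ≤ C * n ∧
          ∃ v : Fin m → EuclideanSpace ℝ (Fin n),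
          ∃ T : EuclideanSpace ℝ (Fin n) ≃ₗ[ℝ] EuclideanSpace ℝ (Fin n),
            T '' K ⊆ ∑ i, segment ℝ (-v i) (v i) ∧
            ∑ i, segment ℝ (-v i) (v i) ⊆ (1 + ε) • (T '' K)) := by
  rintro ⟨ε, hε, h⟩
  obtain ⟨C₀, hC₀, hmain⟩ := main
  set ε' : ℝ := min ε (1 / 2) with hε'
  have hε'0 : 0 < ε' := by positivity
  have hε'1 : ε' < 1 := lt_of_le_of_lt (min_le_right _ _) (by norm_num)
  have hε'ε : ε' ≤ ε := min_le_left _ _
  obtain ⟨n, K, hK, hint, hlim, hno⟩ := h (C₀ / ε' ^ 2)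
  apply hno
  have hZ : IsZonoid K := by
    refine isZonoid_of hK hint fun δ hδ => ?_
    obtain ⟨m, v, hv⟩ := hlim δ hδ
    rw [sum_segment_eq] at hv
    exact ⟨m, v, hv⟩
  obtain ⟨M, v, hM, hsub, hsup⟩ := hmain n K hZ ε' hε'0 hε'1
  have h1 : (0 : ℝ) < 1 + ε' := by linarith
  have h1' : (0 : ℝ) < 1 + ε := by linarith
  refine ⟨M, by rw [div_mul_eq_mul_div]; exact hM, v,
    LinearEquiv.smulOfNeZero ℝ (EuclideanSpace ℝ (Fin n)) (1 + ε')⁻¹ (inv_ne_zero h1.ne'), ?_, ?_⟩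
  · rw [sum_segment_eq]
    rintro _ ⟨x, hx, rfl⟩
    obtain ⟨y, hy, rfl⟩ := hsup x hx
    have : (LinearEquiv.smulOfNeZero ℝ (EuclideanSpace ℝ (Fin n)) (1 + ε')⁻¹ (inv_ne_zero h1.ne'))
        ((1 + ε') • y) = y := by
      change (1 + ε')⁻¹ • (1 + ε') • y = y
      rw [smul_smul, inv_mul_cancel₀ h1.ne', one_smul]
    rw [this]; exact hy
  · rw [sum_segment_eq]
    intro y hy
    have hyK := hsub hy
    -- y = (1+ε) • ((1+ε')⁻¹ • w) with w = ((1+ε')/(1+ε)) • y ∈ K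
    have h0K : (0 : EuclideanSpace ℝ (Fin n)) ∈ K := by
      have h2 : (1 / 2 : ℝ) • y + (1 / 2 : ℝ) • -y ∈ K :=
        hZ.1 hyK (hZ.2.2.2.1 y hyK) (by norm_num) (by norm_num) (by norm_num)
      have : (1 / 2 : ℝ) • y + (1 / 2 : ℝ) • -y = 0 := by module
      rwa [this] at h2
    have hw : ((1 + ε') / (1 + ε)) • y ∈ K := by
      have h2 : ((1 + ε') / (1 + ε)) • y + (1 - (1 + ε') / (1 + ε)) •
          (0 : EuclideanSpace ℝ (Fin n)) ∈ K := hZ.1 hyK h0K (by positivity)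
        (by
          have : (1 + ε') / (1 + ε) ≤ 1 := by rw [div_le_one h1']; linarith
          linarith) (by ring)
      rwa [smul_zero, add_zero] at h2
    refine Set.mem_smul_set.2 ⟨(1 + ε')⁻¹ • (((1 + ε') / (1 + ε)) • y), ⟨_, hw, rfl⟩, ?_⟩
    rw [smul_smul, smul_smul]
    have : (1 + ε) * ((1 + ε')⁻¹ * ((1 + ε') / (1 + ε))) = 1 := by field_simp
    rw [← mul_assoc] at this
    rw [this, one_smul]

end Pool.Agent.V11205.ZonF
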