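import Mathlib
import Pool.Agent.Helper764.KacFin

set_option autoImplicit false
open MeasureTheory ProbabilityTheory Filter Topology Set

namespace Pool.Agent.V11205.KacT

/-- restriction of a sequence to its first `n + 1` terms -/
def res (n : ℕ) (ω : ℕ → ℝ) : Fin (n + 1) → ℝ := fun k => ω k

/-- extension by zero -/
noncomputable def ext (n : ℕ) (c : Fin (n + 1) → ℝ) : ℕ → ℝ :=
  fun k => if h : k < n + 1 then c ⟨k, h⟩ else 0

theorem measurable_res (n : ℕ) : Measurable (res n) :=
  measurable_pi_lambda _ fun k => measurable_pi_apply _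

theorem measurable_ext (n : ℕ) : Measurable (ext n) := by
  refine measurable_pi_lambda _ fun k => ?_
  unfold ext
  by_cases h : k < n + 1
  · simp only [h, dite_true]
    exact measurable_pi_apply _
  · simp only [h, dite_false]
    exact measurable_const

theorem map_res (μ : Measure ℝ) [IsProbabilityMeasure μ] (n : ℕ) :
    (Kac764.PP μ).map (res n) = Measure.pi fun _ : Fin (n + 1) => μ := by
  symm
  refine Measure.pi_eq fun s hs => ?_
  rw [Measure.map_apply (measurable_res n) (MeasurableSet.univ_pi hs)]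
  have e : res n ⁻¹' Set.pi univ s = Set.pi (Finset.range (n + 1) : Set ℕ)
      (fun k => if h : k < n + 1 then s ⟨k, h⟩ else univ) := by
    ext ω
    constructor
    · intro h k hk
      have hk' : k < n + 1 := by simpa using hk
      simp only [hk', dite_true]
      exact h ⟨k, hk'⟩ (Set.mem_univ _)
    · intro h k _
      have := h k (by simpa using Nat.lt_succ_iff.1 k.2)
      simp only [k.2, dite_true] at this
      exact this
  rw [e, Measure.infinitePi_pi]
  · rw [Finset.prod_range]
    refine Finset.prod_congr rfl fun k _ => ?_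
    rw [dif_pos k.2]
  · intro k hk
    by_cases h : k < n + 1
    · simp only [h, dite_true]; exact hs _
    · simp only [h, dite_false]; exact MeasurableSet.univ

theorem nz_eq (p : Polynomial ℝ) : p.roots.toFinset.card = Kac764.nz p univ := by
  unfold Kac764.nz
  rw [← Set.ncard_coe_finset]
  congr 1
  ext x
  simp [Polynomial.mem_roots']

theorem poly_eq (n : ℕ) (ω : ℕ → ℝ) :
    (∑ k : Fin (n + 1), Polynomial.C (res n ω k) * Polynomial.X ^ (k : ℕ)) = Kac764.kac n ω := by
  unfold Kac764.kac res
  rw [Finset.sum_range]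

theorem poly_eq' (n : ℕ) (c : Fin (n + 1) → ℝ) :
    (∑ k : Fin (n + 1), Polynomial.C (c k) * Polynomial.X ^ (k : ℕ)) = Kac764.kac n (ext n c) := by
  rw [← poly_eq]
  refine Finset.sum_congr rfl fun k _ => ?_
  unfold res ext
  rw [dif_pos k.2]

theorem key (μ : Measure ℝ) [IsProbabilityMeasure μ] (n : ℕ) :
    (∫⁻ c : Fin (n + 1) → ℝ,
      (((∑ k : Fin (n + 1), Polynomial.C (c k) * Polynomial.X ^ (k : ℕ)).roots.toFinset.card : ℕ) : ENNReal)
      ∂(Measure.pi fun _ : Fin (n + 1) => μ)).toReal =
    ∫ ω, (Kac764.nz (Kac764.kac n ω) univ : ℝ) ∂(Kac764.PP μ) := by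
  have hm : Measurable (fun ω : ℕ → ℝ => Kac764.nz (Kac764.kac n ω) univ) :=
    Kac764.H4.measurable_nz_set n univ (Or.inl rfl)
  have hF : Measurable (fun c : Fin (n + 1) → ℝ =>
      (((∑ k : Fin (n + 1), Polynomial.C (c k) * Polynomial.X ^ (k : ℕ)).roots.toFinset.card : ℕ) : ENNReal)) := by
    simp only [nz_eq, poly_eq']
    exact measurable_from_top.comp (hm.comp (measurable_ext n))
  rw [← map_res μ n, lintegral_map hF (measurable_res n)]
  simp only [poly_eq, nz_eq]
  rw [integral_eq_lintegral_of_nonneg_ae]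
  · congr 1
    refine lintegral_congr fun ω => ?_
    rw [ENNReal.ofReal_natCast]
  · filter_upwards with ω
    positivity
  · exact (measurable_from_top.comp hm).aestronglyMeasurable

theorem final :
    ∀ (μ : Measure ℝ) [IsProbabilityMeasure μ],
      Integrable (fun x : ℝ => x ^ 2) μ →
      ∫ x, x ∂μ = 0 →
      ∫ x, x ^ 2 ∂μ = 1 →
      ∃ C : ℝ, Tendsto
        (fun n : ℕ =>
          (∫⁻ c : Fin (n + 1) → ℝ,
              (((∑ k : Fin (n + 1), Polynomial.C (c k) * Polynomial.X ^ (k : ℕ)).roots.toFinset.card : ℕ) : ENNReal)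
              ∂(Measure.pi fun _ : Fin (n + 1) => μ)).toReal
            - 2 / Real.pi * Real.log (n : ℝ))
        atTop (𝓝 C) := by
  intro μ _ h1 h2 h3
  obtain ⟨L, -, hL⟩ := Kac764.Fin.main μ ⟨inferInstance, h1, h2, h3⟩
  refine ⟨_, hL.congr fun n => ?_⟩
  rw [key]

end Pool.Agent.V11205.KacT
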